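import Pool.Agent.N975.RQ.Gn
import Pool.Agent.N969.RQ.Defs

/-!
# The genus characters of project RQ
-/

set_option autoImplicit false

open Finset

namespace Pool.Agent.N975.RQ

open Pool.Agent.N975.Sym (ev act ev_act)
open Pool.Agent.N969.P15 (c2)
open Pool.Agent.N969.P17G (gen starP)
open Pool.Agent.N969.RQ (Fd Un ud sgd ps)

noncomputable section

/-! ### discriminants -/

theorem fd_pos {D : ℕ} (h : Fd D) : 0 < D := by have := h.1; omega

theorem fd_cases {D : ℕ} (h : Fd D) : (Squarefree D ∧ D % 4 = 1) ∨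
    (∃ M : ℕ, D = 4 * M ∧ Squarefree M ∧ M % 4 = 3) ∨
    (∃ M : ℕ, D = 8 * M ∧ Squarefree (2 * M) ∧ M % 2 = 1) := by
  rcases h.2 with h1 | ⟨M, h1, h2, h3 | h3⟩
  · exact Or.inl h1
  · right; right
    refine ⟨M / 2, by omega, ?_, ?_⟩
    · rwa [show 2 * (M / 2) = M by omega]
    · omega
  · right; left
    exact ⟨M, h1, h2, h3⟩

theorem nsq_of {M : ℕ} (hM : Squarefree M) (h1 : 1 < M) : ¬ IsSquare (M : ℤ) := by
  rintro ⟨r, hr⟩
  have h2 : M = r.natAbs * r.natAbs := by
    have : ((r.natAbs * r.natAbs : ℕ) : ℤ) = M := by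
      rw [hr]; push_cast; rw [abs_mul_abs_self]
    exact_mod_cast this.symm
  have h3 : r.natAbs * r.natAbs ∣ M := ⟨1, by omega⟩
  have h4 := hM _ h3
  rw [Nat.isUnit_iff] at h4
  rw [h4] at h2
  omega

theorem fd_nsq {D : ℕ} (h : Fd D) : ¬ IsSquare (D : ℤ) := by
  rcases h.2 with ⟨h1, _⟩ | ⟨M, h1, h2, h3⟩
  · exact nsq_of h1 h.1
  · rintro ⟨r, hr⟩
    rw [h1] at hr
    push_cast at hr
    have he : (2 : ℤ) ∣ r := by
      have : (2 : ℤ) ∣ r * r := ⟨2 * M, by rw [← hr]; ring⟩
      rcases Int.prime_two.dvd_mul.1 this with h4 | h4 <;> exact h4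
    obtain ⟨r', rfl⟩ := he
    apply nsq_of h2 (by omega)
    exact ⟨r', by linarith⟩

/-- an odd prime divides the discriminant at most once -/
theorem fd_sq {D : ℕ} (h : Fd D) {p : ℕ} (hp : p.Prime) (hp2 : p ≠ 2) : ¬ p * p ∣ D := by
  intro h1
  rcases h.2 with ⟨h2, _⟩ | ⟨M, h2, h3, _⟩
  · have := h2 _ h1
    rw [Nat.isUnit_iff] at this
    exact hp.one_lt.ne' this
  · have h4 : p * p ∣ M := by
      rw [h2] at h1
      refine Nat.Coprime.dvd_of_dvd_mul_left ?_ h1
      have : Nat.Coprime p 4 := by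
        rw [show 4 = 2 ^ 2 by norm_num]
        exact Nat.Coprime.pow_right _ ((Nat.coprime_primes hp Nat.prime_two).2 hp2)
      exact Nat.Coprime.mul_left this this
    have := h3 _ h4
    rw [Nat.isUnit_iff] at this
    exact hp.one_lt.ne' this

theorem fd_two {D : ℕ} (h : Fd D) (h2 : 2 ∣ D) : D % 16 = 12 ∨ D % 32 = 8 ∨ D % 32 = 24 := by
  rcases fd_cases h with h1 | ⟨M, h1, _, h3⟩ | ⟨M, h1, _, h3⟩ <;> omega

theorem c2_compat {D : ℕ} (h : Fd D) (h2 : 2 ∣ D) : C2 (3 * D) D := by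
  have := fd_two h h2
  unfold C2
  omega

/-! ### characters -/

/-- a product of genus characters -/
theorem Gc.prod {ι : Type*} {D : ℤ} (S : Finset ι) {ψ : ι → ℤ × ℤ × ℤ → ℤ} {ε : ι → ℤ}
    (h : ∀ i ∈ S, Gc D (ψ i) (ε i)) : Gc D (fun q => ∏ i ∈ S, ψ i q) (∏ i ∈ S, ε i) where
  inv := by
    intro a b c d hd q hq
    exact Finset.prod_congr (by rfl) fun i hi => (h i hi).inv hd q hq
  neg := by
    intro A B C hq
    show ∏ i ∈ S, ψ i _ = _ * ∏ i ∈ S, ψ i _
    rw [← Finset.prod_mul_distrib]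
    exact Finset.prod_congr (by rfl) fun i hi => (h i hi).neg A B C hq
  rfl := by
    intro A B C hq
    exact Finset.prod_congr (by rfl) fun i hi => (h i hi).rfl A B C hq

theorem gc_gp {D : ℤ} {p : ℕ} (hp : p.Prime) (hp2 : p ≠ 2) (hD : (p : ℤ) ∣ D) :
    Gc D (PG.gp p) (jacobiSym (-1) p) where
  inv := by
    intro a b c d hd q hq
    exact PG.gp_act hp hp2 (by rw [hq]; exact hD) hd
  neg := by
    intro A' B C _
    exact PG.gp_neg p A' B C (-B)
  rfl := by
    intro A' B C _
    rfl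

/-- the factor at `2` -/
def f2 (D d : ℕ) (q : ℤ × ℤ × ℤ) : ℤ := if 2 ∣ d then g2 (3 * D) q else 1

/-- the sign at `2` -/
def s2 (D d : ℕ) : ℤ := if 2 ∣ d then c2 (3 * D) (-1) else 1

theorem gc_f2 {D d : ℕ} (h : Fd D) (hd : d ∣ D) : Gc (D : ℤ) (f2 D d) (s2 D d) := by
  by_cases h2 : 2 ∣ d
  · have e1 : f2 D d = g2 (3 * D) := funext fun q => if_pos h2
    have e2 : s2 D d = c2 (3 * D) (-1) := if_pos h2
    rw [e1, e2]
    exact gc_g2 (c2_compat h (h2.trans hd))
  · have e1 : f2 D d = fun _ => 1 := funext fun q => if_neg h2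
    have e2 : s2 D d = 1 := if_neg h2
    rw [e1, e2]
    exact Gc.one

theorem ps_eq (D d : ℕ) (q : ℤ × ℤ × ℤ) :
    ps D d q = f2 D d q * ∏ p ∈ d.primeFactors.erase 2, PG.gp p q := rfl

theorem mem_erase {d p : ℕ} (hp : p ∈ d.primeFactors.erase 2) : p.Prime ∧ p ≠ 2 ∧ p ∣ d :=
  ⟨Nat.prime_of_mem_primeFactors (Finset.mem_of_mem_erase hp), (Finset.mem_erase.1 hp).1,
    Nat.dvd_of_mem_primeFactors (Finset.mem_of_mem_erase hp)⟩

theorem jac_neg_one {p : ℕ} (hp : p % 2 = 1) :
    jacobiSym (-1) p = if p % 4 = 1 then 1 else -1 := by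
  rw [jacobiSym.at_neg_one (Nat.odd_iff.2 hp), ZMod.χ₄_nat_eq_if_mod_four, if_neg (by omega)]

theorem sign_starP (D : ℕ) {p : ℕ} (hp : p.Prime) (hp2 : p ≠ 2) :
    Int.sign (starP D p) = jacobiSym (-1) p := by
  have h1 : p % 2 = 1 := by
    rcases hp.eq_two_or_odd with h | h
    · exact absurd h hp2
    · exact h
  have h0 : (0 : ℤ) < p := by exact_mod_cast hp.pos
  rw [jac_neg_one h1]
  unfold starP
  rw [if_neg hp2]
  split_ifs
  · exact Int.sign_eq_one_of_pos h0
  · exact Int.sign_eq_neg_one_of_neg (by omega)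

theorem sign_starP_two {D : ℕ} (h : Fd D) (h2 : 2 ∣ D) :
    Int.sign (starP D 2) = c2 (3 * D) (-1) := by
  have h3 := fd_two h h2
  unfold starP c2
  rw [if_pos (by rfl)]
  rcases h3 with h3 | h3 | h3
  · rw [if_pos h3, if_neg (by norm_num), if_pos (by omega)]
    decide
  · rw [if_neg (c := D % 16 = 12) (by omega), if_pos h3, if_neg (c := (-1 : ℤ) % 2 = 0) (by norm_num),
      if_neg (c := 3 * D % 16 = 4) (by omega), if_neg (c := 3 * D % 32 = 8) (by omega)]
    decide
  · rw [if_neg (c := D % 16 = 12) (by omega), if_neg (c := D % 32 = 8) (by omega),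
      if_neg (c := (-1 : ℤ) % 2 = 0) (by norm_num),
      if_neg (c := 3 * D % 16 = 4) (by omega), if_pos (c := 3 * D % 32 = 8) (by omega)]
    decide

theorem prod_two {d : ℕ} (hd : d ≠ 0) {R : Type*} [CommMonoid R] (f : ℕ → R) :
    ∏ p ∈ d.primeFactors, f p =
      (if 2 ∣ d then f 2 else 1) * ∏ p ∈ d.primeFactors.erase 2, f p := by
  by_cases h2 : 2 ∣ d
  · rw [if_pos h2, Finset.mul_prod_erase _ _ (Nat.mem_primeFactors.2 ⟨Nat.prime_two, h2, hd⟩)]
  · rw [if_neg h2, one_mul, Finset.erase_eq_of_notMem]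
    intro h3
    exact h2 (Nat.dvd_of_mem_primeFactors h3)

theorem sgd_eq {D d : ℕ} (h : Fd D) (hd : d ∣ D) :
    sgd D d = s2 D d * ∏ p ∈ d.primeFactors.erase 2, jacobiSym (-1) p := by
  have hd0 : d ≠ 0 := fun h0 => by
    rw [h0, zero_dvd_iff] at hd
    have := fd_pos h
    omega
  unfold sgd s2
  rw [prod_two hd0]
  congr 1
  · by_cases h2 : 2 ∣ d
    · rw [if_pos h2, if_pos h2, sign_starP_two h (h2.trans hd)]
    · rw [if_neg h2, if_neg h2]
  · refine Finset.prod_congr (by rfl) fun p hp => ?_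
    obtain ⟨h1, h2, _⟩ := mem_erase hp
    exact sign_starP D h1 h2

/-- **`ps D d` is a genus character** -/
theorem gc_ps {D d : ℕ} (h : Fd D) (hd : d ∣ D) : Gc (D : ℤ) (ps D d) (sgd D d) := by
  rw [sgd_eq h hd]
  have e : ps D d = fun q => f2 D d q * ∏ p ∈ d.primeFactors.erase 2, PG.gp p q := by
    funext q
    exact ps_eq D d q
  rw [e]
  refine (gc_f2 h hd).mul (Gc.prod _ fun p hp => ?_)
  obtain ⟨h1, h2, h3⟩ := mem_erase hp
  exact gc_gp h1 h2 (by exact_mod_cast h3.trans hd)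

theorem sgd_pm {D d : ℕ} (h : Fd D) (hd : d ∣ D) : sgd D d = 1 ∨ sgd D d = -1 := by
  have hD := fd_pos h
  unfold sgd
  have key : ∀ S : Finset ℕ, (∀ p ∈ S, starP D p ≠ 0) →
      ∏ p ∈ S, Int.sign (starP D p) = 1 ∨ ∏ p ∈ S, Int.sign (starP D p) = -1 := by
    intro S
    induction S using Finset.induction_on with
    | empty => intro _; left; rfl
    | insert p S hpS ih =>
      intro hS
      rw [Finset.prod_insert hpS]
      have h1 := ih fun q hq => hS q (Finset.mem_insert_of_mem hq)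
      have h2 := hS p (Finset.mem_insert_self _ _)
      have h3 : Int.sign (starP D p) = 1 ∨ Int.sign (starP D p) = -1 := by
        rcases lt_or_gt_of_ne h2 with h3 | h3
        · exact Or.inr (Int.sign_eq_neg_one_of_neg h3)
        · exact Or.inl (Int.sign_eq_one_of_pos h3)
      rcases h3 with h3 | h3 <;> rcases h1 with h1 | h1 <;> rw [h3, h1] <;> norm_num
  refine key _ fun p hp => ?_
  have hpp := Nat.prime_of_mem_primeFactors hp
  have h0 : (0 : ℤ) < p := by exact_mod_cast hpp.pos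
  unfold starP
  split_ifs
  · norm_num
  · norm_num
  · norm_num
  · omega
  · omega

/-! ### the Kronecker symbol -/

/-- the quadratic character of the discriminant `sgd D d * d` -/
def kr (D d : ℕ) (u : ℤ) : ℤ := (if 2 ∣ d then c2 (3 * D) u else 1) *
  ∏ p ∈ d.primeFactors.erase 2, jacobiSym u p

theorem kr_mul (D d : ℕ) (u v : ℤ) : kr D d (u * v) = kr D d u * kr D d v := by
  unfold kr
  have h1 : ∏ p ∈ d.primeFactors.erase 2, jacobiSym (u * v) p =
      (∏ p ∈ d.primeFactors.erase 2, jacobiSym u p) *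
        ∏ p ∈ d.primeFactors.erase 2, jacobiSym v p := by
    rw [← Finset.prod_mul_distrib]
    exact Finset.prod_congr (by rfl) fun p _ => jacobiSym.mul_left _ _ _
  rw [h1]
  split_ifs
  · rw [Pool.Agent.N975.ChE.c2_mul]; ring
  · ring

theorem kr_neg_one {D d : ℕ} (h : Fd D) (hd : d ∣ D) : kr D d (-1) = sgd D d := by
  rw [sgd_eq h hd]
  rfl

/-- reciprocity at an odd prime -/
theorem recip_odd (D : ℕ) {p : ℕ} (hp : p.Prime) (hp2 : p ≠ 2) {u : ℕ} (hu : u % 2 = 1) :
    jacobiSym u p = jacobiSym (starP D p) u := by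
  have h1 : p % 2 = 1 := by
    rcases hp.eq_two_or_odd with h | h
    · exact absurd h hp2
    · exact h
  unfold starP
  rw [if_neg hp2]
  by_cases h4 : p % 4 = 1
  · rw [if_pos h4]
    exact (jacobiSym.quadratic_reciprocity_one_mod_four h4 (Nat.odd_iff.2 hu)).symm
  · rw [if_neg h4]
    have e : (-(p : ℤ)) = -1 * p := by ring
    rw [e, jacobiSym.mul_left, jac_neg_one hu, ← jacobiSym.quadratic_reciprocity_if hu h1]
    have h3 : p % 4 = 3 := by omega
    by_cases h5 : u % 4 = 1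
    · rw [if_pos h5, one_mul, if_neg (by omega)]
    · rw [if_neg h5, if_pos (by omega)]
      ring

/-- reciprocity at `2` -/
theorem recip_two {D : ℕ} (h : Fd D) (h2 : 2 ∣ D) {u : ℕ} (hu : u % 2 = 1) :
    c2 (3 * D) u = jacobiSym (starP D 2) u := by
  have h3 := fd_two h h2
  have hu' : Odd u := Nat.odd_iff.2 hu
  have hc : Int.gcd 2 u = 1 := by
    rw [Int.gcd_comm]
    exact_mod_cast (Nat.coprime_two_right.2 hu')
  have hsq : jacobiSym 4 u = 1 := by
    have e : (4 : ℤ) = 2 ^ 2 := by norm_num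
    rw [e, jacobiSym.sq_one' hc]
  unfold starP
  rw [if_pos (by rfl), Pool.Agent.N975.ChE.c2_eq]
  rcases h3 with h3 | h3 | h3
  · rw [if_pos h3, if_pos (by omega)]
    have e : (-4 : ℤ) = -1 * 4 := by norm_num
    rw [e, jacobiSym.mul_left, hsq, mul_one, jacobiSym.at_neg_one hu']
    norm_cast
  · rw [if_neg (c := D % 16 = 12) (by omega), if_pos h3, if_neg (by omega), if_neg (by omega)]
    have e : (8 : ℤ) = 2 * 4 := by norm_num
    rw [e, jacobiSym.mul_left, hsq, mul_one, jacobiSym.at_two hu']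
    norm_cast
  · rw [if_neg (c := D % 16 = 12) (by omega), if_neg (c := D % 32 = 8) (by omega),
      if_neg (by omega), if_pos (by omega)]
    have e : (-8 : ℤ) = -2 * 4 := by norm_num
    rw [e, jacobiSym.mul_left, hsq, mul_one, jacobiSym.at_neg_two hu']
    norm_cast

theorem jac_prod_left {ι : Type*} (S : Finset ι) (f : ι → ℤ) (u : ℕ) :
    ∏ i ∈ S, jacobiSym (f i) u = jacobiSym (∏ i ∈ S, f i) u := by
  classical
  induction S using Finset.induction_on with
  | empty => rw [Finset.prod_empty, Finset.prod_empty, jacobiSym.one_left]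
  | insert i S hi ih =>
    rw [Finset.prod_insert hi, Finset.prod_insert hi, jacobiSym.mul_left, ih]

theorem kr_prod {D d : ℕ} (h : Fd D) (hd : d ∣ D) {u : ℕ} (hu : u % 2 = 1) :
    kr D d u = jacobiSym (∏ p ∈ d.primeFactors, starP D p) u := by
  have hd0 : d ≠ 0 := fun h0 => by
    rw [h0, zero_dvd_iff] at hd
    have := fd_pos h
    omega
  rw [← jac_prod_left, prod_two hd0]
  unfold kr
  congr 1
  · by_cases h2 : 2 ∣ d
    · rw [if_pos h2, if_pos h2, recip_two h (h2.trans hd) hu]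
    · rw [if_neg h2, if_neg h2]
  · refine Finset.prod_congr (by rfl) fun p hp => ?_
    obtain ⟨h1, h2, _⟩ := mem_erase hp
    exact recip_odd D h1 h2 hu

/-- the part of a number at `p` -/
theorem abs_starP_odd (D : ℕ) {p : ℕ} (hp2 : p ≠ 2) : |starP D p| = p := by
  unfold starP
  rw [if_neg hp2]
  split_ifs
  · exact Nat.abs_cast p
  · rw [abs_neg, Nat.abs_cast]

/-- the absolute value of the prime discriminant at `2` -/
theorem abs_starP_two {D : ℕ} (h : Fd D) (h2 : 2 ∣ D) :
    (|starP D 2| = 4 ∧ D % 8 = 4) ∨ (|starP D 2| = 8 ∧ D % 16 = 8) := by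
  have h3 := fd_two h h2
  unfold starP
  rw [if_pos (by rfl)]
  rcases h3 with h3 | h3 | h3
  · left
    rw [if_pos h3]
    exact ⟨by norm_num, by omega⟩
  · right
    rw [if_neg (c := D % 16 = 12) (by omega), if_pos h3]
    exact ⟨by norm_num, by omega⟩
  · right
    rw [if_neg (c := D % 16 = 12) (by omega), if_neg (c := D % 32 = 8) (by omega)]
    exact ⟨by norm_num, by omega⟩

theorem un_cop {D d : ℕ} (h : Un D d) {p : ℕ} (hp : p.Prime) (hd : p ∣ d) : ¬ p ∣ D / d := by
  intro h2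
  have := Nat.dvd_gcd hd h2
  rw [h.2] at this
  exact hp.one_lt.ne' (Nat.dvd_one.1 this)

theorem prod_sq_odd {m : ℕ} (hm : Squarefree m) : ∏ p ∈ m.primeFactors, (p : ℤ) = m := by
  have h := congrArg (Nat.cast : ℕ → ℤ) (Nat.prod_primeFactors_of_squarefree hm)
  rwa [Nat.cast_prod] at h

/-- the product of the absolute values of the prime discriminants -/
theorem prod_abs {D d : ℕ} (h : Fd D) (hd : Un D d) :
    ∏ p ∈ d.primeFactors, |starP D p| = d := by
  have hD0 := fd_pos h
  have hd0 : d ≠ 0 := fun h0 => by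
    have := hd.1
    rw [h0, zero_dvd_iff] at this
    omega
  -- `d = e * m` with `m` odd squarefree
  obtain ⟨m, e, hdm, hodd, hsq, he⟩ : ∃ m e : ℕ, d = e * m ∧ m % 2 = 1 ∧ Squarefree m ∧
      (if 2 ∣ d then |starP D 2| else 1) = (e : ℤ) := by
    by_cases h2 : 2 ∣ d
    · rw [if_pos h2]
      have h2' := un_cop hd Nat.prime_two h2
      have hDd : D = d * (D / d) := (Nat.mul_div_cancel' hd.1).symm
      have hodd2 : (D / d) % 2 = 1 := by omega
      rcases abs_starP_two h (h2.trans hd.1) with ⟨h3, h4⟩ | ⟨h3, h4⟩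
      · have h5 : d % 8 = 4 := by
          have h6 : (d % 8) * ((D / d) % 8) % 8 = 4 := by
            rw [← Nat.mul_mod, ← hDd, h4]
          have h7 : (D / d) % 8 = 1 ∨ (D / d) % 8 = 3 ∨ (D / d) % 8 = 5 ∨ (D / d) % 8 = 7 := by
            omega
          rcases h7 with h7 | h7 | h7 | h7 <;> rw [h7] at h6 <;> omega
        refine ⟨d / 4, 4, by omega, by omega, ?_, by rw [h3]; rfl⟩
        rw [Nat.squarefree_iff_prime_squarefree]
        intro p hp hpd
        have hp2 : p ≠ 2 := by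
          rintro rfl
          have := (dvd_mul_right 2 2).trans hpd
          omega
        apply fd_sq h hp hp2
        refine (hpd.trans ?_).trans hd.1
        exact ⟨4, by omega⟩
      · have h5 : d % 16 = 8 := by
          have h6 : (d % 16) * ((D / d) % 16) % 16 = 8 := by
            rw [← Nat.mul_mod, ← hDd, h4]
          have h7 : (D / d) % 16 = 1 ∨ (D / d) % 16 = 3 ∨ (D / d) % 16 = 5 ∨ (D / d) % 16 = 7 ∨
            (D / d) % 16 = 9 ∨ (D / d) % 16 = 11 ∨ (D / d) % 16 = 13 ∨ (D / d) % 16 = 15 := by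
            omega
          rcases h7 with h7 | h7 | h7 | h7 | h7 | h7 | h7 | h7 <;> rw [h7] at h6 <;> omega
        refine ⟨d / 8, 8, by omega, by omega, ?_, by rw [h3]; rfl⟩
        rw [Nat.squarefree_iff_prime_squarefree]
        intro p hp hpd
        have hp2 : p ≠ 2 := by
          rintro rfl
          have := (dvd_mul_right 2 2).trans hpd
          omega
        apply fd_sq h hp hp2
        refine (hpd.trans ?_).trans hd.1
        exact ⟨8, by omega⟩
    · rw [if_neg h2]
      refine ⟨d, 1, (one_mul d).symm, by omega, ?_, rfl⟩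
      rw [Nat.squarefree_iff_prime_squarefree]
      intro p hp hpd
      have hp2 : p ≠ 2 := by
        rintro rfl
        exact h2 ((dvd_mul_right 2 2).trans hpd)
      exact fd_sq h hp hp2 (hpd.trans hd.1)
  have hm0 : m ≠ 0 := by omega
  rw [prod_two hd0, he]
  have h3 : d.primeFactors.erase 2 = m.primeFactors := by
    have he0 : e ≠ 0 := by
      rintro rfl
      rw [zero_mul] at hdm
      exact hd0 hdm
    have he' : ∀ p : ℕ, p.Prime → p ∣ e → p = 2 := by
      intro p hp hpe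
      by_cases h2 : 2 ∣ d
      · rw [if_pos h2] at he
        rcases abs_starP_two h (h2.trans hd.1) with ⟨h4, _⟩ | ⟨h4, _⟩
        · have h5 : e = 4 := by
            rw [h4] at he
            exact_mod_cast he.symm
          rw [h5, show 4 = 2 ^ 2 by norm_num] at hpe
          exact (Nat.prime_dvd_prime_iff_eq hp Nat.prime_two).1 (hp.dvd_of_dvd_pow hpe)
        · have h5 : e = 8 := by
            rw [h4] at he
            exact_mod_cast he.symm
          rw [h5, show 8 = 2 ^ 3 by norm_num] at hpe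
          exact (Nat.prime_dvd_prime_iff_eq hp Nat.prime_two).1 (hp.dvd_of_dvd_pow hpe)
      · rw [if_neg h2] at he
        have h5 : e = 1 := by exact_mod_cast he.symm
        rw [h5, Nat.dvd_one] at hpe
        exact absurd hpe hp.one_lt.ne'
    ext p
    rw [Finset.mem_erase, Nat.mem_primeFactors, Nat.mem_primeFactors]
    constructor
    · rintro ⟨h1, h2, h3, _⟩
      rw [hdm] at h3
      refine ⟨h2, ?_, hm0⟩
      rcases h2.dvd_mul.1 h3 with h4 | h4
      · exact absurd (he' p h2 h4) h1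
      · exact h4
    · rintro ⟨h1, h2, _⟩
      refine ⟨?_, h1, ?_, hd0⟩
      · rintro rfl
        omega
      · rw [hdm]
        exact h2.mul_left e
  rw [h3]
  have h4 : ∏ p ∈ m.primeFactors, |starP D p| = ∏ p ∈ m.primeFactors, (p : ℤ) := by
    refine Finset.prod_congr (by rfl) fun p hp => abs_starP_odd D ?_
    rintro rfl
    have := Nat.dvd_of_mem_primeFactors hp
    omega
  rw [h4, prod_sq_odd hsq, hdm]
  push_cast
  rfl

/-- the product of the prime discriminants -/
theorem prod_starP {D d : ℕ} (h : Fd D) (hd : Un D d) :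
    ∏ p ∈ d.primeFactors, starP D p = sgd D d * d := by
  rw [← prod_abs h hd]
  unfold sgd
  rw [← Finset.prod_mul_distrib]
  exact Finset.prod_congr (by rfl) fun p _ => (Int.sign_mul_abs _).symm

/-- **reciprocity** -/
theorem kr_jac {D d : ℕ} (h : Fd D) (hd : Un D d) {u : ℕ} (hu : u % 2 = 1) :
    kr D d u = jacobiSym (sgd D d * d) u := by
  rw [kr_prod h hd.1 hu, prod_starP h hd]

end

end Pool.Agent.N975.RQ
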