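import Pool.Agent.N975.RQ.C1J
import Pool.Agent.N969.RQ.Defs3

/-!
# **C1Jp**: the character sums of the crossing numbers for all auxiliary primes
-/

set_option autoImplicit false

open Finset

namespace Pool.Agent.N975.RQ

open Pool.Agent.N975.Sym (ev act ev_act)
open Pool.Agent.N969.P15 (c2 un)
open Pool.Agent.N969.P17G (gen starP)
open Pool.Agent.N969.RQ (Fd Un ud sgd ps J W Wp pw rho)
open Pool.Agent.N855.RQ (FF FS mem_FS J_eq)

noncomputable section

/-- the pairs of a cusp `u / l` and a form -/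
def Pr (N D l : ℕ) (hl0 : (0 : ℤ) < l) : Finset (Σ _ : ℕ, ℤ × ℤ × ℤ) :=
  (un l).sigma (fun u => FS N D u l hl0)

/-- the parameters `t` -/
def Tt (N D l : ℕ) : Finset ℤ := (Ioo (-((D * l : ℕ) : ℤ)) (D * l : ℕ)).filter (fun t : ℤ =>
    t ^ 2 < (D * l ^ 2 : ℕ) ∧ ((4 * N : ℕ) : ℤ) ∣ (D * l ^ 2 : ℕ) - t ^ 2)

theorem mem_Tt {N D l : ℕ} (hD : 0 < D) {t : ℤ} : t ∈ Tt N D l ↔ t ^ 2 < D * (l : ℤ) ^ 2 ∧
    ((4 * N : ℕ) : ℤ) ∣ D * (l : ℤ) ^ 2 - t ^ 2 := by
  unfold Tt
  rw [Finset.mem_filter, Finset.mem_Ioo]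
  push_cast
  constructor
  · rintro ⟨_, h⟩
    exact h
  · intro h
    refine ⟨?_, h⟩
    have h6 : t ^ 2 < ((D : ℤ) * l) ^ 2 := by
      have h7 : (1 : ℤ) ≤ D := by exact_mod_cast hD
      nlinarith [sq_nonneg (l : ℤ), h.1]
    have h5 := abs_lt_of_sq_lt_sq h6 (by positivity)
    rwa [abs_lt] at h5

theorem ST_eq (N D l : ℕ) (f : ℤ → ℕ → ℤ) : Pool.Agent.N969.RQ.ST N D l f =
    ∑ t ∈ Tt N D l, f t (((D * l ^ 2 : ℕ) : ℤ) - t ^ 2).toNat := rfl

theorem un_ndvd {l : ℕ} (hl : l.Prime) {u : ℕ} (hu : u ∈ un l) : ¬ (l : ℤ) ∣ (u : ℤ) := by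
  have hu1 := (Finset.mem_filter.1 hu)
  intro h5
  have h6 : l ∣ u := by exact_mod_cast h5
  have h7 := hu1.2
  rw [Nat.coprime_comm] at h7
  have h8 := Nat.dvd_gcd (dvd_refl l) h6
  rw [h7] at h8
  exact hl.one_lt.ne' (Nat.dvd_one.1 h8)

theorem un_of {l : ℕ} (hl : l.Prime) {u : ℤ} (h0 : 0 ≤ u) (h1 : u < l) (h2 : ¬ (l : ℤ) ∣ u) :
    u.toNat ∈ un l := by
  have hut : ((u.toNat : ℕ) : ℤ) = u := Int.toNat_of_nonneg h0
  unfold un
  rw [Finset.mem_filter, Finset.mem_range]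
  refine ⟨by omega, ?_⟩
  rw [Nat.coprime_comm, hl.coprime_iff_not_dvd]
  intro h11
  apply h2
  rw [← hut]
  exact_mod_cast h11

/-- the part `l ∤ t` -/
theorem part1 {N : ℕ} {w : ℤ → ℤ} {D d l : ℕ} {li : ℤ} (h : Fd D) (hd : Un D d)
    (hl : l.Prime) (hl2 : l ≠ 2) (hlD : ¬ l ∣ D)
    (hw : ∀ a b : ℤ, (N : ℤ) ∣ a - b → w a = w b) (hli : (N : ℤ) ∣ l * li - 1)
    (hl0 : (0 : ℤ) < l) :
    ∑ p ∈ (Pr N D l hl0).filter (fun p => ¬ (l : ℤ) ∣ p.2.1),
        jacobiSym (p.1 : ℤ) l * (w p.2.2.1 * ps D d p.2) =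
      ∑ t ∈ (Tt N D l).filter (fun t => ¬ (l : ℤ) ∣ t), w (t * li) *
        Wp N D d l t (((D * l ^ 2 : ℕ) : ℤ) - t ^ 2).toNat := by
  have hpl := Nat.prime_iff_prime_int.1 hl
  have hD0 := fd_pos h
  have hl2' : ¬ (l : ℤ) ∣ 2 := by
    intro h1
    have h2 : l ∣ 2 := by exact_mod_cast h1
    exact hl2 ((Nat.prime_dvd_prime_iff_eq hl Nat.prime_two).1 h2)
  have hR : ∑ t ∈ (Tt N D l).filter (fun t => ¬ (l : ℤ) ∣ t), w (t * li) *
        Wp N D d l t (((D * l ^ 2 : ℕ) : ℤ) - t ^ 2).toNat =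
      ∑ p ∈ (((Tt N D l).filter (fun t => ¬ (l : ℤ) ∣ t)).sigma (fun t =>
        ((((D * l ^ 2 : ℕ) : ℤ) - t ^ 2).toNat / 4).divisors.filter
        (N ∣ ·))).filter (fun p => ¬ l ∣ p.2),
        w (p.1 * li) * jacobiSym (2 * p.1) l * (jacobiSym p.2 l *
          loc D d p.2 ((((D * l ^ 2 : ℕ) : ℤ) - p.1 ^ 2).toNat / 4 / p.2)) := by
    refine Eq.symm ((Finset.sum_filter_of_ne ?_).trans ?_)
    · rintro ⟨t, a⟩ _ hne
      simp only at hne ⊢
      intro h1
      apply hne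
      rw [PG.jac_zero hl (Int.natCast_dvd_natCast.2 h1)]
      ring
    · rw [Finset.sum_sigma]
      refine Finset.sum_congr (by rfl) fun t ht => ?_
      rw [Finset.mem_filter] at ht
      unfold Wp
      rw [if_neg ht.2, W_eq, Finset.mul_sum, Finset.mul_sum]
      refine Finset.sum_congr (by rfl) fun a _ => ?_
      ring
  rw [hR]
  refine Finset.sum_bij (fun p _ => ⟨2 * p.2.1 * p.1 + p.2.2.1 * l, p.2.1.toNat⟩) ?_ ?_ ?_ ?_
  · -- well defined
    rintro ⟨u, A, B, C⟩ hp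
    rw [Finset.mem_filter, Pr, Finset.mem_sigma, mem_FS] at hp
    obtain ⟨⟨hu, h1, h2, h3, h4⟩, hla⟩ := hp
    simp only at hu h1 h2 h3 h4 hla ⊢
    have hu2 := un_ndvd hl hu
    set t : ℤ := 2 * A * u + B * l with ht
    set Y : ℤ := -(A * (u : ℤ) ^ 2 + B * u * l + C * (l : ℤ) ^ 2) with hY
    have hY0 : 0 < Y := by rw [hY]; omega
    have key : (D : ℤ) * (l : ℤ) ^ 2 - t ^ 2 = 4 * (A * Y) := by
      rw [ht, hY]
      linear_combination (-(l : ℤ) ^ 2) * h1
    have hAY : 0 < A * Y := mul_pos h3 hY0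
    have hlt : t ^ 2 < D * (l : ℤ) ^ 2 := by linarith
    have htl : ¬ (l : ℤ) ∣ t := by
      intro h5
      have h6 : (l : ℤ) ∣ 2 * A * u := by
        have e : 2 * A * (u : ℤ) = t - B * l := by rw [ht]; ring
        rw [e]
        exact h5.sub (Dvd.intro_left _ rfl)
      rcases hpl.dvd_mul.1 h6 with h7 | h7
      · rcases hpl.dvd_mul.1 h7 with h8 | h8
        · exact hl2' h8
        · exact hla h8
      · exact hu2 h7
    have hcast : (((D * l ^ 2 : ℕ) : ℤ) - t ^ 2).toNat / 4 = (A * Y).toNat := by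
      have e : ((D * l ^ 2 : ℕ) : ℤ) - t ^ 2 = 4 * (A * Y) := by push_cast; exact key
      rw [e]
      omega
    rw [Finset.mem_filter, Finset.mem_sigma, Finset.mem_filter, mem_Tt hD0]
    refine ⟨⟨⟨⟨hlt, ?_⟩, htl⟩, ?_⟩, ?_⟩
    · obtain ⟨A', hA'⟩ := h2
      refine ⟨A' * Y, ?_⟩
      push_cast
      rw [key, hA']
      ring
    · show A.toNat ∈ Finset.filter _ _
      rw [Finset.mem_filter, hcast, Nat.mem_divisors]
      refine ⟨⟨?_, ?_⟩, ?_⟩
      · have e : (A * Y).toNat = A.toNat * Y.toNat := Int.toNat_mul h3.le hY0.le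
        rw [e]
        exact dvd_mul_right _ _
      · omega
      · have e : ((A.toNat : ℕ) : ℤ) = A := Int.toNat_of_nonneg h3.le
        have : (N : ℤ) ∣ ((A.toNat : ℕ) : ℤ) := by rw [e]; exact h2
        exact_mod_cast this
    · intro h5
      apply hla
      have e : ((A.toNat : ℕ) : ℤ) = A := Int.toNat_of_nonneg h3.le
      rw [← e]
      exact_mod_cast h5
  · -- injective
    rintro ⟨u, A, B, C⟩ hp ⟨u', A', B', C'⟩ hp' heq
    rw [Finset.mem_filter, Pr, Finset.mem_sigma, mem_FS] at hp hp'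
    obtain ⟨⟨hu, h1, h2, h3, h4⟩, hla⟩ := hp
    obtain ⟨⟨hu', h1', h2', h3', h4'⟩, hla'⟩ := hp'
    simp only at hu h1 h2 h3 h4 hu' h1' h2' h3' h4' heq hla hla'
    obtain ⟨e1, e2⟩ := Sigma.mk.inj_iff.1 heq
    have e2' := eq_of_heq e2
    have hA : A = A' := by omega
    subst hA
    have h5 : (l : ℤ) ∣ 2 * A * ((u : ℤ) - u') := ⟨B' - B, by linear_combination e1⟩
    have h6 : (l : ℤ) ∣ (u : ℤ) - u' := by
      rcases hpl.dvd_mul.1 h5 with h7 | h7
      · rcases hpl.dvd_mul.1 h7 with h8 | h8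
        · exact absurd h8 hl2'
        · exact absurd h8 hla
      · exact h7
    have hu1 := Finset.mem_range.1 (Finset.mem_filter.1 hu).1
    have hu1' := Finset.mem_range.1 (Finset.mem_filter.1 hu').1
    have h7 : u = u' := by
      obtain ⟨k, hk⟩ := h6
      have hk0 : k = 0 := by
        by_contra hk0
        rcases lt_or_gt_of_ne hk0 with h8 | h8
        · have : (l : ℤ) * k ≤ -l := by nlinarith
          omega
        · have : (l : ℤ) ≤ l * k := by nlinarith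
          omega
      rw [hk0, mul_zero] at hk
      omega
    subst h7
    have h8 : B = B' := by
      have h9 : (B - B') * (l : ℤ) = 0 := by linear_combination e1
      have := (mul_eq_zero.1 h9).resolve_right hl0.ne'
      omega
    subst h8
    have h9 : C = C' := by
      have h10 : 4 * A * (C - C') = 0 := by linear_combination h1' - h1
      have h11 := (mul_eq_zero.1 h10).resolve_left (by omega)
      omega
    subst h9
    rfl
  · -- surjective
    rintro ⟨t, a⟩ hp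
    rw [Finset.mem_filter, Finset.mem_sigma, Finset.mem_filter, mem_Tt hD0] at hp
    obtain ⟨⟨⟨⟨h1, h2⟩, h4⟩, h3⟩, h5⟩ := hp
    simp only at h1 h2 h3 h4 h5
    rw [Finset.mem_filter, Nat.mem_divisors] at h3
    obtain ⟨⟨h6, h7⟩, h8⟩ := h3
    set m : ℕ := (((D * l ^ 2 : ℕ) : ℤ) - t ^ 2).toNat with hm
    have hmz : (m : ℤ) = D * (l : ℤ) ^ 2 - t ^ 2 := by
      rw [hm]
      push_cast
      omega
    have h4m : 4 ∣ m := by
      have : ((4 * N : ℕ) : ℤ) ∣ (m : ℤ) := by rw [hmz]; exact h2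
      have h9 : 4 * N ∣ m := by exact_mod_cast this
      exact (Dvd.intro _ rfl).trans h9
    obtain ⟨Y, hY⟩ := h6
    have hmY : m = 4 * (a * Y) := by omega
    have ha0 : 0 < a := by
      rcases Nat.eq_zero_or_pos a with h9 | h9
      · rw [h9, zero_mul] at hY
        exact absurd hY h7
      · exact h9
    have hY0 : 0 < Y := by
      rcases Nat.eq_zero_or_pos Y with h9 | h9
      · rw [h9, mul_zero] at hY
        exact absurd hY h7
      · exact h9
    -- the numerator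
    have hcop : IsCoprime (2 * (a : ℤ)) (l : ℤ) := by
      rw [isCoprime_comm, hpl.coprime_iff_not_dvd]
      intro h9
      rcases hpl.dvd_mul.1 h9 with h10 | h10
      · exact hl2' h10
      · exact h5 (by exact_mod_cast h10)
    obtain ⟨x, y, hxy⟩ := hcop
    set uz : ℤ := (x * t) % l with huz
    have hu0 := Int.emod_nonneg (x * t) hl0.ne'
    have hu1 := Int.emod_lt_of_pos (x * t) hl0
    have hu2 := Int.emod_add_mul_ediv (x * t) l
    have hdv : (l : ℤ) ∣ t - 2 * a * uz := by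
      refine ⟨y * t + 2 * a * (x * t / l), ?_⟩
      rw [huz]
      linear_combination (-t) * hxy - (2 * (a : ℤ)) * hu2
    obtain ⟨b, hb⟩ := hdv
    have hunl : ¬ (l : ℤ) ∣ uz := by
      intro h9
      apply h4
      have e : t = l * b + 2 * a * uz := by linear_combination hb
      rw [e]
      exact (Dvd.intro _ rfl).add (h9.mul_left _)
    -- the last coefficient
    have hD' : (D : ℤ) * (l : ℤ) ^ 2 - t ^ 2 = 4 * (a * Y) := by
      have : (m : ℤ) = 4 * (a * Y) := by rw [hmY]; push_cast; ring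
      rw [← this, hmz]
    have h9 : (4 * (a : ℤ)) ∣ (b ^ 2 - D) * (l : ℤ) ^ 2 := by
      refine ⟨-Y - t * uz + a * uz ^ 2, ?_⟩
      have e : (l : ℤ) * b = t - 2 * a * uz := hb.symm
      have e2 : (b ^ 2 - D) * (l : ℤ) ^ 2 = (l * b) ^ 2 - D * (l : ℤ) ^ 2 := by ring
      rw [e2, e]
      linear_combination -hD'
    have h10 : (4 * (a : ℤ)) ∣ b ^ 2 - D := by
      refine IsCoprime.dvd_of_dvd_mul_right ?_ h9
      refine IsCoprime.pow_right ?_
      rw [isCoprime_comm, hpl.coprime_iff_not_dvd]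
      intro h11
      rcases hpl.dvd_mul.1 h11 with h12 | h12
      · have h13 : l ∣ 4 := by exact_mod_cast h12
        have h14 : l ∣ 2 := (Nat.Prime.dvd_of_dvd_pow hl (by norm_num; exact h13 : l ∣ 2 ^ 2))
        exact hl2' (by exact_mod_cast h14)
      · exact h5 (by exact_mod_cast h12)
    obtain ⟨c, hc⟩ := h10
    refine ⟨⟨uz.toNat, ((a : ℤ), b, c)⟩, ?_, ?_⟩
    · rw [Finset.mem_filter, Pr, Finset.mem_sigma, mem_FS]
      have hut : ((uz.toNat : ℕ) : ℤ) = uz := Int.toNat_of_nonneg hu0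
      refine ⟨⟨un_of hl hu0 hu1 hunl, ?_, ?_, ?_, ?_⟩, ?_⟩
      · show b ^ 2 - 4 * (a : ℤ) * c = D
        linear_combination hc
      · show (N : ℤ) ∣ (a : ℤ)
        exact_mod_cast h8
      · show (0 : ℤ) < (a : ℤ)
        exact_mod_cast ha0
      · show (a : ℤ) * ((uz.toNat : ℕ) : ℤ) ^ 2 + b * ((uz.toNat : ℕ) : ℤ) * l + c * (l : ℤ) ^ 2 < 0
        rw [hut]
        have e : (a : ℤ) * (a * uz ^ 2 + b * uz * l + c * (l : ℤ) ^ 2) = (a : ℤ) * (-Y) := by
          have h11 : 4 * ((a : ℤ) * (a * uz ^ 2 + b * uz * l + c * (l : ℤ) ^ 2)) =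
              4 * ((a : ℤ) * (-Y)) := by
            linear_combination (-(l : ℤ) ^ 2) * hc - hD' -
              (t + 2 * a * uz + l * b) * hb
          omega
        have e2 := mul_left_cancel₀ (by exact_mod_cast ha0.ne') e
        rw [e2]
        have : (0 : ℤ) < Y := by exact_mod_cast hY0
        omega
      · show ¬ (l : ℤ) ∣ (a : ℤ)
        intro h12
        exact h5 (by exact_mod_cast h12)
    · simp only
      have hut : ((uz.toNat : ℕ) : ℤ) = uz := Int.toNat_of_nonneg hu0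
      rw [hut, Int.toNat_natCast]
      have e : 2 * (a : ℤ) * uz + b * l = t := by linear_combination -hb
      rw [e]
  · -- the terms agree
    rintro ⟨u, A, B, C⟩ hp
    rw [Finset.mem_filter, Pr, Finset.mem_sigma, mem_FS] at hp
    obtain ⟨⟨hu, h1, h2, h3, h4⟩, hla⟩ := hp
    simp only at hu h1 h2 h3 h4 hla ⊢
    set t : ℤ := 2 * A * u + B * l with ht
    set Y : ℤ := -(A * (u : ℤ) ^ 2 + B * u * l + C * (l : ℤ) ^ 2) with hY
    have hY0 : 0 < Y := by rw [hY]; omega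
    have key : (D : ℤ) * (l : ℤ) ^ 2 - t ^ 2 = 4 * (A * Y) := by
      rw [ht, hY]
      linear_combination (-(l : ℤ) ^ 2) * h1
    have hAt : ((A.toNat : ℕ) : ℤ) = A := Int.toNat_of_nonneg h3.le
    have hYt : ((Y.toNat : ℕ) : ℤ) = Y := Int.toNat_of_nonneg hY0.le
    have hcast : (((D * l ^ 2 : ℕ) : ℤ) - t ^ 2).toNat / 4 / A.toNat = Y.toNat := by
      have e : ((D * l ^ 2 : ℕ) : ℤ) - t ^ 2 = 4 * (A * Y) := by push_cast; exact key
      have e2 : (4 * (A * Y)).toNat / 4 = A.toNat * Y.toNat := by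
        rw [← Int.toNat_mul h3.le hY0.le]
        omega
      rw [e, e2, Nat.mul_div_cancel_left _ (by omega)]
    rw [hcast]
    have hps : ps D d (A, B, C) = loc D d A.toNat Y.toNat := by
      refine ps_loc h hd.1 hl hl2 hlD (q := (A, B, C)) h1 hAt u ?_
      rw [hYt, hY]
      unfold ev
      ring
    rw [← hps, hAt]
    have hww : w (t * li) = w B := by
      refine hw _ _ ?_
      obtain ⟨A', hA'⟩ := h2
      obtain ⟨k, hk⟩ := hli
      refine ⟨2 * A' * u * li + B * k, ?_⟩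
      rw [ht, hA']
      linear_combination B * hk
    have hjt : jacobiSym (2 * t) l * jacobiSym A l = jacobiSym u l := by
      rw [← jacobiSym.mul_left]
      have e : (2 * t * A) % l = (u * (2 * A) ^ 2) % l := by
        apply Int.emod_eq_emod_iff_emod_sub_eq_zero.2
        apply Int.emod_eq_zero_of_dvd
        exact ⟨2 * A * B, by rw [ht]; ring⟩
      rw [jacobiSym.mod_left' e, jacobiSym.mul_left, jacobiSym.sq_one', mul_one]
      rw [← Int.isCoprime_iff_gcd_eq_one, isCoprime_comm, hpl.coprime_iff_not_dvd]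
      intro h5
      rcases hpl.dvd_mul.1 h5 with h6 | h6
      · exact hl2' h6
      · exact hla h6
    rw [hww, ← hjt]
    ring

/-! ### the part `l ∣ t` -/

theorem pw_eq (D d a m : ℕ) : pw D d a m = loc D d a (m / a) := rfl

/-- the local factor of a form divisible by `l` at `(u, l)` -/
theorem loc_mul {D d : ℕ} (hd : d ∣ D) {l : ℕ} (hl : l.Prime) (hl2 : l ≠ 2) (hlD : ¬ l ∣ D)
    (a Y : ℕ) : loc D d (l * a) (l * Y) = kr D d l * loc D d a Y := by
  unfold loc kr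
  have h1 : (if 2 ∣ d then (if 2 ∣ l * a then c2 (3 * D) (-((l * Y : ℕ) : ℤ))
      else c2 (3 * D) ((l * a : ℕ) : ℤ)) else 1) = (if 2 ∣ d then c2 (3 * D) (l : ℤ) else 1) *
      (if 2 ∣ d then (if 2 ∣ a then c2 (3 * D) (-(Y : ℤ)) else c2 (3 * D) (a : ℤ)) else 1) := by
    by_cases h2 : 2 ∣ d
    · rw [if_pos h2, if_pos h2, if_pos h2]
      have h3 : 2 ∣ l * a ↔ 2 ∣ a := by
        rw [Nat.prime_two.dvd_mul]
        constructor
        · rintro (h | h)
          · exact absurd ((Nat.prime_dvd_prime_iff_eq Nat.prime_two hl).1 h).symm hl2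
          · exact h
        · exact Or.inr
      by_cases h4 : 2 ∣ a
      · rw [if_pos (h3.2 h4), if_pos h4, ← Pool.Agent.N975.ChE.c2_mul]
        congr 1
        push_cast
        ring
      · rw [if_neg (fun h => h4 (h3.1 h)), if_neg h4, ← Pool.Agent.N975.ChE.c2_mul]
        congr 1
    · rw [if_neg h2, if_neg h2, if_neg h2, one_mul]
  have h5 : ∏ p ∈ d.primeFactors.erase 2, (if p ∣ l * a then jacobiSym (-((l * Y : ℕ) : ℤ)) p
      else jacobiSym ((l * a : ℕ) : ℤ) p) = (∏ p ∈ d.primeFactors.erase 2, jacobiSym l p) *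
      ∏ p ∈ d.primeFactors.erase 2, if p ∣ a then jacobiSym (-(Y : ℤ)) p else jacobiSym a p := by
    rw [← Finset.prod_mul_distrib]
    refine Finset.prod_congr (by rfl) fun p hp => ?_
    obtain ⟨hp1, hp2, hp3⟩ := mem_erase hp
    have h3 : p ∣ l * a ↔ p ∣ a := by
      rw [hp1.dvd_mul]
      constructor
      · rintro (h | h)
        · have h4 := (Nat.prime_dvd_prime_iff_eq hp1 hl).1 h
          rw [h4] at hp3
          exact absurd (hp3.trans hd) hlD
        · exact h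
      · exact Or.inr
    by_cases h4 : p ∣ a
    · rw [if_pos (h3.2 h4), if_pos h4, ← jacobiSym.mul_left]
      congr 1
      push_cast
      ring
    · rw [if_neg (fun h => h4 (h3.1 h)), if_neg h4, ← jacobiSym.mul_left]
      congr 1
  rw [h1, h5]
  ring

/-- the part `l ∣ t` -/
theorem part2 {N : ℕ} {w : ℤ → ℤ} {D d l : ℕ} {li : ℤ} (h : Fd D) (hd : Un D d)
    (hsg : sgd D d = 1) (hl : l.Prime) (hl2 : l ≠ 2) (hlN : ¬ l ∣ N) (hlD : ¬ l ∣ D)
    (hw : ∀ a b : ℤ, (N : ℤ) ∣ a - b → w a = w b) (hli : (N : ℤ) ∣ l * li - 1)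
    (hl0 : (0 : ℤ) < l) :
    ∑ p ∈ (Pr N D l hl0).filter (fun p => (l : ℤ) ∣ p.2.1),
        jacobiSym (p.1 : ℤ) l * (w p.2.2.1 * ps D d p.2) =
      ∑ t ∈ (Tt N D l).filter (fun t => (l : ℤ) ∣ t), w (t * li) *
        Wp N D d l t (((D * l ^ 2 : ℕ) : ℤ) - t ^ 2).toNat := by
  have hpl := Nat.prime_iff_prime_int.1 hl
  have hD0 := fd_pos h
  have hlo : l % 2 = 1 := by
    rcases hl.eq_two_or_odd with h | h
    · exact absurd h hl2
    · exact h
  have hkr : kr D d l = jacobiSym d l := by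
    rw [kr_jac h hd hlo, hsg, one_mul]
  have hl2pos : (0 : ℤ) < (l : ℤ) ^ 2 := by positivity
  have hR : ∑ t ∈ (Tt N D l).filter (fun t => (l : ℤ) ∣ t), w (t * li) *
        Wp N D d l t (((D * l ^ 2 : ℕ) : ℤ) - t ^ 2).toNat =
      ∑ p ∈ ((Tt N D l).filter (fun t => (l : ℤ) ∣ t)).sigma (fun t =>
        (((((D * l ^ 2 : ℕ) : ℤ) - t ^ 2).toNat / (4 * l ^ 2)).divisors.filter (N ∣ ·)).sigma
          (fun a => (un l).filter (fun u : ℕ => (l : ℤ) ∣ (a : ℤ) * u ^ 2 - (t / l) * u -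
            ((((D * l ^ 2 : ℕ) : ℤ) - t ^ 2).toNat / (4 * l ^ 2) / a : ℕ)))),
        w (p.1 * li) * (kr D d l * (loc D d p.2.1
          ((((D * l ^ 2 : ℕ) : ℤ) - p.1 ^ 2).toNat / (4 * l ^ 2) / p.2.1) *
            jacobiSym p.2.2 l)) := by
    rw [Finset.sum_sigma]
    refine Finset.sum_congr (by rfl) fun t ht => ?_
    rw [Finset.mem_filter] at ht
    unfold Wp
    rw [if_pos ht.2, Finset.sum_sigma, ← hkr, Finset.mul_sum, Finset.mul_sum]
    refine Finset.sum_congr (by rfl) fun a _ => ?_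
    unfold rho
    rw [pw_eq, Finset.mul_sum, Finset.mul_sum, Finset.mul_sum]
  rw [hR]
  refine Finset.sum_bij (fun p _ => ⟨2 * p.2.1 * p.1 + p.2.2.1 * l, ⟨(p.2.1 / l).toNat, p.1⟩⟩)
    ?_ ?_ ?_ ?_
  · -- well defined
    rintro ⟨u, A, B, C⟩ hp
    rw [Finset.mem_filter, Pr, Finset.mem_sigma, mem_FS] at hp
    obtain ⟨⟨hu, h1, h2, h3, h4⟩, hla⟩ := hp
    simp only at hu h1 h2 h3 h4 hla ⊢
    obtain ⟨A1, rfl⟩ := hla
    have hA1 : 0 < A1 := by
      by_contra h5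
      have : (l : ℤ) * A1 ≤ 0 := mul_nonpos_of_nonneg_of_nonpos hl0.le (not_lt.1 h5)
      omega
    have hN1 : (N : ℤ) ∣ A1 := by
      refine IsCoprime.dvd_of_dvd_mul_left ?_ h2
      rw [isCoprime_comm, hpl.coprime_iff_not_dvd]
      intro h5
      exact hlN (by exact_mod_cast h5)
    set Y : ℤ := -(A1 * (u : ℤ) ^ 2 + B * u + C * (l : ℤ)) with hY
    have hY0 : 0 < Y := by
      have e : (l : ℤ) * A1 * (u : ℤ) ^ 2 + B * u * l + C * (l : ℤ) ^ 2 = -(l * Y) := by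
        rw [hY]; ring
      rw [e] at h4
      have h5 : 0 < (l : ℤ) * Y := by omega
      exact (mul_pos_iff_of_pos_left hl0).1 h5
    set t : ℤ := 2 * (l * A1) * u + B * l with ht
    have key : (D : ℤ) * (l : ℤ) ^ 2 - t ^ 2 = 4 * (l : ℤ) ^ 2 * (A1 * Y) := by
      rw [ht, hY]
      linear_combination (-(l : ℤ) ^ 2) * h1
    have hAY : 0 < A1 * Y := mul_pos hA1 hY0
    have htl : t = l * (2 * A1 * u + B) := by rw [ht]; ring
    have hcast : (((D * l ^ 2 : ℕ) : ℤ) - t ^ 2).toNat / (4 * l ^ 2) = (A1 * Y).toNat := by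
      have e : ((D * l ^ 2 : ℕ) : ℤ) - t ^ 2 = 4 * (l : ℤ) ^ 2 * (A1 * Y) := by
        push_cast; exact key
      have e2 : (4 * (l : ℤ) ^ 2 * (A1 * Y)).toNat = 4 * l ^ 2 * (A1 * Y).toNat := by
        rw [Int.toNat_mul (by positivity) hAY.le]
        congr 1
      rw [e, e2, Nat.mul_div_cancel_left _ (Nat.mul_pos (by norm_num) (Nat.pow_pos hl.pos))]
    have hdiv : (l : ℤ) * A1 / l = A1 := Int.mul_ediv_cancel_left _ hl0.ne'
    have hdt : t / l = 2 * A1 * u + B := by rw [htl]; exact Int.mul_ediv_cancel_left _ hl0.ne'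
    have hAt : ((A1.toNat : ℕ) : ℤ) = A1 := Int.toNat_of_nonneg hA1.le
    have hYt : ((Y.toNat : ℕ) : ℤ) = Y := Int.toNat_of_nonneg hY0.le
    have e3 : (A1 * Y).toNat = A1.toNat * Y.toNat := Int.toNat_mul hA1.le hY0.le
    rw [hdiv, Finset.mem_sigma, Finset.mem_filter, mem_Tt hD0, Finset.mem_sigma,
      Finset.mem_filter, Finset.mem_filter]
    simp only
    refine ⟨⟨⟨?_, ?_⟩, ⟨_, htl⟩⟩, ⟨?_, ?_⟩, hu, ?_⟩
    · have : 0 < 4 * (l : ℤ) ^ 2 * (A1 * Y) := by positivity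
      linarith
    · rw [key]
      obtain ⟨A', hA'⟩ := hN1
      exact ⟨(l : ℤ) ^ 2 * A' * Y, by rw [hA']; push_cast; ring⟩
    · rw [hcast, Nat.mem_divisors, e3]
      refine ⟨dvd_mul_right _ _, ?_⟩
      have := Nat.mul_pos (by omega : 0 < A1.toNat) (by omega : 0 < Y.toNat)
      omega
    · have : (N : ℤ) ∣ ((A1.toNat : ℕ) : ℤ) := by rw [hAt]; exact hN1
      exact_mod_cast this
    · rw [hcast, e3, Nat.mul_div_cancel_left _ (by omega), hAt, hYt, hdt]
      exact ⟨C, by rw [hY]; ring⟩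
  · -- injective
    rintro ⟨u, A, B, C⟩ hp ⟨u', A', B', C'⟩ hp' heq
    rw [Finset.mem_filter, Pr, Finset.mem_sigma, mem_FS] at hp hp'
    obtain ⟨⟨hu, h1, h2, h3, h4⟩, hla⟩ := hp
    obtain ⟨⟨hu', h1', h2', h3', h4'⟩, hla'⟩ := hp'
    simp only at hu h1 h2 h3 h4 hu' h1' h2' h3' h4' heq hla hla'
    obtain ⟨e1, e2⟩ := Sigma.mk.inj_iff.1 heq
    have e2' := eq_of_heq e2
    obtain ⟨e3, e4⟩ := Sigma.mk.inj_iff.1 e2'
    have e4' := eq_of_heq e4
    subst e4'
    obtain ⟨A1, rfl⟩ := hla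
    obtain ⟨A1', rfl⟩ := hla'
    have hA1 : 0 < A1 := by
      by_contra h5
      have : (l : ℤ) * A1 ≤ 0 := mul_nonpos_of_nonneg_of_nonpos hl0.le (not_lt.1 h5)
      omega
    have hA1' : 0 < A1' := by
      by_contra h5
      have : (l : ℤ) * A1' ≤ 0 := mul_nonpos_of_nonneg_of_nonpos hl0.le (not_lt.1 h5)
      omega
    rw [Int.mul_ediv_cancel_left _ hl0.ne', Int.mul_ediv_cancel_left _ hl0.ne'] at e3
    have hA : A1 = A1' := by omega
    subst hA
    have h8 : B = B' := by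
      have h9 : (B - B') * (l : ℤ) = 0 := by linear_combination e1
      have := (mul_eq_zero.1 h9).resolve_right hl0.ne'
      omega
    subst h8
    have h9 : C = C' := by
      have h10 : 4 * ((l : ℤ) * A1) * (C - C') = 0 := by linear_combination h1' - h1
      have h11 := (mul_eq_zero.1 h10).resolve_left (by positivity)
      omega
    subst h9
    rfl
  · -- surjective
    rintro ⟨t, a, u⟩ hp
    rw [Finset.mem_sigma, Finset.mem_filter, mem_Tt hD0, Finset.mem_sigma, Finset.mem_filter,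
      Finset.mem_filter, Nat.mem_divisors] at hp
    simp only at hp
    obtain ⟨⟨⟨h1, h2⟩, t', ht'⟩, ⟨⟨⟨Y, hY⟩, h7⟩, h8⟩, hu, hr⟩ := hp
    subst ht'
    set m : ℕ := (((D * l ^ 2 : ℕ) : ℤ) - ((l : ℤ) * t') ^ 2).toNat with hm
    have hmz : (m : ℤ) = D * (l : ℤ) ^ 2 - ((l : ℤ) * t') ^ 2 := by
      rw [hm]
      push_cast
      omega
    have h4m : 4 * l ^ 2 ∣ m := by
      have h9 : ((4 * N : ℕ) : ℤ) ∣ (m : ℤ) := by rw [hmz]; exact h2
      have h10 : 4 ∣ m := (Dvd.intro _ rfl).trans (by exact_mod_cast h9 : 4 * N ∣ m)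
      have h11 : l ^ 2 ∣ m := by
        have : ((l ^ 2 : ℕ) : ℤ) ∣ (m : ℤ) := by
          rw [hmz]
          exact ⟨D - t' ^ 2, by push_cast; ring⟩
        exact_mod_cast this
      refine Nat.Coprime.mul_dvd_of_dvd_of_dvd ?_ h10 h11
      have : Nat.Coprime 2 l := (Nat.coprime_primes Nat.prime_two hl).2 (Ne.symm hl2)
      rw [show 4 = 2 ^ 2 by norm_num]
      exact Nat.Coprime.pow _ _ this
    have hmY : m = 4 * l ^ 2 * (a * Y) := by rw [← hY]; exact (Nat.mul_div_cancel' h4m).symm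
    have ha0 : 0 < a := by
      rcases Nat.eq_zero_or_pos a with h9 | h9
      · rw [h9, zero_mul] at hY
        exact absurd hY h7
      · exact h9
    have hY0 : 0 < Y := by
      rcases Nat.eq_zero_or_pos Y with h9 | h9
      · rw [h9, mul_zero] at hY
        exact absurd hY h7
      · exact h9
    rw [hY, Nat.mul_div_cancel_left _ ha0, Int.mul_ediv_cancel_left _ hl0.ne'] at hr
    obtain ⟨c, hc⟩ := hr
    have hDt : (D : ℤ) - t' ^ 2 = 4 * (a * Y) := by
      have h9 : (l : ℤ) ^ 2 * ((D : ℤ) - t' ^ 2) = (l : ℤ) ^ 2 * (4 * (a * Y)) := by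
        have h10 : (m : ℤ) = 4 * (l : ℤ) ^ 2 * (a * Y) := by rw [hmY]; push_cast; ring
        rw [hmz] at h10
        linear_combination h10
      exact mul_left_cancel₀ hl2pos.ne' h9
    refine ⟨⟨u, ((l : ℤ) * a, t' - 2 * a * u, c)⟩, ?_, ?_⟩
    · rw [Finset.mem_filter, Pr, Finset.mem_sigma, mem_FS]
      refine ⟨⟨hu, ?_, ?_, ?_, ?_⟩, ?_⟩
      · show (t' - 2 * (a : ℤ) * u) ^ 2 - 4 * ((l : ℤ) * a) * c = D
        linear_combination (4 * (a : ℤ)) * hc - hDt
      · show (N : ℤ) ∣ (l : ℤ) * a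
        exact (Int.natCast_dvd_natCast.2 h8).mul_left _
      · show (0 : ℤ) < (l : ℤ) * a
        exact mul_pos hl0 (by exact_mod_cast ha0)
      · show (l : ℤ) * a * (u : ℤ) ^ 2 + (t' - 2 * a * u) * u * l + c * (l : ℤ) ^ 2 < 0
        have e : (l : ℤ) * a * (u : ℤ) ^ 2 + (t' - 2 * a * u) * u * l + c * (l : ℤ) ^ 2 =
            -(l * Y) := by linear_combination (-(l : ℤ)) * hc
        rw [e]
        have : 0 < (l : ℤ) * Y := mul_pos hl0 (by exact_mod_cast hY0)
        omega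
      · exact ⟨a, rfl⟩
    · simp only
      rw [Int.mul_ediv_cancel_left _ hl0.ne', Int.toNat_natCast]
      have e : 2 * ((l : ℤ) * a) * u + (t' - 2 * a * u) * l = l * t' := by ring
      rw [e]
  · -- the terms agree
    rintro ⟨u, A, B, C⟩ hp
    rw [Finset.mem_filter, Pr, Finset.mem_sigma, mem_FS] at hp
    obtain ⟨⟨hu, h1, h2, h3, h4⟩, hla⟩ := hp
    simp only at hu h1 h2 h3 h4 hla ⊢
    obtain ⟨A1, rfl⟩ := hla
    have hA1 : 0 < A1 := by
      by_contra h5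
      have : (l : ℤ) * A1 ≤ 0 := mul_nonpos_of_nonneg_of_nonpos hl0.le (not_lt.1 h5)
      omega
    have hN1 : (N : ℤ) ∣ A1 := by
      refine IsCoprime.dvd_of_dvd_mul_left ?_ h2
      rw [isCoprime_comm, hpl.coprime_iff_not_dvd]
      intro h5
      exact hlN (by exact_mod_cast h5)
    set Y : ℤ := -(A1 * (u : ℤ) ^ 2 + B * u + C * (l : ℤ)) with hY
    have hY0 : 0 < Y := by
      have e : (l : ℤ) * A1 * (u : ℤ) ^ 2 + B * u * l + C * (l : ℤ) ^ 2 = -(l * Y) := by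
        rw [hY]; ring
      rw [e] at h4
      have h5 : 0 < (l : ℤ) * Y := by omega
      exact (mul_pos_iff_of_pos_left hl0).1 h5
    set t : ℤ := 2 * (l * A1) * u + B * l with ht
    have key : (D : ℤ) * (l : ℤ) ^ 2 - t ^ 2 = 4 * (l : ℤ) ^ 2 * (A1 * Y) := by
      rw [ht, hY]
      linear_combination (-(l : ℤ) ^ 2) * h1
    have hAY : 0 < A1 * Y := mul_pos hA1 hY0
    have hcast : (((D * l ^ 2 : ℕ) : ℤ) - t ^ 2).toNat / (4 * l ^ 2) = (A1 * Y).toNat := by
      have e : ((D * l ^ 2 : ℕ) : ℤ) - t ^ 2 = 4 * (l : ℤ) ^ 2 * (A1 * Y) := by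
        push_cast; exact key
      have e2 : (4 * (l : ℤ) ^ 2 * (A1 * Y)).toNat = 4 * l ^ 2 * (A1 * Y).toNat := by
        rw [Int.toNat_mul (by positivity) hAY.le]
        congr 1
      rw [e, e2, Nat.mul_div_cancel_left _ (Nat.mul_pos (by norm_num) (Nat.pow_pos hl.pos))]
    have hAt : ((A1.toNat : ℕ) : ℤ) = A1 := Int.toNat_of_nonneg hA1.le
    have hYt : ((Y.toNat : ℕ) : ℤ) = Y := Int.toNat_of_nonneg hY0.le
    have e3 : (A1 * Y).toNat = A1.toNat * Y.toNat := Int.toNat_mul hA1.le hY0.le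
    rw [Int.mul_ediv_cancel_left _ hl0.ne', hcast, e3, Nat.mul_div_cancel_left _ (by omega)]
    have hps : ps D d ((l : ℤ) * A1, B, C) = kr D d l * loc D d A1.toNat Y.toNat := by
      rw [← loc_mul hd.1 hl hl2 hlD]
      refine ps_loc h hd.1 hl hl2 hlD (q := ((l : ℤ) * A1, B, C)) h1 ?_ u ?_
      · push_cast
        rw [hAt]
      · push_cast
        rw [hYt, hY]
        unfold ev
        ring
    rw [hps]
    have hww : w (t * li) = w B := by
      refine hw _ _ ?_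
      obtain ⟨A', hA'⟩ := hN1
      obtain ⟨k, hk⟩ := hli
      refine ⟨2 * l * A' * u * li + B * k, ?_⟩
      rw [ht, hA']
      linear_combination B * hk
    rw [hww]
    ring

/-- **C1Jp** -/
theorem t_C1Jp : Pool.Agent.N969.RQ.S_C1Jp := by
  intro N w D d l li hN h hd hsg hl hl2 hlN hlD hw hli
  have hl0 : (0 : ℤ) < l := by exact_mod_cast hl.pos
  have hL : ∑ u ∈ un l, jacobiSym u l * J N w D d u l =
      ∑ p ∈ Pr N D l hl0, jacobiSym (p.1 : ℤ) l * (w p.2.2.1 * ps D d p.2) := by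
    unfold Pr
    rw [Finset.sum_sigma]
    refine Finset.sum_congr (by rfl) fun u _ => ?_
    rw [J_eq N w D d u l hl0, Finset.mul_sum]
  rw [hL, ← Finset.sum_filter_add_sum_filter_not _ (fun p => (l : ℤ) ∣ p.2.1),
    part2 h hd hsg hl hl2 hlN hlD hw hli hl0, part1 h hd hl hl2 hlD hw hli hl0,
    Finset.sum_filter_add_sum_filter_not, ST_eq]

end

end Pool.Agent.N975.RQ
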