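import Pool.Agent.N975.RQ.Ps

/-!
# The product formula for genus characters: **SW**
-/

set_option autoImplicit false

open Finset

namespace Pool.Agent.N975.RQ

open Pool.Agent.N975.Sym (ev act ev_act)
open Pool.Agent.N969.P15 (c2)
open Pool.Agent.N969.P17G (gen starP)
open Pool.Agent.N969.RQ (Fd Un ud sgd ps J)

noncomputable section

theorem cop_of {n M : ℤ} (h : ∀ p : ℕ, p.Prime → (p : ℤ) ∣ M → ¬ (p : ℤ) ∣ n) :
    IsCoprime n M := by
  rw [Int.isCoprime_iff_gcd_eq_one]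
  by_contra hne
  obtain ⟨p, hp, hpd⟩ := Nat.exists_prime_and_dvd hne
  exact h p hp ((Int.natCast_dvd_natCast.2 hpd).trans (Int.gcd_dvd_right _ _))
    ((Int.natCast_dvd_natCast.2 hpd).trans (Int.gcd_dvd_left _ _))

theorem not_dvd_of_cop {n M : ℤ} (h : IsCoprime n M) {p : ℕ} (hp : p.Prime)
    (hpM : (p : ℤ) ∣ M) : ¬ (p : ℤ) ∣ n := by
  intro hpn
  have h1 := h.isUnit_of_dvd' hpn hpM
  exact (Nat.prime_iff_prime_int.1 hp).not_unit h1

/-- forms of fundamental discriminant are primitive -/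
theorem prim_form {D : ℕ} (h : Fd D) {q : ℤ × ℤ × ℤ}
    (hq : q.2.1 ^ 2 - 4 * q.1 * q.2.2 = D) {p : ℕ} (hp : p.Prime) (hpD : (p : ℤ) ∣ 2 * D)
    (ha : (p : ℤ) ∣ q.1) (hc : (p : ℤ) ∣ q.2.2) : ¬ (p : ℤ) ∣ q.2.1 := by
  intro hb
  by_cases hp2 : p = 2
  · subst hp2
    by_cases h2 : 2 ∣ D
    · rcases odd_coef (c2_compat h h2) hq with h1 | h1
      · exact h1 (by exact_mod_cast ha)
      · exact h1 (by exact_mod_cast hc)
    · obtain ⟨b, hb⟩ := hb
      apply h2
      have h3 : (2 : ℤ) ∣ D := by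
        rw [← hq, hb]
        exact ⟨2 * b ^ 2 - 2 * q.1 * q.2.2, by push_cast; ring⟩
      exact_mod_cast h3
  · obtain ⟨a', ha'⟩ := ha
    obtain ⟨b', hb'⟩ := hb
    obtain ⟨c', hc'⟩ := hc
    apply fd_sq h hp hp2
    have h3 : ((p * p : ℕ) : ℤ) ∣ D := by
      rw [← hq, ha', hb', hc']
      exact ⟨b' ^ 2 - 4 * a' * c', by push_cast; ring⟩
    exact_mod_cast h3

/-- a form properly represents a number prime to `2 D` -/
theorem exists_rep {D : ℕ} (h : Fd D) {q : ℤ × ℤ × ℤ}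
    (hq : q.2.1 ^ 2 - 4 * q.1 * q.2.2 = D) :
    ∃ x y : ℤ, IsCoprime x y ∧ IsCoprime (ev q x y) (2 * D) := by
  classical
  have hD := fd_pos h
  set S := (2 * D).primeFactors with hS
  set x : ℤ := ∏ p ∈ S.filter (fun p : ℕ => (p : ℤ) ∣ q.1 ∧ ¬ (p : ℤ) ∣ q.2.2), (p : ℤ) with hx
  set y : ℤ := ∏ p ∈ S.filter (fun p : ℕ => ¬ (p : ℤ) ∣ q.1), (p : ℤ) with hy
  have hprime : ∀ p ∈ S, p.Prime := fun p hp => Nat.prime_of_mem_primeFactors hp
  have dx : ∀ p : ℕ, p.Prime → ((p : ℤ) ∣ x ↔ p ∈ S ∧ (p : ℤ) ∣ q.1 ∧ ¬ (p : ℤ) ∣ q.2.2) := by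
    intro p hp
    constructor
    · intro hpx
      obtain ⟨p', hp', hdvd⟩ := (Prime.dvd_finset_prod_iff (Nat.prime_iff_prime_int.1 hp) _).1 hpx
      rw [Finset.mem_filter] at hp'
      have h1 : p ∣ p' := by exact_mod_cast hdvd
      have h2 : p = p' := (Nat.prime_dvd_prime_iff_eq hp (hprime p' hp'.1)).1 h1
      subst h2
      exact ⟨hp'.1, hp'.2⟩
    · rintro ⟨h1, h2⟩
      exact Finset.dvd_prod_of_mem _ (Finset.mem_filter.2 ⟨h1, h2⟩)
  have dy : ∀ p : ℕ, p.Prime → ((p : ℤ) ∣ y ↔ p ∈ S ∧ ¬ (p : ℤ) ∣ q.1) := by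
    intro p hp
    constructor
    · intro hpx
      obtain ⟨p', hp', hdvd⟩ := (Prime.dvd_finset_prod_iff (Nat.prime_iff_prime_int.1 hp) _).1 hpx
      rw [Finset.mem_filter] at hp'
      have h1 : p ∣ p' := by exact_mod_cast hdvd
      have h2 : p = p' := (Nat.prime_dvd_prime_iff_eq hp (hprime p' hp'.1)).1 h1
      subst h2
      exact ⟨hp'.1, hp'.2⟩
    · rintro ⟨h1, h2⟩
      exact Finset.dvd_prod_of_mem _ (Finset.mem_filter.2 ⟨h1, h2⟩)
  refine ⟨x, y, cop_of fun p hp hpy hpx => ?_, cop_of fun p hp hpD => ?_⟩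
  · exact ((dy p hp).1 hpy).2 ((dx p hp).1 hpx).2.1
  · have hpS : p ∈ S := by
      rw [hS, Nat.mem_primeFactors]
      exact ⟨hp, by exact_mod_cast hpD, by omega⟩
    have hpp := Nat.prime_iff_prime_int.1 hp
    have hnx := dx p hp
    have hny := dy p hp
    unfold ev
    by_cases ha : (p : ℤ) ∣ q.1
    · have hpy : ¬ (p : ℤ) ∣ y := fun h1 => ((hny.1 h1).2) ha
      by_cases hc : (p : ℤ) ∣ q.2.2
      · have hpx : ¬ (p : ℤ) ∣ x := fun h1 => ((hnx.1 h1).2.2) hc
        have hb := prim_form h hq hp hpD ha hc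
        intro h1
        have h2 : (p : ℤ) ∣ q.2.1 * x * y := by
          have h3 : (p : ℤ) ∣ q.1 * x ^ 2 + q.2.2 * y ^ 2 :=
            (ha.mul_right _).add (hc.mul_right _)
          have h4 : q.2.1 * x * y = (q.1 * x ^ 2 + q.2.1 * x * y + q.2.2 * y ^ 2) -
            (q.1 * x ^ 2 + q.2.2 * y ^ 2) := by ring
          rw [h4]
          exact h1.sub h3
        rcases hpp.dvd_mul.1 h2 with h3 | h3
        · rcases hpp.dvd_mul.1 h3 with h4 | h4
          · exact hb h4
          · exact hpx h4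
        · exact hpy h3
      · have hpx : (p : ℤ) ∣ x := hnx.2 ⟨hpS, ha, hc⟩
        intro h1
        have h2 : (p : ℤ) ∣ q.2.2 * y ^ 2 := by
          have h3 : (p : ℤ) ∣ x * (q.1 * x + q.2.1 * y) := hpx.mul_right _
          have h4 : q.2.2 * y ^ 2 = (q.1 * x ^ 2 + q.2.1 * x * y + q.2.2 * y ^ 2) -
            x * (q.1 * x + q.2.1 * y) := by ring
          rw [h4]
          exact h1.sub h3
        rcases hpp.dvd_mul.1 h2 with h3 | h3
        · exact hc h3
        · exact hpy (hpp.dvd_of_dvd_pow h3)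
    · have hpy : (p : ℤ) ∣ y := hny.2 ⟨hpS, ha⟩
      have hpx : ¬ (p : ℤ) ∣ x := fun h1 => ha (hnx.1 h1).2.1
      intro h1
      have h2 : (p : ℤ) ∣ q.1 * x ^ 2 := by
        have h3 : (p : ℤ) ∣ y * (q.2.1 * x + q.2.2 * y) := hpy.mul_right _
        have h4 : q.1 * x ^ 2 = (q.1 * x ^ 2 + q.2.1 * x * y + q.2.2 * y ^ 2) -
          y * (q.2.1 * x + q.2.2 * y) := by ring
        rw [h4]
        exact h1.sub h3
      rcases hpp.dvd_mul.1 h2 with h3 | h3
      · exact ha h3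
      · exact hpx (hpp.dvd_of_dvd_pow h3)

/-- the sign of a fundamental discriminant -/
theorem sgd_self {D : ℕ} (h : Fd D) : sgd D D = 1 := by
  have hD := fd_pos h
  have hun : Un D D := ⟨dvd_rfl, by rw [Nat.div_self hD]; exact Nat.coprime_one_right D⟩
  have h1 := prod_starP h hun
  rw [prod_two hD.ne'] at h1
  have h2 : ∀ S : Finset ℕ, (∀ p ∈ S, p % 2 = 1) → (∏ p ∈ S, starP D p) % 4 = 1 := by
    intro S
    induction S using Finset.induction_on with
    | empty => intro _; rfl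
    | insert p S hpS ih =>
      intro hS
      rw [Finset.prod_insert hpS, Int.mul_emod, ih fun q hq => hS q (Finset.mem_insert_of_mem hq)]
      have h3 := hS p (Finset.mem_insert_self _ _)
      have h4 : starP D p % 4 = 1 := by
        unfold starP
        rw [if_neg (by omega)]
        split_ifs <;> omega
      rw [h4]
      norm_num
  have h3 : (∏ p ∈ D.primeFactors.erase 2, starP D p) % 4 = 1 := by
    refine h2 _ fun p hp => ?_
    obtain ⟨hp1, hp2, _⟩ := mem_erase hp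
    rcases hp1.eq_two_or_odd with h | h
    · exact absurd h hp2
    · exact h
  set r := ∏ p ∈ D.primeFactors.erase 2, starP D p with hr
  rcases sgd_pm h (dvd_refl D) with h4 | h4
  · exact h4
  · exfalso
    rw [h4] at h1
    by_cases h5 : 2 ∣ D
    · rw [if_pos h5] at h1
      unfold starP at h1
      rw [if_pos (by rfl)] at h1
      rcases fd_two h h5 with h6 | h6 | h6
      · rw [if_pos h6] at h1
        omega
      · rw [if_neg (c := D % 16 = 12) (by omega), if_pos h6] at h1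
        omega
      · rw [if_neg (c := D % 16 = 12) (by omega), if_neg (c := D % 32 = 8) (by omega)] at h1
        omega
    · rw [if_neg h5] at h1
      have h6 : D % 4 = 1 := by
        rcases fd_cases h with h6 | ⟨M, h6, _⟩ | ⟨M, h6, _⟩
        · exact h6.2
        · omega
        · omega
      omega

theorem un_self {D : ℕ} (h : Fd D) : Un D D :=
  ⟨dvd_rfl, by rw [Nat.div_self (fd_pos h)]; exact Nat.coprime_one_right D⟩

/-- the value at a form with leading coefficient prime to `2 D` -/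
theorem ps_lead {D d : ℕ} (hd : d ∣ D) {q : ℤ × ℤ × ℤ} (hc : IsCoprime q.1 (2 * D)) :
    ps D d q = kr D d q.1 := by
  rw [ps_eq]
  unfold kr f2 g2
  congr 1
  · by_cases h2 : 2 ∣ d
    · rw [if_pos h2, if_pos h2, if_neg]
      exact_mod_cast not_dvd_of_cop hc Nat.prime_two (by exact_mod_cast dvd_mul_right (2 : ℤ) D)
    · rw [if_neg h2, if_neg h2]
  · refine Finset.prod_congr (by rfl) fun p hp => ?_
    obtain ⟨h1, h2, h3⟩ := mem_erase hp
    unfold PG.gp
    rw [if_neg]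
    refine not_dvd_of_cop hc h1 ?_
    exact (Int.natCast_dvd_natCast.2 (h3.trans hd)).mul_left 2

/-- the value at a number properly represented by a form -/
theorem kr_self {D : ℕ} (h : Fd D) {q : ℤ × ℤ × ℤ} (hq : q.2.1 ^ 2 - 4 * q.1 * q.2.2 = D)
    (hc : IsCoprime q.1 (2 * D)) : kr D D q.1 = 1 := by
  have h2 : ¬ (2 : ℤ) ∣ q.1 := by
    exact_mod_cast not_dvd_of_cop hc Nat.prime_two (by exact_mod_cast dvd_mul_right (2 : ℤ) D)
  have h3 : jacobiSym D q.1.natAbs = 1 := by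
    have e : (D : ℤ) % q.1.natAbs = (q.2.1 ^ 2) % q.1.natAbs := by
      apply Int.emod_eq_emod_iff_emod_sub_eq_zero.2
      apply Int.emod_eq_zero_of_dvd
      rw [Int.natAbs_dvd]
      exact ⟨-(4 * q.2.2), by rw [← hq]; ring⟩
    rw [jacobiSym.mod_left' e]
    apply jacobiSym.sq_one'
    rw [← Int.isCoprime_iff_gcd_eq_one]
    refine cop_of fun p hp h4 h5 => ?_
    rw [Int.dvd_natAbs] at h4
    refine not_dvd_of_cop hc hp ?_ h4
    refine Dvd.dvd.mul_left ?_ 2
    rw [← hq]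
    exact (h5.pow two_ne_zero).sub ((h4.mul_left 4).mul_right _)
  have h4 : kr D D q.1.natAbs = 1 := by
    rw [kr_jac h (un_self h) (by omega), sgd_self h, one_mul, h3]
  rcases Int.natAbs_eq q.1 with h5 | h5
  · rw [h5]
    exact h4
  · rw [h5, ← neg_one_mul, kr_mul, kr_neg_one h (dvd_refl D), sgd_self h, one_mul]
    exact h4

/-- **the product formula** -/
theorem ps_self {D : ℕ} (h : Fd D) {q : ℤ × ℤ × ℤ}
    (hq : q.2.1 ^ 2 - 4 * q.1 * q.2.2 = D) : ps D D q = 1 := by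
  obtain ⟨x, y, ⟨u, v, huv⟩, hc⟩ := exists_rep h hq
  have hdet : x * u - -v * y = 1 := by linear_combination huv
  rw [← (gc_ps h (dvd_refl D)).inv hdet q hq]
  have e1 : (act x (-v) y u q).1 = ev q x y := by
    unfold act ev
    ring
  have hc' : IsCoprime (act x (-v) y u q).1 (2 * D) := by rw [e1]; exact hc
  rw [ps_lead (dvd_refl D) hc']
  exact kr_self h (by rw [disc_act hdet]; exact hq) hc'

theorem un_symm {D d : ℕ} (h : Un D d) (hD : D ≠ 0) : Un D (D / d) := by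
  have h1 : D / (D / d) = d := Nat.div_div_self h.1 hD
  exact ⟨Nat.div_dvd_of_dvd h.1, by rw [h1]; exact h.2.symm⟩

theorem pf_split {D d : ℕ} (h : Un D d) (hD : D ≠ 0) :
    D.primeFactors = d.primeFactors ∪ (D / d).primeFactors := by
  have h1 : d * (D / d) = D := Nat.mul_div_cancel' h.1
  have h2 : d ≠ 0 := by rintro rfl; rw [zero_mul] at h1; exact hD h1.symm
  have h3 : D / d ≠ 0 := by intro h3; rw [h3, mul_zero] at h1; exact hD h1.symm
  conv_lhs => rw [← h1]
  exact Nat.primeFactors_mul h2 h3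

theorem pf_disj {D d : ℕ} (h : Un D d) : Disjoint d.primeFactors (D / d).primeFactors :=
  h.2.disjoint_primeFactors

theorem ps_mul {D d : ℕ} (h : Un D d) (hD : D ≠ 0) (q : ℤ × ℤ × ℤ) :
    ps D d q * ps D (D / d) q = ps D D q := by
  rw [ps_eq, ps_eq, ps_eq]
  have h1 : ∏ p ∈ D.primeFactors.erase 2, PG.gp p q =
      (∏ p ∈ d.primeFactors.erase 2, PG.gp p q) * ∏ p ∈ (D / d).primeFactors.erase 2, PG.gp p q := by
    rw [pf_split h hD, Finset.erase_union_distrib, Finset.prod_union]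
    exact (pf_disj h).mono (Finset.erase_subset _ _) (Finset.erase_subset _ _)
  have h2 : f2 D d q * f2 D (D / d) q = f2 D D q := by
    have hm : d * (D / d) = D := Nat.mul_div_cancel' h.1
    unfold f2
    by_cases ha : 2 ∣ d
    · have hb := un_cop h Nat.prime_two ha
      rw [if_pos ha, if_neg hb, if_pos (ha.trans h.1), mul_one]
    · rw [if_neg ha, one_mul]
      by_cases hb : 2 ∣ D / d
      · rw [if_pos hb, if_pos (hb.trans (Nat.div_dvd_of_dvd h.1))]
      · rw [if_neg hb, if_neg]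
        intro hD2
        rw [← hm] at hD2
        rcases (Nat.Prime.dvd_mul Nat.prime_two).1 hD2 with h3 | h3
        · exact ha h3
        · exact hb h3
  rw [h1, ← h2]
  ring

/-- **the genus characters of `d` and `D / d` agree** -/
theorem ps_sw {D d : ℕ} (h : Fd D) (hd : Un D d) {q : ℤ × ℤ × ℤ}
    (hq : q.2.1 ^ 2 - 4 * q.1 * q.2.2 = D) : ps D (D / d) q = ps D d q := by
  have h1 := ps_mul hd (fd_pos h).ne' q
  rw [ps_self h hq] at h1
  have h2 := Int.eq_one_or_neg_one_of_mul_eq_one h1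
  rcases h2 with h2 | h2 <;> rw [h2] at h1 ⊢ <;> omega

theorem t_SW : Pool.Agent.N969.RQ.S_SW := by
  intro N w D d x M h hd
  unfold J
  apply finsum_congr
  intro q
  by_cases hq : q.2.1 ^ 2 - 4 * q.1 * q.2.2 = (D : ℤ) ∧ (N : ℤ) ∣ q.1 ∧ 0 < q.1 ∧
    q.1 * x ^ 2 + q.2.1 * x * M + q.2.2 * M ^ 2 < 0
  · rw [if_pos hq, if_pos hq, ps_sw h hd hq.1]
  · rw [if_neg hq, if_neg hq]

end

end Pool.Agent.N975.RQ
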