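import Pool.Agent.N975.RQ.Symb
import Pool.Agent.N975.RQ.SW
import Pool.Agent.N969.RQ.Defs2

/-!
# The crossing numbers of the levels `3`, `5`, `7` vanish
-/

set_option autoImplicit false

open Finset

namespace Pool.Agent.N975.RQ

open Pool.Agent.N402.Dim (SymbC)
open Pool.Agent.N969.RQ (Fd Un ud sgd ps J o3 o5 o7 op)

noncomputable section

namespace Low

variable {N : ℕ} {s : ℚ → ℂ}

lemma y_neg (hs : SymbC N s) (j : ℤ) : s (1 / ((-j : ℤ) : ℚ)) = -s (1 / (j : ℚ)) := by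
  rw [← hs.neg]
  congr 1
  push_cast
  rw [div_neg]

/-- class `(1 : j)` -/
lemma cl1 (hN : 1 < N) (hs : SymbC N s) {a b c d : ℤ} (h : a * d - b * c = 1) (j : ℤ)
    (hd : (N : ℤ) ∣ d - j * c) : s ((a : ℚ) / c) - s ((b : ℚ) / d) = s (1 / (j : ℚ)) := by
  have h1 := hs.xi hN h (a' := 0) (b' := -1) (c' := 1) (d' := j) (by ring) (by simpa using hd)
  rw [h1]
  have e : (((-1 : ℤ) : ℚ)) / (j : ℚ) = -(1 / (j : ℚ)) := by push_cast; rw [neg_div]
  rw [e, hs.neg]
  push_cast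
  rw [zero_div, hs.zero]
  ring

/-- class `(j : 1)` -/
lemma cl2 (hN : 1 < N) (hs : SymbC N s) {a b c d : ℤ} (h : a * d - b * c = 1) (j : ℤ)
    (hd : (N : ℤ) ∣ c - j * d) : s ((a : ℚ) / c) - s ((b : ℚ) / d) = s (1 / (j : ℚ)) := by
  have h1 := hs.xi hN h (a' := 1) (b' := 0) (c' := j) (d' := 1) (by ring) (by
    obtain ⟨k, hk⟩ := hd
    exact ⟨-k, by linarith⟩)
  rw [h1]
  push_cast
  rw [zero_div, hs.zero, sub_zero]

lemma y_mod (hN : 1 < N) (hs : SymbC N s) {j k : ℤ} (h : (N : ℤ) ∣ k - j) :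
    s (1 / (j : ℚ)) = s (1 / (k : ℚ)) := by
  have h1 := cl1 hN hs (a := 0) (b := -1) (c := 1) (d := k) (by ring) j (by simpa using h)
  have h2 := cl1 hN hs (a := 0) (b := -1) (c := 1) (d := k) (by ring) k (by simp)
  rw [← h1, ← h2]

lemma y_inv (hN : 1 < N) (hs : SymbC N s) {j k : ℤ} (h : (N : ℤ) ∣ k * j - 1) :
    s (1 / (j : ℚ)) = s (1 / (k : ℚ)) := by
  have h1 := cl1 hN hs (a := 1) (b := 0) (c := k) (d := 1) (by ring) j (by
    obtain ⟨m, hm⟩ := h
    exact ⟨-m, by linarith⟩)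
  have h2 := cl2 hN hs (a := 1) (b := 0) (c := k) (d := 1) (by ring) k (by simp)
  rw [← h1, ← h2]

lemma y_t1 (hN : 1 < N) (hs : SymbC N s) {j k : ℤ} (h : (N : ℤ) ∣ k * j - (j + 1)) :
    s (1 / (j : ℚ)) - s (1 / ((j + 1 : ℤ) : ℚ)) = s (1 / (k : ℚ)) := by
  have h1 := cl1 hN hs (a := 1) (b := 1) (c := j) (d := j + 1) (by ring) k (by
    obtain ⟨m, hm⟩ := h
    exact ⟨-m, by linarith⟩)
  rw [← h1]
  push_cast
  rfl

lemma n (hN : 1 < N) (hs : SymbC N s) {j k : ℤ} (h : (N : ℤ) ∣ k + j) :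
    s (1 / (k : ℚ)) = -s (1 / (j : ℚ)) := by
  rw [← y_neg hs j]
  refine y_mod hN hs ?_
  obtain ⟨m, hm⟩ := h
  exact ⟨-m, by linarith⟩

lemma K0 (hs : SymbC N s) : s (1 / ((0 : ℤ) : ℚ)) = 0 := by rw [Int.cast_zero, hs.div_zero]

lemma K1 (hs : SymbC N s) : s (1 / ((1 : ℤ) : ℚ)) = 0 := by
  have := hs.int 1
  simpa using this

lemma K2 (hN : 1 < N) (hs : SymbC N s) : s (1 / ((2 : ℤ) : ℚ)) = 0 := by
  have := y_t1 hN hs (j := 1) (k := 2) (by norm_num)
  rw [K1 hs, show (1 + 1 : ℤ) = 2 by norm_num] at this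
  linear_combination (-1 / 2 : ℂ) * this

/-- for a prime level it suffices that all the `s (1 / j)` vanish -/
theorem zero_of (hp : N.Prime) (hs : SymbC N s)
    (hy : ∀ j : ℤ, 0 ≤ j → j < N → s (1 / (j : ℚ)) = 0) (r : ℚ) : s r = 0 := by
  have hN := hp.one_lt
  refine hs.eq_zero (fun a b c d h => ?_) r
  by_cases hc : (N : ℤ) ∣ c
  · rw [cl2 hN hs h 0 (by simpa using hc)]
    exact hy 0 le_rfl (by exact_mod_cast hp.pos)
  · have hcop : IsCoprime c (N : ℤ) := by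
      rw [isCoprime_comm]
      exact (Nat.prime_iff_prime_int.1 hp).coprime_iff_not_dvd.2 hc
    obtain ⟨u, v, huv⟩ := hcop
    have hN0 : (N : ℤ) ≠ 0 := by exact_mod_cast hp.ne_zero
    have h1 : (N : ℤ) ∣ d - (d * u % N) * c := by
      have h2 := Int.emod_add_mul_ediv (d * u) N
      exact ⟨d * v + (d * u / N) * c, by linear_combination -d * huv - c * h2⟩
    rw [cl1 hN hs h (d * u % N) h1]
    exact hy _ (Int.emod_nonneg _ hN0) (Int.emod_lt_of_pos _ (by exact_mod_cast hp.pos))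

theorem low3 {s : ℚ → ℂ} (hs : SymbC 3 s) (r : ℚ) : s r = 0 := by
  refine zero_of Nat.prime_three hs (fun j h0 h3 => ?_) r
  push_cast at h3
  interval_cases j
  · exact K0 hs
  · exact K1 hs
  · rw [n (by norm_num) hs (j := 1) (k := 2) (by norm_num), K1 hs, neg_zero]

theorem low5 {s : ℚ → ℂ} (hs : SymbC 5 s) (r : ℚ) : s r = 0 := by
  refine zero_of Nat.prime_five hs (fun j h0 h3 => ?_) r
  push_cast at h3
  interval_cases j
  · exact K0 hs
  · exact K1 hs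
  · exact K2 (by norm_num) hs
  · rw [n (by norm_num) hs (j := 2) (k := 3) (by norm_num), K2 (by norm_num) hs, neg_zero]
  · rw [n (by norm_num) hs (j := 1) (k := 4) (by norm_num), K1 hs, neg_zero]

theorem low7 {s : ℚ → ℂ} (hs : SymbC 7 s) (r : ℚ) : s r = 0 := by
  have k4 : s (1 / ((4 : ℤ) : ℚ)) = 0 := by
    rw [← y_inv (by norm_num) hs (j := 2) (k := 4) (by norm_num)]
    exact K2 (by norm_num) hs
  refine zero_of (by norm_num) hs (fun j h0 h3 => ?_) r
  push_cast at h3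
  interval_cases j
  · exact K0 hs
  · exact K1 hs
  · exact K2 (by norm_num) hs
  · rw [n (by norm_num) hs (j := 4) (k := 3) (by norm_num), k4, neg_zero]
  · exact k4
  · rw [n (by norm_num) hs (j := 2) (k := 5) (by norm_num), K2 (by norm_num) hs, neg_zero]
  · rw [n (by norm_num) hs (j := 1) (k := 6) (by norm_num), K1 hs, neg_zero]

end Low

/-! ### the crossing numbers of the frozen statements -/

/-- orientations: odd, periodic functions -/
structure Ori (N : ℕ) (w : ℤ → ℤ) : Prop where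
  odd : ∀ b, w (-b) = -w b
  per : ∀ b b' : ℤ, 2 * (N : ℤ) ∣ b' - b → w b' = w b

/-- the weight of the frozen crossing number -/
def K (N : ℕ) (w : ℤ → ℤ) (D d : ℕ) : ℤ × ℤ × ℤ → ℤ := kw (N : ℤ) (D : ℤ) w (ps D d)

theorem wt_K {N D d : ℕ} {w : ℤ → ℤ} (h : Fd D) (hd : d ∣ D) (hw : Ori N w) :
    Wt (N : ℤ) (D : ℤ) (K N w D d) :=
  wt_kw (fd_nsq h) hw.per (gc_ps h hd)

theorem par_K {N D d : ℕ} {w : ℤ → ℤ} (h : Fd D) (hd : d ∣ D) (hs : sgd D d = 1) :
    Par (K N w D d) 1 := by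
  rw [← hs]
  exact par_kw (gc_ps h hd)

/-- **the frozen crossing number** -/
theorem X_K {N D d : ℕ} {w : ℤ → ℤ} (h : Fd D) (hd : d ∣ D) (hs : sgd D d = 1) (hw : Ori N w)
    (x : ℤ) {M : ℤ} (hM : M ≠ 0) : X (K N w D d) x M = 4 * J N w D d x M := by
  have h1 := X_kw (N := (N : ℤ)) (fd_nsq h) hw.per (gc_ps h hd) x hM
  unfold K
  rw [h1, hs]
  have h2 : ∑ᶠ q : ℤ × ℤ × ℤ, (if (q.2.1 ^ 2 - 4 * q.1 * q.2.2 = (D : ℤ) ∧ (N : ℤ) ∣ q.1) ∧
      0 < q.1 ∧ Pool.Agent.N975.Sym.ev q x M < 0 then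
        (w q.2.1 - 1 * w (-q.2.1)) * ps D d q else 0) = 2 * J N w D d x M := by
    unfold J
    rw [mul_finsum]
    apply finsum_congr
    intro q
    unfold Pool.Agent.N975.Sym.ev
    by_cases hq : q.2.1 ^ 2 - 4 * q.1 * q.2.2 = (D : ℤ) ∧ (N : ℤ) ∣ q.1 ∧ 0 < q.1 ∧
      q.1 * x ^ 2 + q.2.1 * x * M + q.2.2 * M ^ 2 < 0
    · rw [if_pos hq, if_pos ⟨⟨hq.1, hq.2.1⟩, hq.2.2⟩, hw.odd]
      ring
    · rw [if_neg hq, if_neg (fun h => hq ⟨h.1.1, h.1.2, h.2⟩), mul_zero]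
  rw [h2]
  ring

theorem ori_jac (N : ℕ) (p : ℕ) (hp : p = 3 ∨ p = 7) (hN : p ∣ N) :
    Ori N (fun b => jacobiSym b p) where
  odd := by
    intro b
    show jacobiSym (-b) p = -jacobiSym b p
    rw [← neg_one_mul, jacobiSym.mul_left]
    have h : jacobiSym (-1) p = -1 := by
      rcases hp with rfl | rfl
      · rw [jac_neg_one (by norm_num), if_neg (by norm_num)]
      · rw [jac_neg_one (by norm_num), if_neg (by norm_num)]
    rw [h, neg_one_mul]
  per := by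
    intro b b' h
    show jacobiSym b' p = jacobiSym b p
    refine jacobiSym.mod_left' ?_
    apply Int.emod_eq_emod_iff_emod_sub_eq_zero.2
    apply Int.emod_eq_zero_of_dvd
    exact ((Int.natCast_dvd_natCast.2 hN).mul_left 2).trans h

theorem ori_o3 {N : ℕ} (hN : 3 ∣ N) : Ori N o3 := ori_jac N 3 (Or.inl rfl) hN

theorem ori_o7 {N : ℕ} (hN : 7 ∣ N) : Ori N o7 := ori_jac N 7 (Or.inr rfl) hN

theorem ori_o5 {N : ℕ} (hN : 5 ∣ N) : Ori N o5 where
  odd := by
    intro b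
    unfold o5
    have h : b % 5 = 0 ∨ b % 5 = 1 ∨ b % 5 = 2 ∨ b % 5 = 3 ∨ b % 5 = 4 := by omega
    rcases h with h | h | h | h | h
    · rw [if_pos h, if_pos (by omega)]; rfl
    · rw [if_neg (by omega), if_neg (by omega), if_neg (by omega), if_pos (by omega)]
    · rw [if_neg (by omega), if_neg (by omega), if_neg (by omega), if_pos (by omega)]
    · rw [if_neg (by omega), if_pos (by omega), if_neg (by omega), if_neg (by omega)]; rfl
    · rw [if_neg (by omega), if_pos (by omega), if_neg (by omega), if_neg (by omega)]; rfl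
  per := by
    intro b b' h
    have h1 : (5 : ℤ) ∣ b' - b := ((Int.natCast_dvd_natCast.2 hN).mul_left 2).trans h
    have h2 : b' % 5 = b % 5 := by omega
    unfold o5
    rw [h2]

/-- **LOW** -/
theorem t_LOW : Pool.Agent.N969.RQ.S_LOW := by
  intro p hp D d h _ hd hs x M hM
  have hw : Ori p (op p) := by
    rcases hp with rfl | rfl | rfl
    · have e : op 3 = o3 := by unfold op; rw [if_neg (by norm_num), if_pos (by rfl)]
      rw [e]; exact ori_o3 (dvd_refl 3)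
    · have e : op 5 = o5 := by unfold op; rw [if_pos (by rfl)]
      rw [e]; exact ori_o5 (dvd_refl 5)
    · have e : op 7 = o7 := by
        unfold op; rw [if_neg (by norm_num), if_neg (by norm_num)]
      rw [e]; exact ori_o7 (dvd_refl 7)
  have hp1 : 1 < p := by omega
  have hS := symbC_X hp1 (wt_K h hd.1 hw) (par_K (N := p) (w := op p) h hd.1 hs)
  have h0 : ((Xr (K p (op p) D d) ((x : ℚ) / M) : ℤ) : ℂ) = 0 := by
    rcases hp with rfl | rfl | rfl
    · exact Low.low3 hS _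
    · exact Low.low5 hS _
    · exact Low.low7 hS _
  have h1 : Xr (K p (op p) D d) ((x : ℚ) / M) = 0 := by exact_mod_cast h0
  rw [Xr_div x hM, X_K h hd.1 hs hw x hM] at h1
  omega

end

end Pool.Agent.N975.RQ
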