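import Pool.Agent.N975.RQ.SW

/-!
# Atkin-Lehner operators on the crossing numbers
-/

set_option autoImplicit false

open Finset

namespace Pool.Agent.N975.RQ

open Pool.Agent.N975.Sym (ev act ev_act ev10)
open Pool.Agent.N969.P15 (c2)
open Pool.Agent.N969.P17G (gen starP)
open Pool.Agent.N969.RQ (Fd Un ud sgd ps J)

noncomputable section

/-- the Atkin-Lehner map of the matrix `(Q α, B; Q R γ, Q δ)`, level `N = Q R` -/
def al (Q R α B γ δ : ℤ) (q : ℤ × ℤ × ℤ) : ℤ × ℤ × ℤ :=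
  (Q * α ^ 2 * q.1 + Q * R * α * γ * q.2.1 + Q * R * R * γ ^ 2 * q.2.2,
    2 * α * B * q.1 + (Q * α * δ + B * R * γ) * q.2.1 + 2 * (Q * R) * γ * δ * q.2.2,
    (q.1 / Q) * B ^ 2 + B * δ * q.2.1 + Q * δ ^ 2 * q.2.2)

variable {Q R α B γ δ : ℤ}

theorem al_ev {q : ℤ × ℤ × ℤ} (hq : Q ∣ q.1) (x y : ℤ) :
    Q * ev (al Q R α B γ δ q) x y =
      ev q (Q * α * x + B * y) (Q * R * γ * x + Q * δ * y) := by
  have h : Q * (q.1 / Q) = q.1 := Int.mul_ediv_cancel' hq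
  unfold al ev
  simp only
  linear_combination (B ^ 2 * y ^ 2) * h

theorem al_dvd {q : ℤ × ℤ × ℤ} (hq : Q * R ∣ q.1) : Q * R ∣ (al Q R α B γ δ q).1 := by
  obtain ⟨a, ha⟩ := hq
  refine ⟨Q * α ^ 2 * a + α * γ * q.2.1 + R * γ ^ 2 * q.2.2, ?_⟩
  unfold al
  simp only
  rw [ha]
  ring

theorem al_disc (hQ : Q ≠ 0) (hdet : Q * α * δ - R * B * γ = 1) {q : ℤ × ℤ × ℤ} (hq : Q ∣ q.1) :
    (al Q R α B γ δ q).2.1 ^ 2 - 4 * (al Q R α B γ δ q).1 * (al Q R α B γ δ q).2.2 =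
      q.2.1 ^ 2 - 4 * q.1 * q.2.2 := by
  obtain ⟨a, ha⟩ := hq
  unfold al
  simp only
  rw [ha, Int.mul_ediv_cancel_left _ hQ]
  linear_combination ((q.2.1 ^ 2 - 4 * (Q * a) * q.2.2) * (Q * α * δ - R * B * γ + 1)) * hdet

/-- the inverse map -/
theorem al_inv (hQ : Q ≠ 0) (hdet : Q * α * δ - R * B * γ = 1) {q : ℤ × ℤ × ℤ}
    (hq : Q * R ∣ q.1) : al Q R δ (-B) (-γ) α (al Q R α B γ δ q) = q := by
  obtain ⟨a, ha⟩ := hq
  obtain ⟨A, b, c⟩ := q
  simp only at ha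
  subst ha
  have e1 : Q * R * a / Q = R * a := by
    rw [mul_assoc, Int.mul_ediv_cancel_left _ hQ]
  have e2 : (Q * α ^ 2 * (Q * R * a) + Q * R * α * γ * b + Q * R * R * γ ^ 2 * c) / Q =
      Q * α ^ 2 * R * a + R * α * γ * b + R * R * γ ^ 2 * c := by
    rw [show Q * α ^ 2 * (Q * R * a) + Q * R * α * γ * b + Q * R * R * γ ^ 2 * c =
      Q * (Q * α ^ 2 * R * a + R * α * γ * b + R * R * γ ^ 2 * c) by ring,
      Int.mul_ediv_cancel_left _ hQ]
  unfold al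
  simp only [e1, e2, Prod.mk.injEq]
  refine ⟨?_, ?_, ?_⟩
  · linear_combination (Q * R * a) * (Q * α * δ - R * B * γ + 1) * hdet
  · linear_combination b * (Q * α * δ - R * B * γ + 1) * hdet
  · linear_combination c * (Q * α * δ - R * B * γ + 1) * hdet

/-- the map is a bijection on the forms of level `N = Q R` -/
theorem al_bij (hQ : Q ≠ 0) (hdet : Q * α * δ - R * B * γ = 1) :
    Set.BijOn (al Q R α B γ δ) {q | Q * R ∣ q.1} {q | Q * R ∣ q.1} := by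
  refine Set.InvOn.bijOn (f' := al Q R δ (-B) (-γ) α) ⟨?_, ?_⟩ ?_ ?_
  · intro q hq
    exact al_inv hQ hdet hq
  · intro q hq
    have h := al_inv (α := δ) (B := -B) (γ := -γ) (δ := α) hQ
      (by linear_combination hdet) hq
    rwa [neg_neg, neg_neg] at h
  · intro q hq
    exact al_dvd hq
  · intro q hq
    exact al_dvd hq

/-! ### general weights -/

variable {D : ℤ} {k : ℤ × ℤ × ℤ → ℤ}

theorem restrict {f : ℤ × ℤ × ℤ → ℤ} {s : Set (ℤ × ℤ × ℤ)} (h : Function.support f ⊆ s) :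
    ∑ᶠ q ∈ s, f q = ∑ᶠ q, f q := by
  rw [← finsum_mem_univ f]
  exact finsum_mem_inter_support_eq' f s Set.univ fun x hx => ⟨fun _ => Set.mem_univ _, fun _ => h hx⟩

/-- the crossing number between two cusps -/
theorem X_sub {N : ℤ} (H : Wt N D k) {x m y n : ℤ} (hxm : x ≠ 0 ∨ m ≠ 0) (hyn : y ≠ 0 ∨ n ≠ 0) :
    ∑ᶠ q, U k x m y n q = X k y n - X k x m := by
  unfold X
  rw [← finsum_sub_distrib (U_fin H hyn) (U_fin H hxm)]
  apply finsum_congr
  intro q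
  unfold U
  ring

/-- **the crossing numbers under an Atkin-Lehner operator** -/
theorem X_al (hQ : 0 < Q) (hdet : Q * α * δ - R * B * γ = 1) (H : Wt (Q * R) D k)
    (hN : ∀ q, k q ≠ 0 → Q * R ∣ q.1) {c : ℤ} (hc : c * c = 1)
    (hk : ∀ q : ℤ × ℤ × ℤ, Q * R ∣ q.1 → k (al Q R α B γ δ q) = c * k q) {x m : ℤ}
    (hxm : x ≠ 0 ∨ m ≠ 0) :
    X k (Q * α * x + B * m) (Q * R * γ * x + Q * δ * m) - X k (Q * α) (Q * R * γ) =
      c * X k x m := by
  have hdet2 : (Q * α) * (Q * δ) - B * (Q * R * γ) = Q := by linear_combination Q * hdet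
  have h1 : Q * α * x + B * m ≠ 0 ∨ Q * R * γ * x + Q * δ * m ≠ 0 := by
    by_contra hcon
    rw [not_or, not_not, not_not] at hcon
    obtain ⟨h1, h2⟩ := hcon
    have hx : Q * x = 0 := by linear_combination (Q * δ) * h1 - B * h2 - x * hdet2
    have hm : Q * m = 0 := by linear_combination (Q * α) * h2 - (Q * R * γ) * h1 - m * hdet2
    rcases hxm with h3 | h3
    · exact h3 ((mul_eq_zero.1 hx).resolve_left hQ.ne')
    · exact h3 ((mul_eq_zero.1 hm).resolve_left hQ.ne')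
  have h2 : Q * α ≠ 0 ∨ Q * R * γ ≠ 0 := by
    by_contra hcon
    rw [not_or, not_not, not_not] at hcon
    rw [hcon.1, hcon.2, zero_mul, mul_zero, sub_zero] at hdet2
    exact hQ.ne hdet2
  rw [← X_sub H h2 h1]
  unfold X
  -- both sums are over the forms of level `N`
  have hsup : ∀ (x m y n : ℤ), Function.support (U k x m y n) ⊆ {q | Q * R ∣ q.1} := by
    intro x m y n q hq
    refine hN q fun h0 => hq ?_
    unfold U
    rw [h0, zero_mul]
  rw [← restrict (hsup (Q * α) (Q * R * γ) (Q * α * x + B * m) (Q * R * γ * x + Q * δ * m)),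
    mul_finsum]
  have hsup' : Function.support (fun q => c * U k 1 0 x m q) ⊆ {q | Q * R ∣ q.1} :=
    (Function.support_mul_subset_right _ _).trans (hsup 1 0 x m)
  rw [← restrict hsup']
  refine finsum_mem_eq_of_bijOn (al Q R α B γ δ) (al_bij hQ.ne' hdet) ?_
  intro q hq
  have hq' : Q * R ∣ q.1 := hq
  have hqQ : Q ∣ q.1 := (Dvd.intro _ rfl).trans hq'
  have es : ∀ x y : ℤ, Int.sign (ev (al Q R α B γ δ q) x y) =
      Int.sign (ev q (Q * α * x + B * y) (Q * R * γ * x + Q * δ * y)) := by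
    intro x y
    rw [← al_ev hqQ, Int.sign_mul, Int.sign_eq_one_of_pos hQ, one_mul]
  unfold U
  rw [es, es, hk q hq', mul_one, mul_zero, add_zero, mul_one, mul_zero, add_zero]
  linear_combination (-(k q * (Int.sign (ev q (Q * α) (Q * R * γ)) -
    Int.sign (ev q (Q * α * x + B * m) (Q * R * γ * x + Q * δ * m))))) * hc

/-! ### genus characters -/

theorem al_out {D : ℕ} (h : Fd D) (hQ : Q ≠ 0) (hdet : Q * α * δ - R * B * γ = 1)
    {q : ℤ × ℤ × ℤ} (hq : q.2.1 ^ 2 - 4 * q.1 * q.2.2 = D) (hqQ : Q ∣ q.1) {p : ℕ}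
    (hp : p.Prime) (hpD : p ∣ D) : ¬ (p : ℤ) ∣ (al Q R α B γ δ q).1 ∨
      ¬ (p : ℤ) ∣ (al Q R α B γ δ q).2.2 := by
  by_contra hcon
  rw [not_or, not_not, not_not] at hcon
  obtain ⟨h1, h2⟩ := hcon
  have hd := al_disc (R := R) hQ hdet hqQ
  rw [hq] at hd
  have hpD' : (p : ℤ) ∣ D := Int.natCast_dvd_natCast.2 hpD
  have h3 := prim_form h hd hp (hpD'.mul_left 2) h1 h2
  apply h3
  have h4 : (p : ℤ) ∣ (al Q R α B γ δ q).2.1 ^ 2 := by
    have e : (al Q R α B γ δ q).2.1 ^ 2 =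
      D + 4 * (al Q R α B γ δ q).1 * (al Q R α B γ δ q).2.2 := by linear_combination hd
    rw [e]
    exact hpD'.add ((h1.mul_left 4).mul_right _)
  exact (Nat.prime_iff_prime_int.1 hp).dvd_of_dvd_pow h4

theorem gp_al {D : ℕ} (h : Fd D) (hQ : Q ≠ 0) (hdet : Q * α * δ - R * B * γ = 1)
    {q : ℤ × ℤ × ℤ} (hq : q.2.1 ^ 2 - 4 * q.1 * q.2.2 = D) (hqQ : Q ∣ q.1) {p : ℕ}
    (hp : p.Prime) (hp2 : p ≠ 2) (hpD : p ∣ D) (hpQ : ¬ (p : ℤ) ∣ Q) :
    PG.gp p (al Q R α B γ δ q) = jacobiSym Q p * PG.gp p q := by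
  have hpp := Nat.prime_iff_prime_int.1 hp
  have hdv : (p : ℤ) ∣ q.2.1 ^ 2 - 4 * q.1 * q.2.2 := by
    rw [hq]; exact Int.natCast_dvd_natCast.2 hpD
  have hsq := PG.jac_sq hp hpQ
  have key : ∀ x y : ℤ, ¬ (p : ℤ) ∣ ev (al Q R α B γ δ q) x y →
      jacobiSym (ev (al Q R α B γ δ q) x y) p = jacobiSym Q p * PG.gp p q := by
    intro x y hxy
    have h1 : ¬ (p : ℤ) ∣ ev q (Q * α * x + B * y) (Q * R * γ * x + Q * δ * y) := by
      rw [← al_ev hqQ]
      intro h2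
      rcases hpp.dvd_mul.1 h2 with h3 | h3
      · exact hpQ h3
      · exact hxy h3
    rw [← PG.gp_val hp hp2 hdv _ _ h1, ← al_ev hqQ, jacobiSym.mul_left]
    linear_combination (-(jacobiSym (ev (al Q R α B γ δ q) x y) p)) * hsq
  have h1 := al_out h hQ hdet hq hqQ hp hpD
  by_cases h2 : (p : ℤ) ∣ (al Q R α B γ δ q).1
  · have h3 : ¬ (p : ℤ) ∣ (al Q R α B γ δ q).2.2 := by
      rcases h1 with h1 | h1
      · exact absurd h2 h1
      · exact h1
    have e : ev (al Q R α B γ δ q) 0 1 = (al Q R α B γ δ q).2.2 := by unfold ev; ring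
    have h4 := key 0 1 (by rw [e]; exact h3)
    rw [e] at h4
    rw [← h4]
    unfold PG.gp
    rw [if_pos h2]
  · have e : ev (al Q R α B γ δ q) 1 0 = (al Q R α B γ δ q).1 := by unfold ev; ring
    have h4 := key 1 0 (by rw [e]; exact h2)
    rw [e] at h4
    rw [← h4]
    unfold PG.gp
    rw [if_neg h2]

theorem g2_al {D : ℕ} (h : Fd D) (h2D : 2 ∣ D) (hQ : Q ≠ 0) (hdet : Q * α * δ - R * B * γ = 1)
    {q : ℤ × ℤ × ℤ} (hq : q.2.1 ^ 2 - 4 * q.1 * q.2.2 = D) (hqQ : Q ∣ q.1)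
    (hQ2 : ¬ (2 : ℤ) ∣ Q) :
    g2 (3 * D) (al Q R α B γ δ q) = c2 (3 * D) Q * g2 (3 * D) q := by
  have hC := c2_compat h h2D
  have hsq : c2 (3 * D) Q * c2 (3 * D) Q = 1 := by
    rcases Pool.Agent.N975.ChE.c2_pm (3 * D) (u := Q) (by omega) with h1 | h1 <;> rw [h1] <;>
      norm_num
  have key : ∀ x y : ℤ, ¬ (2 : ℤ) ∣ ev (al Q R α B γ δ q) x y →
      c2 (3 * D) (ev (al Q R α B γ δ q) x y) = c2 (3 * D) Q * g2 (3 * D) q := by
    intro x y hxy
    have h1 : ¬ (2 : ℤ) ∣ ev q (Q * α * x + B * y) (Q * R * γ * x + Q * δ * y) := by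
      rw [← al_ev hqQ]
      intro h2
      rcases Int.prime_two.dvd_mul.1 h2 with h3 | h3
      · exact hQ2 h3
      · exact hxy h3
    rw [← g2_val hC hq _ _ h1, ← al_ev hqQ, Pool.Agent.N975.ChE.c2_mul]
    linear_combination (-(c2 (3 * D) (ev (al Q R α B γ δ q) x y))) * hsq
  have h1 := al_out h hQ hdet hq hqQ Nat.prime_two h2D
  have h1' : ¬ (2 : ℤ) ∣ (al Q R α B γ δ q).1 ∨ ¬ (2 : ℤ) ∣ (al Q R α B γ δ q).2.2 := by
    exact_mod_cast h1
  by_cases h2 : (2 : ℤ) ∣ (al Q R α B γ δ q).1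
  · have h3 : ¬ (2 : ℤ) ∣ (al Q R α B γ δ q).2.2 := by
      rcases h1' with h1 | h1
      · exact absurd h2 h1
      · exact h1
    have e : ev (al Q R α B γ δ q) 0 1 = (al Q R α B γ δ q).2.2 := by unfold ev; ring
    have h4 := key 0 1 (by rw [e]; exact h3)
    rw [e] at h4
    rw [← h4]
    unfold g2
    rw [if_pos h2]
  · have e : ev (al Q R α B γ δ q) 1 0 = (al Q R α B γ δ q).1 := by unfold ev; ring
    have h4 := key 1 0 (by rw [e]; exact h2)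
    rw [e] at h4
    rw [← h4]
    unfold g2
    rw [if_neg h2]

/-- **the genus characters under an Atkin-Lehner operator** -/
theorem ps_al {D d : ℕ} (h : Fd D) (hd : d ∣ D) (hQ : Q ≠ 0)
    (hdet : Q * α * δ - R * B * γ = 1) {q : ℤ × ℤ × ℤ} (hq : q.2.1 ^ 2 - 4 * q.1 * q.2.2 = D)
    (hqQ : Q ∣ q.1) (hQ2 : ¬ (2 : ℤ) ∣ Q) (hQd : IsCoprime Q (d : ℤ)) :
    ps D d (al Q R α B γ δ q) = kr D d Q * ps D d q := by
  rw [ps_eq, ps_eq]
  unfold kr
  have h1 : ∏ p ∈ d.primeFactors.erase 2, PG.gp p (al Q R α B γ δ q) =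
      (∏ p ∈ d.primeFactors.erase 2, jacobiSym Q p) * ∏ p ∈ d.primeFactors.erase 2, PG.gp p q := by
    rw [← Finset.prod_mul_distrib]
    refine Finset.prod_congr (by rfl) fun p hp => ?_
    obtain ⟨h1, h2, h3⟩ := mem_erase hp
    exact gp_al h hQ hdet hq hqQ h1 h2 (h3.trans hd)
      (not_dvd_of_cop hQd h1 (Int.natCast_dvd_natCast.2 h3))
  have h2 : f2 D d (al Q R α B γ δ q) = (if 2 ∣ d then c2 (3 * D) Q else 1) * f2 D d q := by
    unfold f2
    by_cases h2 : 2 ∣ d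
    · rw [if_pos h2, if_pos h2, if_pos h2, g2_al h (h2.trans hd) hQ hdet hq hqQ hQ2]
    · rw [if_neg h2, if_neg h2, if_neg h2, one_mul]
  rw [h1, h2]
  ring

end

end Pool.Agent.N975.RQ
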