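import Pool.Agent.N402.Dim.Man

/-!
# Uniqueness of the odd symbols of level `15`
-/

set_option autoImplicit false

namespace Pool.Agent.N975.RQ.D15

open Pool.Agent.N402.Dim (SymbC)

section

variable {s : ℚ → ℂ} (hs : SymbC 15 s)
include hs

lemma y_neg (j : ℤ) : s (1 / ((-j : ℤ) : ℚ)) = -s (1 / (j : ℚ)) := by
  rw [← hs.neg]
  congr 1
  push_cast
  rw [div_neg]

lemma xi {a b c d a' b' c' d' : ℤ} (h : a * d - b * c = 1)
    (h' : a' * d' - b' * c' = 1) (hd : (15 : ℤ) ∣ c' * d - d' * c) :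
    s ((a : ℚ) / c) - s ((b : ℚ) / d) = s ((a' : ℚ) / c') - s ((b' : ℚ) / d') :=
  hs.xi (by norm_num) h h' (by exact_mod_cast hd)

/-- class `(1 : j)` -/
lemma cl1 {a b c d : ℤ} (h : a * d - b * c = 1) (j : ℤ) (hd : (15 : ℤ) ∣ d - j * c) :
    s ((a : ℚ) / c) - s ((b : ℚ) / d) = s (1 / (j : ℚ)) := by
  have h1 := xi hs h (a' := 0) (b' := -1) (c' := 1) (d' := j) (by ring) (by simpa using hd)
  rw [h1]
  have e : (((-1 : ℤ) : ℚ)) / (j : ℚ) = -(1 / (j : ℚ)) := by push_cast; rw [neg_div]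
  rw [e, hs.neg]
  push_cast
  rw [zero_div, hs.zero]
  ring

/-- class `(j : 1)` -/
lemma cl2 {a b c d : ℤ} (h : a * d - b * c = 1) (j : ℤ) (hd : (15 : ℤ) ∣ c - j * d) :
    s ((a : ℚ) / c) - s ((b : ℚ) / d) = s (1 / (j : ℚ)) := by
  have h1 := xi hs h (a' := 1) (b' := 0) (c' := j) (d' := 1) (by ring) (by
    obtain ⟨k, hk⟩ := hd
    exact ⟨-k, by linarith⟩)
  rw [h1]
  push_cast
  rw [zero_div, hs.zero, sub_zero]

lemma y_mod {j k : ℤ} (h : (15 : ℤ) ∣ k - j) : s (1 / (j : ℚ)) = s (1 / (k : ℚ)) := by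
  have h1 := cl1 hs (a := 0) (b := -1) (c := 1) (d := k) (by ring) j (by simpa using h)
  have h2 := cl1 hs (a := 0) (b := -1) (c := 1) (d := k) (by ring) k (by simp)
  rw [← h1, ← h2]

lemma y_inv {j k : ℤ} (h : (15 : ℤ) ∣ k * j - 1) : s (1 / (j : ℚ)) = s (1 / (k : ℚ)) := by
  have h1 := cl1 hs (a := 1) (b := 0) (c := k) (d := 1) (by ring) j (by
    obtain ⟨m, hm⟩ := h
    exact ⟨-m, by linarith⟩)
  have h2 := cl2 hs (a := 1) (b := 0) (c := k) (d := 1) (by ring) k (by simp)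
  rw [← h1, ← h2]

lemma y_t1 {j k : ℤ} (h : (15 : ℤ) ∣ k * j - (j + 1)) :
    s (1 / (j : ℚ)) - s (1 / ((j + 1 : ℤ) : ℚ)) = s (1 / (k : ℚ)) := by
  have h1 := cl1 hs (a := 1) (b := 1) (c := j) (d := j + 1) (by ring) k (by
    obtain ⟨m, hm⟩ := h
    exact ⟨-m, by linarith⟩)
  rw [← h1]
  push_cast
  rfl

lemma y_t2 {j k : ℤ} (h : (15 : ℤ) ∣ k * (j + 1) - j) :
    s (1 / (j : ℚ)) - s (1 / ((j + 1 : ℤ) : ℚ)) = s (1 / (k : ℚ)) := by
  have h1 := cl2 hs (a := 1) (b := 1) (c := j) (d := j + 1) (by ring) k (by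
    obtain ⟨m, hm⟩ := h
    exact ⟨-m, by linarith⟩)
  rw [← h1]
  push_cast
  rfl

/-- the self-dual classes -/
lemma cl3 {a b c d : ℤ} (h : a * d - b * c = 1) (hd : (15 : ℤ) ∣ c * d) :
    s ((a : ℚ) / c) - s ((b : ℚ) / d) = 0 := by
  have h1 := xi hs h (a' := a) (b' := -b) (c' := -c) (d' := d) (by linarith) (by
    obtain ⟨k, hk⟩ := hd
    exact ⟨-(2 * k), by linarith⟩)
  have e1 : (a : ℚ) / ((-c : ℤ) : ℚ) = -((a : ℚ) / c) := by push_cast; rw [div_neg]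
  have e2 : ((-b : ℤ) : ℚ) / d = -((b : ℚ) / d) := by push_cast; rw [neg_div]
  rw [e1, e2, hs.neg, hs.neg] at h1
  linear_combination h1 / 2

lemma n {j k : ℤ} (h : (15 : ℤ) ∣ k + j) : s (1 / (k : ℚ)) = -s (1 / (j : ℚ)) := by
  rw [← y_neg hs j]
  refine y_mod hs ?_
  obtain ⟨m, hm⟩ := h
  exact ⟨-m, by linarith⟩

lemma H2 : s (1 / ((2 : ℤ) : ℚ)) = 0 := by
  have H1 : s (1 / ((1 : ℤ) : ℚ)) = 0 := by
    have := hs.int 1
    simpa using this
  have := y_t1 hs (j := 1) (k := 2) (by norm_num)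
  rw [H1, show (1 + 1 : ℤ) = 2 by norm_num] at this
  linear_combination (-1 / 2 : ℂ) * this

/-- the value at one quarter -/
lemma H4 : s (1 / ((4 : ℤ) : ℚ)) = 2 * s (1 / ((3 : ℤ) : ℚ)) := by
  have h1 := y_t2 hs (j := 3) (k := 12) (by norm_num)
  have h2 := n hs (j := 3) (k := 12) (by norm_num)
  rw [show (3 + 1 : ℤ) = 4 by norm_num] at h1
  linear_combination (-1 : ℂ) * h1 - h2

lemma H5 : s (1 / ((5 : ℤ) : ℚ)) = s (1 / ((3 : ℤ) : ℚ)) := by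
  have h1 := y_t1 hs (j := 4) (k := 5) (by norm_num)
  rw [show (4 + 1 : ℤ) = 5 by norm_num] at h1
  linear_combination (-1 / 2 : ℂ) * h1 + (1 / 2 : ℂ) * H4 hs

lemma H6 : s (1 / ((6 : ℤ) : ℚ)) = s (1 / ((3 : ℤ) : ℚ)) := by
  have h1 := cl3 hs (a := 1) (b := 1) (c := 5) (d := 6) (by norm_num) (by norm_num)
  have h2 : s (1 / ((5 : ℤ) : ℚ)) - s (1 / ((6 : ℤ) : ℚ)) = 0 := by exact_mod_cast h1
  linear_combination (-1 : ℂ) * h2 + H5 hs

lemma H7 : s (1 / ((7 : ℤ) : ℚ)) = 0 := by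
  have h1 := y_inv hs (j := 2) (k := 8) (by norm_num)
  have h2 := n hs (j := 7) (k := 8) (by norm_num)
  linear_combination h1 + h2 - H2 hs

theorem y_zero (h3 : s (1 / 3) = 0) : ∀ j : ℤ, 0 ≤ j → j < 15 → s (1 / (j : ℚ)) = 0 := by
  have K0 : s (1 / ((0 : ℤ) : ℚ)) = 0 := by rw [Int.cast_zero, hs.div_zero]
  have K1 : s (1 / ((1 : ℤ) : ℚ)) = 0 := by
    have := hs.int 1
    simpa using this
  have K3 : s (1 / ((3 : ℤ) : ℚ)) = 0 := by
    have e : ((3 : ℤ) : ℚ) = 3 := by norm_num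
    rw [e]; exact h3
  have K2 := H2 hs
  have K4 := H4 hs
  have K5 := H5 hs
  have K6 := H6 hs
  have K7 := H7 hs
  rw [K3] at K4 K5 K6
  rw [mul_zero] at K4
  intro j h0 h15
  interval_cases j
  · exact K0
  · exact K1
  · exact K2
  · exact K3
  · exact K4
  · exact K5
  · exact K6
  · exact K7
  · rw [n hs (j := 7) (k := 8) (by norm_num), K7, neg_zero]
  · rw [n hs (j := 6) (k := 9) (by norm_num), K6, neg_zero]
  · rw [n hs (j := 5) (k := 10) (by norm_num), K5, neg_zero]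
  · rw [n hs (j := 4) (k := 11) (by norm_num), K4, neg_zero]
  · rw [n hs (j := 3) (k := 12) (by norm_num), K3, neg_zero]
  · rw [n hs (j := 2) (k := 13) (by norm_num), K2, neg_zero]
  · rw [n hs (j := 1) (k := 14) (by norm_num), K1, neg_zero]

end

lemma classes : ∀ c d : ZMod 15, (∃ a b : ZMod 15, a * d - b * c = 1) →
    (∃ j : ZMod 15, d = j * c) ∨ (∃ j : ZMod 15, c = j * d) ∨ c * d = 0 := by
  decide +kernel

/-- the symbols of level `15` -/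
theorem symb15 (s : ℚ → ℂ) (hs : SymbC 15 s) (h3 : s (1 / 3) = 0) (r : ℚ) : s r = 0 := by
  have hy := y_zero hs h3
  have hv : ∀ j : ZMod 15, ((j.val : ℤ) : ZMod 15) = j := fun j => by
    push_cast
    exact ZMod.natCast_zmod_val j
  refine hs.eq_zero (fun a b c d h => ?_) r
  have h1 : ((a : ZMod 15)) * d - b * c = 1 := by exact_mod_cast congrArg (Int.cast (R := ZMod 15)) h
  rcases classes c d ⟨a, b, h1⟩ with ⟨j, hj⟩ | ⟨j, hj⟩ | hj
  · rw [cl1 hs h (j.val : ℤ) ?_]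
    · exact hy _ (by positivity) (by exact_mod_cast ZMod.val_lt j)
    · refine (ZMod.intCast_zmod_eq_zero_iff_dvd _ 15).1 ?_
      rw [Int.cast_sub, Int.cast_mul, hv, hj, sub_self]
  · rw [cl2 hs h (j.val : ℤ) ?_]
    · exact hy _ (by positivity) (by exact_mod_cast ZMod.val_lt j)
    · refine (ZMod.intCast_zmod_eq_zero_iff_dvd _ 15).1 ?_
      rw [Int.cast_sub, Int.cast_mul, hv, hj, sub_self]
  · refine cl3 hs h ((ZMod.intCast_zmod_eq_zero_iff_dvd _ 15).1 ?_)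
    rw [Int.cast_mul, hj]

end Pool.Agent.N975.RQ.D15
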