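import Pool.Agent.N975.RQ.Symb
import Pool.Agent.N975.RQ.D15
import Pool.Agent.N402.Dim.D17
import Pool.Agent.N402.Dim.D21
import Pool.Agent.N974.Gen.S21
import Pool.Agent.N974.MF.SymbDefs

/-!
# Comparison of the crossing numbers with the odd symbols of levels `15`, `17` and `21`
-/

set_option autoImplicit false

namespace Pool.Agent.N975.RQ

noncomputable section

variable {D : ℤ} {k : ℤ × ℤ × ℤ → ℤ} {s : ℚ → ℤ}

theorem uniq15 : Uniq 15 (1 / 3) := fun s hs h => D15.symb15 s hs h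

theorem uniq17 : Uniq 17 (1 / 3) := fun s hs h => N402.Dim.symb17 s hs h

theorem uniq21 : Uniq 21 (1 / 3) := fun s hs h => N402.Dim.symb21 s hs h

theorem Xr_third : Xr k (1 / 3) = X k 1 3 :=
  Xr_div' (k := k) 1 (m := 3) (by norm_num) (by norm_num)

/-- **comparison at level `21`**, at every cusp -/
theorem cmp21 (hs : SyZ 21 s) (H : Wt 21 D k) (P : Par k 1) (x : ℤ) {m : ℤ} (hm : m ≠ 0) :
    X k 1 3 * s ((x : ℚ) / m) = s (1 / 3) * X k x m := by
  have h := cmpZ (N := 21) (by norm_num) uniq21 hs (by exact_mod_cast H) P ((x : ℚ) / m)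
  rwa [Xr_third, Xr_div x hm] at h

/-- **comparison at level `17`**, at every cusp -/
theorem cmp17 (hs : SyZ 17 s) (H : Wt 17 D k) (P : Par k 1) (x : ℤ) {m : ℤ} (hm : m ≠ 0) :
    X k 1 3 * s ((x : ℚ) / m) = s (1 / 3) * X k x m := by
  have h := cmpZ (N := 17) (by norm_num) uniq17 hs (by exact_mod_cast H) P ((x : ℚ) / m)
  rwa [Xr_third, Xr_div x hm] at h

/-- **comparison at level `15`**, at every cusp -/
theorem cmp15 (hs : SyZ 15 s) (H : Wt 15 D k) (P : Par k 1) (x : ℤ) {m : ℤ} (hm : m ≠ 0) :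
    X k 1 3 * s ((x : ℚ) / m) = s (1 / 3) * X k x m := by
  have h := cmpZ (N := 15) (by norm_num) uniq15 hs (by exact_mod_cast H) P ((x : ℚ) / m)
  rwa [Xr_third, Xr_div x hm] at h

theorem syZ_21 {a : ℕ → ℤ} (g : N974.Gen.Symb21 s a) : SyZ 21 s :=
  ⟨g.per, g.neg, fun h r h0 => g.aff (by exact_mod_cast h) r (by exact_mod_cast h0),
    fun h hC => g.aff_inf (by exact_mod_cast h) hC⟩

theorem syZ_15 {a : ℕ → ℤ} (g : N974.MF.Symb15 s a) : SyZ 15 s :=
  ⟨g.per, g.neg, fun h r h0 => g.aff (by exact_mod_cast h) r (by exact_mod_cast h0),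
    fun h hC => g.aff_inf (by exact_mod_cast h) hC⟩

end

end Pool.Agent.N975.RQ
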