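import Pool.Agent.N975.RQ.Low
import Pool.Agent.N975.RQ.AL
import Pool.Agent.N975.RQ.Cmp
import Pool.Agent.N975.S21.All
import Pool.Agent.N975.T1Fin
import Pool.Agent.N975.T3

/-!
# **CMP** and **VAN** of project RQ
-/

set_option autoImplicit false

open Finset

namespace Pool.Agent.N975.RQ

open Pool.Agent.N975.Sym (ev act ev_act ev10)
open Pool.Agent.N969.P15 (c2 un)
open Pool.Agent.N969.RQ (Fd Un ud sgd ps J o3 o5 o7 R21 R21r R15 R15r)

noncomputable section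

/-! ### comparison -/

section

variable {D d : ℕ} {w : ℤ → ℤ} {s : ℚ → ℤ}

theorem J_cmp21 (hs : SyZ 21 s) (h : Fd D) (hd : d ∣ D) (hsg : sgd D d = 1) (hw : Ori 21 w)
    (x : ℤ) {M : ℤ} (hM : M ≠ 0) :
    J 21 w D d 1 3 * s ((x : ℚ) / M) = s (1 / 3) * J 21 w D d x M := by
  have h1 := cmp21 hs (k := K 21 w D d) (by exact_mod_cast wt_K h hd hw)
    (par_K (N := 21) (w := w) h hd hsg) x hM
  rw [X_K h hd hsg hw x hM, X_K h hd hsg hw 1 (by norm_num)] at h1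
  linarith

theorem J_cmp15 (hs : SyZ 15 s) (h : Fd D) (hd : d ∣ D) (hsg : sgd D d = 1) (hw : Ori 15 w)
    (x : ℤ) {M : ℤ} (hM : M ≠ 0) :
    J 15 w D d 1 3 * s ((x : ℚ) / M) = s (1 / 3) * J 15 w D d x M := by
  have h1 := cmp15 hs (k := K 15 w D d) (by exact_mod_cast wt_K h hd hw)
    (par_K (N := 15) (w := w) h hd hsg) x hM
  rw [X_K h hd hsg hw x hM, X_K h hd hsg hw 1 (by norm_num)] at h1
  linarith

end

theorem sum_cmp {J : ℤ → ℤ → ℤ} {s : ℚ → ℤ} {J0 s0 c : ℤ} (hs0 : s0 ≠ 0) {l : ℕ} (hl : l ≠ 0)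
    (h : ∀ (x : ℤ) {M : ℤ}, M ≠ 0 → J0 * s ((x : ℚ) / M) = s0 * J x M) {b : ℤ}
    (hc : b * ∑ u ∈ un l, jacobiSym u l * s ((u : ℚ) / l) = s0 * c ^ 2) :
    b * ∑ u ∈ un l, jacobiSym u l * J u l = J0 * c ^ 2 := by
  have h1 : J0 * (b * ∑ u ∈ un l, jacobiSym u l * s ((u : ℚ) / l)) =
      s0 * (b * ∑ u ∈ un l, jacobiSym u l * J u l) := by
    rw [Finset.mul_sum, Finset.mul_sum, Finset.mul_sum, Finset.mul_sum]
    refine Finset.sum_congr rfl fun u _ => ?_
    have h2 := h u (M := l) (by exact_mod_cast hl)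
    push_cast at h2
    linear_combination (b * jacobiSym u l) * h2
  rw [hc] at h1
  have h3 : s0 * (b * ∑ u ∈ un l, jacobiSym u l * J u l) = s0 * (J0 * c ^ 2) := by
    linear_combination -h1
  exact mul_left_cancel₀ hs0 h3

theorem r21_fd {D : ℕ} (h : R21 D ∨ R21r D) : Fd D := by
  rcases h with h | h
  · exact h.1
  · exact h.1

theorem r15_fd {D : ℕ} (h : R15 D ∨ R15r D) : Fd D := by
  rcases h with h | h
  · exact h.1
  · exact h.1

/-- **CMP21** -/
theorem t_CMP21 : Pool.Agent.N969.RQ.S_CMP21 := by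
  intro D d l hR hd hsg hl hcl
  have hF := r21_fd hR
  obtain ⟨s, κ, _, _, g⟩ := N402.MF21.symb21
  have hne := S21.sigma_ne g
  have hsum := S21.int0 g S21.All.s_DIAG hcl
  refine ⟨?_, fun _ => ?_⟩
  · exact sum_cmp hne hl.ne_zero (fun x M hM =>
      J_cmp21 (syZ_21 g) hF hd.1 hsg (ori_o3 (by norm_num)) x hM) hsum
  · exact sum_cmp hne hl.ne_zero (fun x M hM =>
      J_cmp21 (syZ_21 g) hF hd.1 hsg (ori_o7 (by norm_num)) x hM) hsum

theorem sum15 {s : ℚ → ℤ} {a : ℕ → ℤ} (g : N974.MF.Symb15 s a) {l : ℕ} (hl : N969.P15.Cls0 l) :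
    9 * ∑ u ∈ un l, jacobiSym u l * s ((u : ℚ) / l) = s (1 / 3) * N969.P15.cc l ^ 2 := by
  have h1 := Sym.sum_symb_eq T1.s_DIAG (T1.symbM_of g) hl
  rw [g.s14] at h1
  linarith

theorem exists15 : ∃ (s : ℚ → ℤ) (a : ℕ → ℤ), N974.MF.Symb15 s a := by
  obtain ⟨_, sm, _, _, _, _, _, _, _, h⟩ := N974.MF.exists_symb Lat15.s_lat
  exact ⟨sm, _, h⟩

/-- **CMP15** -/
theorem t_CMP15 : Pool.Agent.N969.RQ.S_CMP15 := by
  intro D d l hR hd hsg hl hcl
  have hF := r15_fd hR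
  obtain ⟨s, a, g⟩ := exists15
  have hne := T3.s13_ne g
  have hsum := sum15 g hcl
  refine ⟨?_, fun _ => ?_⟩
  · exact sum_cmp hne hl.ne_zero (fun x M hM =>
      J_cmp15 (syZ_15 g) hF hd.1 hsg (ori_o5 (by norm_num)) x hM) hsum
  · exact sum_cmp hne hl.ne_zero (fun x M hM =>
      J_cmp15 (syZ_15 g) hF hd.1 hsg (ori_o3 (by norm_num)) x hM) hsum

/-! ### the vanishing for the wrong classes -/

section van

variable {N D d : ℕ} {w : ℤ → ℤ} {Q R α B γ δ : ℤ}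

theorem K_al (h : Fd D) (hd : d ∣ D) (hQ : 0 < Q) (hQ2 : ¬ (2 : ℤ) ∣ Q)
    (hQd : IsCoprime Q (d : ℤ)) (hdet : Q * α * δ - R * B * γ = 1) (hN : (N : ℤ) = Q * R)
    {lam : ℤ} (hlam : ∀ a b c : ℤ, Q * R ∣ a →
      w (2 * α * B * a + (Q * α * δ + B * R * γ) * b + 2 * (Q * R) * γ * δ * c) = lam * w b)
    (q : ℤ × ℤ × ℤ) (hq : Q * R ∣ q.1) :
    K N w D d (al Q R α B γ δ q) = (lam * kr D d Q) * K N w D d q := by
  have hqQ : Q ∣ q.1 := (Dvd.intro _ rfl).trans hq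
  unfold K kw
  rw [al_disc hQ.ne' hdet hqQ, hN]
  by_cases h1 : q.2.1 ^ 2 - 4 * q.1 * q.2.2 = (D : ℤ)
  · rw [if_pos ⟨h1, al_dvd hq⟩, if_pos ⟨h1, hq⟩,
      ps_al h hd hQ.ne' hdet h1 hqQ hQ2 hQd]
    have h2 : w (al Q R α B γ δ q).2.1 = lam * w q.2.1 := hlam _ _ _ hq
    rw [h2]
    ring
  · rw [if_neg (fun h => h1 h.1), if_neg (fun h => h1 h.1), mul_zero]

/-- the crossing numbers under an Atkin-Lehner operator -/
theorem K_X (h : Fd D) (hd : d ∣ D) (hw : Ori N w) (hQ : 0 < Q) (hQ2 : ¬ (2 : ℤ) ∣ Q)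
    (hQd : IsCoprime Q (d : ℤ)) (hdet : Q * α * δ - R * B * γ = 1) (hN : (N : ℤ) = Q * R)
    {lam : ℤ} (hlam : ∀ a b c : ℤ, Q * R ∣ a →
      w (2 * α * B * a + (Q * α * δ + B * R * γ) * b + 2 * (Q * R) * γ * δ * c) = lam * w b)
    (hc : lam * kr D d Q = 1) {x m : ℤ} (hxm : x ≠ 0 ∨ m ≠ 0) :
    X (K N w D d) (Q * α * x + B * m) (Q * R * γ * x + Q * δ * m) -
      X (K N w D d) (Q * α) (Q * R * γ) = X (K N w D d) x m := by
  have hW := wt_K h hd hw
  rw [hN] at hW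
  have h1 := X_al hQ hdet hW (fun q hq => by
    by_contra h2
    apply hq
    unfold K kw
    rw [hN, if_neg (fun h => h2 h.2)]) (c := 1) (by norm_num) (fun q hq => by
      rw [K_al h hd hQ hQ2 hQd hdet hN hlam q hq, hc]) hxm
  rw [h1, one_mul]

end van

section van21

variable {D d : ℕ} {w : ℤ → ℤ} {s : ℚ → ℤ} {a : ℕ → ℤ}

/-- the operator `W_3` of level `21` -/
theorem van21_3 (g : N974.Gen.Symb21 s a) (h : Fd D) (hd : d ∣ D) (hsg : sgd D d = 1)
    (hw : Ori 21 w) {lam : ℤ} (hlam : ∀ a b c : ℤ, (21 : ℤ) ∣ a →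
      w (-24 * a + -55 * b + -126 * c) = lam * w b) (hcop : IsCoprime (3 : ℤ) (d : ℤ))
    (hc : lam * kr D d 3 = 1) : J 21 w D d 1 3 = 0 := by
  have h1 := K_X (N := 21) (Q := 3) (R := 7) (α := 3) (B := -4) (γ := 1) (δ := -3) h hd hw
    (by norm_num) (by norm_num) hcop (by norm_num) (by norm_num) (lam := lam) (by
      intro a b c ha
      have := hlam a b c (by simpa using ha)
      norm_num
      norm_num at this
      exact this) hc (x := 1) (m := 3) (Or.inl one_ne_zero)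
  norm_num at h1
  have hne := S21.sigma_ne g
  have e0 := J_cmp21 (syZ_21 g) h hd hsg hw (-3) (M := -6) (by norm_num)
  have e1 := J_cmp21 (syZ_21 g) h hd hsg hw 9 (M := 21) (by norm_num)
  rw [X_K h hd hsg hw (-3) (by norm_num), X_K h hd hsg hw 9 (by norm_num),
    X_K h hd hsg hw 1 (by norm_num)] at h1
  have hw3 := g.w3 (1 / 3) (by norm_num)
  have q1 : (9 * (1 / 3 : ℚ) - 4) / (21 * (1 / 3) - 9) = ((-3 : ℤ) : ℚ) / ((-6 : ℤ) : ℚ) := by
    norm_num
  have q2 : (3 / 7 : ℚ) = ((9 : ℤ) : ℚ) / ((21 : ℤ) : ℚ) := by norm_num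
  rw [q1, q2] at hw3
  rw [hw3] at e0
  have h2 : s (1 / 3) * J 21 w D d 1 3 = 0 := by
    have h3 : J 21 w D d (-3) (-6) - J 21 w D d 9 21 = J 21 w D d 1 3 := by omega
    have h4 : 2 * (s (1 / 3) * J 21 w D d 1 3) = 0 := by
      linear_combination (-(s (1 / 3))) * h3 - e0 + e1
    omega
  exact (mul_eq_zero.1 h2).resolve_left hne

/-- the operator `W_21` of level `21` -/
theorem van21_21 (g : N974.Gen.Symb21 s a) (h : Fd D) (hd : d ∣ D) (hsg : sgd D d = 1)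
    (hw : Ori 21 w) (hcop : IsCoprime (21 : ℤ) (d : ℤ)) (hc : -1 * kr D d 21 = 1) :
    J 21 w D d 1 3 = 0 := by
  have h1 := K_X (N := 21) (Q := 21) (R := 1) (α := 0) (B := -1) (γ := 1) (δ := 0) h hd hw
    (by norm_num) (by norm_num) hcop (by norm_num) (by norm_num) (lam := -1) (by
      intro a b c _
      have := hw.odd b
      norm_num
      exact this) hc (x := 1) (m := 3) (Or.inl one_ne_zero)
  norm_num at h1
  have hne := S21.sigma_ne g
  have e0 := J_cmp21 (syZ_21 g) h hd hsg hw (-3) (M := 21) (by norm_num)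
  rw [X_K h hd hsg hw (-3) (by norm_num), X_zero (par_K h hd hsg),
    X_K h hd hsg hw 1 (by norm_num)] at h1
  have hw21 := g.w21 (1 / 3) (by norm_num)
  have q1 : (-1 / (21 * (1 / 3 : ℚ))) = ((-3 : ℤ) : ℚ) / ((21 : ℤ) : ℚ) := by norm_num
  rw [q1] at hw21
  rw [hw21] at e0
  have h2 : s (1 / 3) * J 21 w D d 1 3 = 0 := by
    have h3 : J 21 w D d (-3) 21 = J 21 w D d 1 3 := by omega
    rw [h3] at e0
    have h4 : 2 * (s (1 / 3) * J 21 w D d 1 3) = 0 := by linear_combination -e0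
    omega
  exact (mul_eq_zero.1 h2).resolve_left hne

end van21

theorem kr3 {D d : ℕ} (h : Fd D) (hd : Un D d) (hsg : sgd D d = 1) :
    kr D d 3 = jacobiSym d 3 := by
  have := kr_jac h hd (u := 3) (by norm_num)
  rw [hsg, one_mul] at this
  exact_mod_cast this

theorem kr5 {D d : ℕ} (h : Fd D) (hd : Un D d) (hsg : sgd D d = 1) :
    kr D d 5 = jacobiSym d 5 := by
  have := kr_jac h hd (u := 5) (by norm_num)
  rw [hsg, one_mul] at this
  exact_mod_cast this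

theorem kr21 {D d : ℕ} (h : Fd D) (hd : Un D d) (hsg : sgd D d = 1) :
    kr D d 21 = jacobiSym d 3 * jacobiSym d 7 := by
  have := kr_jac h hd (u := 21) (by norm_num)
  rw [hsg, one_mul, show (21 : ℕ) = 3 * 7 by norm_num, jacobiSym.mul_right] at this
  exact_mod_cast this

theorem kr15 {D d : ℕ} (h : Fd D) (hd : Un D d) (hsg : sgd D d = 1) :
    kr D d 15 = jacobiSym d 3 * jacobiSym d 5 := by
  have := kr_jac h hd (u := 15) (by norm_num)
  rw [hsg, one_mul, show (15 : ℕ) = 3 * 5 by norm_num, jacobiSym.mul_right] at this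
  exact_mod_cast this

theorem cop_jac {p : ℕ} (hp : p.Prime) {d : ℕ} (h : jacobiSym d p ≠ 0) :
    IsCoprime (p : ℤ) (d : ℤ) := by
  rw [(Nat.prime_iff_prime_int.1 hp).coprime_iff_not_dvd]
  intro h1
  exact h (PG.jac_zero hp h1)

theorem jac_tri {p : ℕ} (hp : p.Prime) {d : ℤ} (h : ¬ (p : ℤ) ∣ d) :
    jacobiSym d p = 1 ∨ jacobiSym d p = -1 :=
  jacobiSym.eq_one_or_neg_one (PG.jac_cop hp h)

/-- `3` does not divide `d` -/
theorem nd3 {D d : ℕ} (h : D % 3 = 1) (hd : d ∣ D) : ¬ ((3 : ℕ) : ℤ) ∣ (d : ℤ) := by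
  intro h1
  have h2 : 3 ∣ d := by exact_mod_cast h1
  have h3 := h2.trans hd
  omega

theorem o3_eq (b : ℤ) : o3 b = jacobiSym b 3 := rfl

theorem o7_eq (b : ℤ) : o7 b = jacobiSym b 7 := rfl

/-- **VAN21** -/
theorem t_VAN21 : Pool.Agent.N969.RQ.S_VAN21 := by
  intro D d hR hd hsg
  have hF := r21_fd hR
  obtain ⟨s, κ, _, _, g⟩ := N402.MF21.symb21
  have hD3 : D % 3 = 1 := by
    rcases hR with h | h
    · exact h.2.1
    · exact h.2.1
  have h3 := jac_tri Nat.prime_three (nd3 hD3 hd.1)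
  have c3 : IsCoprime ((3 : ℕ) : ℤ) (d : ℤ) := cop_jac Nat.prime_three (by
    rcases h3 with h | h <;> rw [h] <;> norm_num)
  have l3 : ∀ a b c : ℤ, (21 : ℤ) ∣ a → o3 (-24 * a + -55 * b + -126 * c) = -1 * o3 b := by
    intro a b c _
    rw [neg_one_mul, ← (ori_o3 (N := 21) (by norm_num)).odd, o3_eq, o3_eq]
    refine jacobiSym.mod_left' ?_
    omega
  have l7 : ∀ a b c : ℤ, (21 : ℤ) ∣ a → o7 (-24 * a + -55 * b + -126 * c) = 1 * o7 b := by
    intro a b c _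
    rw [one_mul, o7_eq, o7_eq]
    refine jacobiSym.mod_left' ?_
    omega
  refine ⟨fun hj => ?_, fun hR1 hj => ?_⟩
  · rcases h3 with h3 | h3
    · have h7 : jacobiSym d 7 = -1 := by
        rcases hj with hj | hj
        · rw [h3] at hj; norm_num at hj
        · exact hj
      have c7 : IsCoprime ((7 : ℕ) : ℤ) (d : ℤ) := cop_jac (by norm_num) (by rw [h7]; norm_num)
      refine van21_21 g hF hd.1 hsg (ori_o3 (by norm_num)) ?_ ?_
      · have e : (21 : ℤ) = ((3 : ℕ) : ℤ) * ((7 : ℕ) : ℤ) := by norm_num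
        rw [e]
        exact c3.mul_left c7
      · rw [kr21 hF hd hsg, h3, h7]
        norm_num
    · exact van21_3 g hF hd.1 hsg (ori_o3 (by norm_num)) l3 (by exact_mod_cast c3) (by
        rw [kr3 hF hd hsg, h3]; norm_num)
  · rcases h3 with h3 | h3
    · exact van21_3 g hF hd.1 hsg (ori_o7 (by norm_num)) l7 (by exact_mod_cast c3) (by
        rw [kr3 hF hd hsg, h3]; norm_num)
    · have h7 : jacobiSym d 7 = 1 := by
        rcases hj with hj | hj
        · rw [h3] at hj; norm_num at hj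
        · exact hj
      have c7 : IsCoprime ((7 : ℕ) : ℤ) (d : ℤ) := cop_jac (by norm_num) (by rw [h7]; norm_num)
      refine van21_21 g hF hd.1 hsg (ori_o7 (by norm_num)) ?_ ?_
      · have e : (21 : ℤ) = ((3 : ℕ) : ℤ) * ((7 : ℕ) : ℤ) := by norm_num
        rw [e]
        exact c3.mul_left c7
      · rw [kr21 hF hd hsg, h3, h7]
        norm_num

section van15

variable {D d : ℕ} {w : ℤ → ℤ} {s : ℚ → ℤ} {a : ℕ → ℤ}

/-- the operator `W_5` of level `15` -/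
theorem van15_5 (g : N974.MF.Symb15 s a) (h : Fd D) (hd : d ∣ D) (hsg : sgd D d = 1)
    (hw : Ori 15 w) {lam : ℤ} (hlam : ∀ a b c : ℤ, (15 : ℤ) ∣ a →
      w (-4 * a + -11 * b + -30 * c) = lam * w b) (hcop : IsCoprime (5 : ℤ) (d : ℤ))
    (hc : lam * kr D d 5 = 1) : J 15 w D d 1 3 = 0 := by
  have h1 := K_X (N := 15) (Q := 5) (R := 3) (α := 1) (B := -2) (γ := 1) (δ := -1) h hd hw
    (by norm_num) (by norm_num) hcop (by norm_num) (by norm_num) (lam := lam) (by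
      intro a b c ha
      have := hlam a b c (by simpa using ha)
      norm_num
      norm_num at this
      exact this) hc (x := 1) (m := 4) (Or.inl one_ne_zero)
  norm_num at h1
  have hne := T3.s13_ne g
  have e0 := J_cmp15 (syZ_15 g) h hd hsg hw (-3) (M := -5) (by norm_num)
  have e1 := J_cmp15 (syZ_15 g) h hd hsg hw 5 (M := 15) (by norm_num)
  have e2 := J_cmp15 (syZ_15 g) h hd hsg hw 1 (M := 4) (by norm_num)
  rw [X_K h hd hsg hw (-3) (by norm_num), X_K h hd hsg hw 5 (by norm_num),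
    X_K h hd hsg hw 1 (by norm_num)] at h1
  have hw5 := g.w5 (1 / 4) (by norm_num)
  have q1 : (5 * (1 / 4 : ℚ) - 2) / (15 * (1 / 4) - 5) = ((-3 : ℤ) : ℚ) / ((-5 : ℤ) : ℚ) := by
    norm_num
  have q2 : ((5 : ℤ) : ℚ) / ((15 : ℤ) : ℚ) = 1 / 3 := by norm_num
  have q3 : ((1 : ℤ) : ℚ) / ((4 : ℤ) : ℚ) = 1 / 4 := by norm_num
  rw [q1] at hw5
  rw [q2] at e1
  rw [q3, g.s14] at e2
  rw [hw5, g.s14] at e0
  have h3 : J 15 w D d (-3) (-5) - J 15 w D d 5 15 = J 15 w D d 1 4 := by omega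
  have h4 : s (1 / 3) * J 15 w D d 1 3 = 0 := by
    have h5 : 4 * (s (1 / 3) * J 15 w D d 1 3) = 0 := by
      linear_combination (-(s (1 / 3))) * h3 - e0 + e1 + e2
    omega
  exact (mul_eq_zero.1 h4).resolve_left hne

/-- the operator `W_15` of level `15` -/
theorem van15_15 (g : N974.MF.Symb15 s a) (h : Fd D) (hd : d ∣ D) (hsg : sgd D d = 1)
    (hw : Ori 15 w) (hcop : IsCoprime (15 : ℤ) (d : ℤ)) (hc : -1 * kr D d 15 = 1) :
    J 15 w D d 1 3 = 0 := by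
  have h1 := K_X (N := 15) (Q := 15) (R := 1) (α := 0) (B := -1) (γ := 1) (δ := 0) h hd hw
    (by norm_num) (by norm_num) hcop (by norm_num) (by norm_num) (lam := -1) (by
      intro a b c _
      have := hw.odd b
      norm_num
      exact this) hc (x := 1) (m := 3) (Or.inl one_ne_zero)
  norm_num at h1
  have hne := T3.s13_ne g
  have e0 := J_cmp15 (syZ_15 g) h hd hsg hw (-3) (M := 15) (by norm_num)
  rw [X_K h hd hsg hw (-3) (by norm_num), X_zero (par_K h hd hsg),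
    X_K h hd hsg hw 1 (by norm_num)] at h1
  have hw15 := g.w15 (1 / 3) (by norm_num)
  have q1 : (-1 / (15 * (1 / 3 : ℚ))) = ((-3 : ℤ) : ℚ) / ((15 : ℤ) : ℚ) := by norm_num
  rw [q1] at hw15
  rw [hw15] at e0
  have h2 : s (1 / 3) * J 15 w D d 1 3 = 0 := by
    have h3 : J 15 w D d (-3) 15 = J 15 w D d 1 3 := by omega
    rw [h3] at e0
    have h4 : 2 * (s (1 / 3) * J 15 w D d 1 3) = 0 := by linear_combination -e0
    omega
  exact (mul_eq_zero.1 h2).resolve_left hne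

end van15

/-- **VAN15** -/
theorem t_VAN15 : Pool.Agent.N969.RQ.S_VAN15 := by
  intro D d hR hd hsg
  have hF := r15_fd hR
  obtain ⟨s, a, g⟩ := exists15
  have hD5 : jacobiSym D 5 = 1 := by
    rcases hR with h | h
    · exact h.2.2
    · exact h.2.2
  have p5 : Nat.Prime 5 := by norm_num
  have nd5 : ¬ ((5 : ℕ) : ℤ) ∣ (d : ℤ) := by
    intro h1
    have h2 : ((5 : ℕ) : ℤ) ∣ (D : ℤ) := h1.trans (Int.natCast_dvd_natCast.2 hd.1)
    rw [PG.jac_zero p5 h2] at hD5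
    norm_num at hD5
  have h5 := jac_tri p5 nd5
  have c5 : IsCoprime ((5 : ℕ) : ℤ) (d : ℤ) := cop_jac p5 (by
    rcases h5 with h | h <;> rw [h] <;> norm_num)
  have l5 : ∀ a b c : ℤ, (15 : ℤ) ∣ a → o5 (-4 * a + -11 * b + -30 * c) = -1 * o5 b := by
    intro a b c ha
    rw [neg_one_mul, ← (ori_o5 (N := 15) (by norm_num)).odd]
    unfold o5
    have e : (-4 * a + -11 * b + -30 * c) % 5 = (-b) % 5 := by omega
    rw [e]
  have l3 : ∀ a b c : ℤ, (15 : ℤ) ∣ a → o3 (-4 * a + -11 * b + -30 * c) = 1 * o3 b := by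
    intro a b c ha
    rw [one_mul, o3_eq, o3_eq]
    refine jacobiSym.mod_left' ?_
    omega
  refine ⟨fun hj => ?_, fun hR1 hj => ?_⟩
  · rcases h5 with h5 | h5
    · have h3 : jacobiSym d 3 = -1 := by
        rcases hj with hj | hj
        · exact hj
        · rw [h5] at hj; norm_num at hj
      have c3 : IsCoprime ((3 : ℕ) : ℤ) (d : ℤ) := cop_jac Nat.prime_three (by rw [h3]; norm_num)
      refine van15_15 g hF hd.1 hsg (ori_o5 (by norm_num)) ?_ ?_
      · have e : (15 : ℤ) = ((3 : ℕ) : ℤ) * ((5 : ℕ) : ℤ) := by norm_num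
        rw [e]
        exact c3.mul_left c5
      · rw [kr15 hF hd hsg, h3, h5]
        norm_num
    · exact van15_5 g hF hd.1 hsg (ori_o5 (by norm_num)) l5 (by exact_mod_cast c5) (by
        rw [kr5 hF hd hsg, h5]; norm_num)
  · rcases h5 with h5 | h5
    · exact van15_5 g hF hd.1 hsg (ori_o3 (by norm_num)) l3 (by exact_mod_cast c5) (by
        rw [kr5 hF hd hsg, h5]; norm_num)
    · have h3 : jacobiSym d 3 = 1 := by
        rcases hj with hj | hj
        · exact hj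
        · rw [h5] at hj; norm_num at hj
      have c3 : IsCoprime ((3 : ℕ) : ℤ) (d : ℤ) := cop_jac Nat.prime_three (by rw [h3]; norm_num)
      refine van15_15 g hF hd.1 hsg (ori_o3 (by norm_num)) ?_ ?_
      · have e : (15 : ℤ) = ((3 : ℕ) : ℤ) * ((5 : ℕ) : ℤ) := by norm_num
        rw [e]
        exact c3.mul_left c5
      · rw [kr15 hF hd hsg, h3, h5]
        norm_num

end

end Pool.Agent.N975.RQ
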