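import Pool.Agent.N975.RQ.Du
import Pool.Agent.N833.P21.CW
import Pool.Agent.N295.P15.C2
import Pool.Agent.N295.P15.C2E
import Pool.Agent.N295.P15.C3

/-!
# RQ (helper975): evaluation of the dual divisor sums (C2D)
-/

set_option autoImplicit false

namespace Pool.Agent.N975.RQ.Du

open Finset
open Pool.Agent.N969.P15 (ep2 psp psp2 c2 Ev)
open Pool.Agent.N969.P17G (sgp psl)
open Pool.Agent.N969.RQ
open Pool.Agent.N816.P17.Flip (toggle js_sq js_zero jn jc je jsq jz dvd_mul_iff psl_T psp_T psl_S psp_S)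
open Pool.Agent.Y574.Z7 (chp chp_mul chp_one chp_self chp_nd)
open Pool.Agent.N295.P15.E (c2_mul c2_sq oc_nd pf_prime pf_dvd)

/-- the symbols at the primes dividing `A` -/
def RR (A a a' Y X : ℕ) : ℤ :=
  (if 2 ∣ A then psp2 (3 * A) a a' Y X else 1) * ∏ p ∈ A.primeFactors.erase 2, psp p a a' Y X

/-- the value of the characters at `l` -/
def ee (A l : ℕ) : ℤ := (if 2 ∣ A then c2 (3 * A) l else 1) *
  ∏ p ∈ A.primeFactors.erase 2, jacobiSym l p

theorem c2_pow (n : ℕ) (x : ℤ) (t : ℕ) : c2 n (x ^ t) = c2 n x ^ t := by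
  induction t with
  | zero => rw [pow_zero, pow_zero]; exact Pool.Agent.N295.P15.E.c2_one n
  | succ t ih => rw [pow_succ, c2_mul, ih, pow_succ]

theorem psp2_T {n c : ℕ} (hc : c % 2 = 1) (a a' Y X : ℕ) :
    psp2 n a (a' * c) Y X = c2 n c * psp2 n a a' Y (X * c) := by
  have h : c2 n c * c2 n c = 1 := c2_sq n (by omega)
  have h1 : a' * c % 2 = a' % 2 := by rw [Nat.mul_mod, hc, mul_one, Nat.mod_mod]
  unfold psp2
  rw [h1]
  split_ifs
  · have : (-((a * (X * c) : ℕ) : ℤ)) = -((a * X : ℕ) : ℤ) * c := by push_cast; ring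
    rw [this, c2_mul]
    linear_combination (-(c2 n (-((a * X : ℕ) : ℤ)))) * h
  · have : ((a' * c * Y : ℕ) : ℤ) = c * ((a' * Y : ℕ) : ℤ) := by push_cast; ring
    rw [this, c2_mul]
  · rw [mul_zero]

theorem psp2_S {n c : ℕ} (hc : c % 2 = 1) (a a' Y X : ℕ) :
    psp2 n (a * c) a' Y X = c2 n c * psp2 n a a' (Y * c) X := by
  have h : c2 n c * c2 n c = 1 := c2_sq n (by omega)
  have h1 : a * c % 2 = a % 2 := by rw [Nat.mul_mod, hc, mul_one, Nat.mod_mod]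
  unfold psp2
  rw [h1]
  split_ifs
  · have : (-((a * c * X : ℕ) : ℤ)) = c * -((a * X : ℕ) : ℤ) := by push_cast; ring
    rw [this, c2_mul]
  · have : ((a' * (Y * c) : ℕ) : ℤ) = ((a' * Y : ℕ) : ℤ) * c := by push_cast; ring
    rw [this, c2_mul]
    linear_combination (-(c2 n ((a' * Y : ℕ) : ℤ))) * h
  · rw [mul_zero]

section

variable {A l : ℕ} (hl : l.Prime) (h4 : l % 4 = 3) (hd : ¬ l ∣ A)

include hl hd in
theorem nq {t q : ℕ} (hq : q ∈ A.primeFactors.erase 2) : ¬ q ∣ l ^ t := fun h => by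
  have h1 := Finset.mem_of_mem_erase hq
  exact hd ((Nat.prime_dvd_prime_iff_eq (pf_prime h1) hl).1 ((pf_prime h1).dvd_of_dvd_pow h) ▸
    pf_dvd h1)

include hl hd in
theorem eeR (t : ℕ) : ∏ q ∈ A.primeFactors.erase 2, jacobiSym ((l ^ t : ℕ) : ℤ) q =
    (∏ p ∈ A.primeFactors.erase 2, jacobiSym l p) ^ t := by
  rw [← Finset.prod_pow]
  refine Finset.prod_congr rfl fun q _ => ?_
  rw [Nat.cast_pow, jacobiSym.pow_left]

include hl h4 hd in
theorem RR_T (t a a' Y X : ℕ) : RR A a (a' * l ^ t) Y X = ee A l ^ t * RR A a a' Y (X * l ^ t) := by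
  have ho : l ^ t % 2 = 1 := Nat.odd_iff.1 ((Nat.odd_iff.2 (by omega)).pow)
  have e1 : ∏ p ∈ A.primeFactors.erase 2, psp p a (a' * l ^ t) Y X =
      (∏ p ∈ A.primeFactors.erase 2, jacobiSym l p) ^ t *
        ∏ p ∈ A.primeFactors.erase 2, psp p a a' Y (X * l ^ t) := by
    rw [← eeR hl hd, ← Finset.prod_mul_distrib]
    exact Finset.prod_congr rfl fun q hq => by
      rw [psp_T (pf_prime (Finset.mem_of_mem_erase hq)) (nq hl hd hq)]
  unfold RR ee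
  rw [e1, mul_pow]
  by_cases h2 : 2 ∣ A
  · rw [if_pos h2, if_pos h2, if_pos h2, psp2_T ho, Nat.cast_pow, c2_pow]; ring
  · rw [if_neg h2, if_neg h2, if_neg h2, one_pow]; ring

include hl h4 hd in
theorem RR_S (t a a' Y X : ℕ) : RR A (a * l ^ t) a' Y X = ee A l ^ t * RR A a a' (Y * l ^ t) X := by
  have ho : l ^ t % 2 = 1 := Nat.odd_iff.1 ((Nat.odd_iff.2 (by omega)).pow)
  have e1 : ∏ p ∈ A.primeFactors.erase 2, psp p (a * l ^ t) a' Y X =
      (∏ p ∈ A.primeFactors.erase 2, jacobiSym l p) ^ t *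
        ∏ p ∈ A.primeFactors.erase 2, psp p a a' (Y * l ^ t) X := by
    rw [← eeR hl hd, ← Finset.prod_mul_distrib]
    exact Finset.prod_congr rfl fun q hq => by
      rw [psp_S (pf_prime (Finset.mem_of_mem_erase hq)) (nq hl hd hq)]
  unfold RR ee
  rw [e1, mul_pow]
  by_cases h2 : 2 ∣ A
  · rw [if_pos h2, if_pos h2, if_pos h2, psp2_S ho, Nat.cast_pow, c2_pow]; ring
  · rw [if_neg h2, if_neg h2, if_neg h2, one_pow]; ring

include hl hd in
theorem pf_mul (hA : A ≠ 0) : (A * l).primeFactors = insert l A.primeFactors := by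
  rw [Nat.primeFactors_mul hA hl.ne_zero, hl.primeFactors, Finset.union_comm]
  rfl

include hl hd in
theorem pf_mul2 (hA : A ≠ 0) (h2 : l ≠ 2) :
    (A * l).primeFactors.erase 2 = insert l (A.primeFactors.erase 2) := by
  rw [pf_mul hl hd hA, Finset.erase_insert_of_ne h2]

include hl hd in
theorem nm (t : Finset ℕ) (h : t ⊆ A.primeFactors) : l ∉ t := fun h1 => hd (pf_dvd (h h1))

theorem Fd_ne {A : ℕ} (h : Fd A) : A ≠ 0 := by have := h.1; omega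

theorem Fd_odd {A : ℕ} (h : Fd A) (h2 : ¬ 2 ∣ A) : Squarefree A ∧ A % 4 = 1 := by
  rcases h.2 with h | ⟨M, h, _⟩
  · exact h
  · omega

theorem Fd_ev {A : ℕ} (h : Fd A) (h2 : 2 ∣ A) :
    ∃ M : ℕ, A = 4 * M ∧ Squarefree M ∧ (M % 4 = 2 ∨ M % 4 = 3) := by
  rcases h.2 with ⟨_, h⟩ | h
  · omega
  · exact h

include hl h4 hd in
/-- the determinant `A l`, odd -/
theorem nO (hA : Fd A) (h2 : ¬ 2 ∣ A) : Squarefree (A * l) ∧ A * l % 4 = 3 := by
  obtain ⟨h1, h3⟩ := Fd_odd hA h2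
  refine ⟨(Nat.squarefree_mul ((Nat.Prime.coprime_iff_not_dvd hl).2 hd).symm).2
    ⟨h1, hl.squarefree⟩, ?_⟩
  rw [Nat.mul_mod, h3, h4]

include hl h4 hd in
/-- the determinant `A l`, even -/
theorem nE (hA : Fd A) (h2 : 2 ∣ A) : Ev (A * l) := by
  obtain ⟨M, h1, h3, h5⟩ := Fd_ev hA h2
  refine ⟨M * l, by rw [h1]; ring, ?_, ?_⟩
  · exact (Nat.squarefree_mul ((Nat.Prime.coprime_iff_not_dvd hl).2
      fun h => hd (h1 ▸ h.mul_left 4)).symm).2 ⟨h3, hl.squarefree⟩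
  · have h6 : M * l % 4 = M % 4 * (l % 4) % 4 := Nat.mul_mod _ _ _
    rw [h4] at h6
    rcases h5 with h5 | h5 <;> rw [h5] at h6 <;> omega

include h4 in
theorem c2_A (hA : Fd A) (h2 : 2 ∣ A) : c2 (3 * A) = c2 (A * l) := by
  obtain ⟨M, h1, h3, h5⟩ := Fd_ev hA h2
  have h6 : M * l % 8 = M % 8 * (l % 8) % 8 := Nat.mul_mod _ _ _
  have h7 : A * l = 4 * (M * l) := by rw [h1]; ring
  funext u
  unfold c2
  have hl8 : l % 8 = 3 ∨ l % 8 = 7 := by omega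
  have hM8 : M % 8 = 2 ∨ M % 8 = 6 ∨ M % 8 = 3 ∨ M % 8 = 7 := by omega
  have key : (3 * A % 16 = 4 ↔ A * l % 16 = 4) ∧ (3 * A % 32 = 8 ↔ A * l % 32 = 8) := by
    rw [h7, h1]
    rcases hl8 with h | h <;> rcases hM8 with h' | h' | h' | h' <;> rw [h, h'] at h6 <;> omega
  simp only [key.1, key.2]

include h4 in
theorem psp2_A (hA : Fd A) (h2 : 2 ∣ A) (a a' Y X : ℕ) :
    psp2 (3 * A) a a' Y X = psp2 (A * l) a a' Y X := by
  unfold psp2
  rw [c2_A h4 hA h2]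

include hl h4 hd in
theorem ee_eq (hA : Fd A) : ee A l = jacobiSym A l := by
  have hA0 := Fd_ne hA
  have hl2 : l ≠ 2 := by omega
  have e1 : chp l (A * l) = jacobiSym A l := by
    rw [chp_mul, chp_self hl, mul_one, chp_nd hd]
  have hm : l ∈ (A * l).primeFactors :=
    Nat.mem_primeFactors.2 ⟨hl, dvd_mul_left l A, mul_ne_zero hA0 hl.ne_zero⟩
  have e2 : ∏ q ∈ A.primeFactors.erase 2, chp q l = ∏ p ∈ A.primeFactors.erase 2, jacobiSym l p := by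
    refine Finset.prod_congr rfl fun q hq => chp_nd fun h => ?_
    exact nq hl hd (t := 1) hq (by rwa [pow_one])
  by_cases h2 : 2 ∣ A
  · have hf : Pool.Agent.N295.P15.E.Fd (A * l) := ⟨nE hl h4 hd hA h2⟩
    have h5 := hf.Ps_p (Finset.mem_erase.2 ⟨hl2, hm⟩)
    rw [hf.Ps_split, pf_mul2 hl hd hA0 hl2, Finset.prod_insert (nm hl hd _ (Finset.erase_subset _ _)),
      chp_self hl, one_mul, e2, e1, oc_nd (by omega)] at h5
    unfold ee
    rw [if_pos h2, c2_A h4 hA h2, h5]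
  · obtain ⟨h5, h6⟩ := nO hl h4 hd hA h2
    have hf : Pool.Agent.N295.P15.Fd (A * l) := ⟨h5, h6⟩
    have h7 := hf.Ps_p hm
    unfold Pool.Agent.N295.P15.Ps at h7
    have h8 : A.primeFactors.erase 2 = A.primeFactors :=
      Finset.erase_eq_of_notMem fun h => h2 (pf_dvd h)
    rw [h8] at e2
    rw [pf_mul hl hd hA0, Finset.prod_insert (nm hl hd _ subset_rfl), chp_self hl, one_mul, e2,
      e1] at h7
    unfold ee
    rw [if_neg h2, one_mul, h8, h7]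

include hl h4 hd in
theorem ee_sq (hA : Fd A) : ee A l * ee A l = 1 := by
  rw [ee_eq hl h4 hd hA]
  exact jsq hl hd

include hl h4 hd in
/-- the flip -/
theorem flip (hA : Fd A) (Q Q' : ℕ → Prop) [DecidablePred Q] [DecidablePred Q']
    (hQ : ∀ x t : ℕ, Q (x * l ^ t) ↔ Q x) (hQ' : ∀ x t : ℕ, Q' (x * l ^ t) ↔ Q' x)
    {S T : ℕ} (hST : S + T = A * l) (hS0 : S ≠ 0) (hT0 : T ≠ 0) :
    WF Q Q' (wd A l) S T = sl A l T * WF Q Q' (Rf (RR A) l) S T := by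
  have h1 : jacobiSym (-1) l = -1 := by
    rw [jacobiSym.at_neg_one (Nat.odd_iff.2 (by omega)), ZMod.χ₄_nat_three_mod_four h4]
  have h2 := step (RR A) Q Q' (ee_sq hl h4 hd hA) (RR_T hl h4 hd) (RR_S hl h4 hd) hQ hQ' hl hd hST
    hS0 hT0 (ee_eq hl h4 hd hA)
  rw [h1] at h2
  have h3 : wd A l = Lf (RR A) l := rfl
  rw [h3, h2]
  unfold sl
  ring

include hl hd in
theorem Rf_odd (hA : Fd A) (h2 : ¬ 2 ∣ A) (a a' Y X : ℕ) :
    Rf (RR A) l a a' Y X = ∏ p ∈ (A * l).primeFactors, psp p a a' Y X := by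
  have h8 : A.primeFactors.erase 2 = A.primeFactors :=
    Finset.erase_eq_of_notMem fun h => h2 (pf_dvd h)
  unfold Rf RR
  rw [if_neg h2, one_mul, h8, pf_mul hl hd (Fd_ne hA), Finset.prod_insert (nm hl hd _ subset_rfl)]

include hl h4 hd in
theorem Rf_ev (hA : Fd A) (h2 : 2 ∣ A) (a a' Y X : ℕ) :
    Rf (RR A) l a a' Y X =
      psp2 (A * l) a a' Y X * ∏ p ∈ (A * l).primeFactors.erase 2, psp p a a' Y X := by
  unfold Rf RR
  rw [if_pos h2, psp2_A h4 hA h2, pf_mul2 hl hd (Fd_ne hA) (by omega),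
    Finset.prod_insert (nm hl hd _ (Finset.erase_subset _ _))]
  ring

end

theorem inv_dvd {q l : ℕ} (hq : q.Prime) (hl : l.Prime) (h : q ≠ l) (x t : ℕ) :
    q ∣ x * l ^ t ↔ q ∣ x :=
  dvd_mul_iff hq (fun h1 => h ((Nat.prime_dvd_prime_iff_eq hq hl).1 (hq.dvd_of_dvd_pow h1))) x

theorem jm7 {x : ℕ} (h : jacobiSym x 7 = 1) : x % 7 = 1 ∨ x % 7 = 2 ∨ x % 7 = 4 := by
  rw [jacobiSym.mod_left] at h
  have h1 : ((x : ℤ)) % ((7 : ℕ) : ℤ) = ((x % 7 : ℕ) : ℤ) := by push_cast; rfl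
  rw [h1] at h
  have h2 : x % 7 < 7 := Nat.mod_lt _ (by norm_num)
  generalize x % 7 = y at h h2
  interval_cases y <;> revert h <;> norm_num

theorem jm5 {x : ℕ} (h : jacobiSym x 5 = 1) : x % 5 = 1 ∨ x % 5 = 4 := by
  rw [jacobiSym.mod_left] at h
  have h1 : ((x : ℤ)) % ((5 : ℕ) : ℤ) = ((x % 5 : ℕ) : ℤ) := by push_cast; rfl
  rw [h1] at h
  have h2 : x % 5 < 5 := Nat.mod_lt _ (by norm_num)
  generalize x % 5 = y at h h2
  interval_cases y <;> revert h <;> norm_num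

theorem sp7 {A l : ℕ} (h : jacobiSym A 7 = 1) (hl : N877.P21.Sp7 l) : N877.P21.Sp7 (A * l) := by
  have h1 := jm7 h
  have h2 : A * l % 7 = A % 7 * (l % 7) % 7 := Nat.mul_mod _ _ _
  unfold N877.P21.Sp7 at hl ⊢
  rcases h1 with h1 | h1 | h1 <;> rcases hl with hl | hl | hl <;> rw [h1, hl] at h2 <;> omega

theorem m31 {A l : ℕ} (h : A % 3 = 1) (hl : l % 3 = 1) : A * l % 3 = 1 := by
  rw [Nat.mul_mod, h, hl]

theorem m32 {A l : ℕ} (h : A % 3 = 1) (hl : l % 3 = 2) : A * l % 3 = 2 := by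
  rw [Nat.mul_mod, h, hl]

theorem m5 {A l : ℕ} (h : jacobiSym A 5 = 1) (hl : l % 5 = 2 ∨ l % 5 = 3) :
    A * l % 5 = 2 ∨ A * l % 5 = 3 := by
  have h1 := jm5 h
  have h2 : A * l % 5 = A % 5 * (l % 5) % 5 := Nat.mul_mod _ _ _
  rcases h1 with h1 | h1 <;> rcases hl with hl | hl <;> rw [h1, hl] at h2 <;> omega

theorem t_C2D21 : S_C2D21 := by
  intro A l hA hl hcl hd T hT0 hTn hT3 hS7
  obtain ⟨_, h4, h3, h7⟩ := hcl
  have hf := hA.1
  have hl7 : (7 : ℕ) ≠ l := by rintro rfl; unfold N877.P21.Sp7 at h7; omega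
  have hl3 : (3 : ℕ) ≠ l := by rintro rfl; omega
  have hfl := flip hl h4 hd hf (7 ∣ ·) (3 ∣ ·) (fun x t => inv_dvd (by norm_num) hl hl7 x t)
    (fun x t => inv_dvd Nat.prime_three hl hl3 x t) (S := A * l - T) (T := T) (by omega) (by omega)
    (by omega)
  have e0 : WD 7 3 A l (A * l - T) T = WF (7 ∣ ·) (3 ∣ ·) (wd A l) (A * l - T) T := rfl
  rw [e0, hfl]
  unfold ld21
  by_cases h2 : 2 ∣ A
  · have hn : N877.P21.Cls0e (A * l) := ⟨nE hl h4 hd hf h2, m31 hA.2.1 h3, sp7 hA.2.2 h7⟩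
    have e1 : WF (7 ∣ ·) (3 ∣ ·) (Rf (RR A) l) (A * l - T) T =
        N877.P21.WWe (A * l) (A * l - T) T := by
      unfold WF N877.P21.WWe
      exact Finset.sum_congr rfl fun a _ => Finset.sum_congr rfl fun a' _ =>
        Rf_ev hl h4 hd hf h2 _ _ _ _
    rw [e1, N833.P21.t_C2E _ hn _ (Or.inl rfl) T hT0 hTn hT3 hS7, if_pos (h2.mul_right l)]
    ring
  · have hO := nO hl h4 hd hf h2
    have hn : N877.P21.Cls0 (A * l) := ⟨hO.1, hO.2, m31 hA.2.1 h3, sp7 hA.2.2 h7⟩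
    have e1 : WF (7 ∣ ·) (3 ∣ ·) (Rf (RR A) l) (A * l - T) T =
        N877.P21.WW (A * l) (A * l - T) T := by
      unfold WF N877.P21.WW
      exact Finset.sum_congr rfl fun a _ => Finset.sum_congr rfl fun a' _ =>
        Rf_odd hl hd hf h2 _ _ _ _
    rw [e1, N833.P21.t_C2A _ hn T hT0 hTn hT3 hS7, if_neg (by omega)]
    ring

theorem t_C2D21r : S_C2D21r := by
  intro A l hA hl hcl hd T hT0 hTn hT3 hT7
  obtain ⟨_, h4, h3, h7⟩ := hcl
  have hf := hA.1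
  have hl7 : (7 : ℕ) ≠ l := by rintro rfl; unfold N877.P21.Sp7 at h7; omega
  have hl3 : (3 : ℕ) ≠ l := by rintro rfl; omega
  have i7 := fun x t => inv_dvd (q := 7) (by norm_num) hl hl7 x t
  have i3 := fun x t => inv_dvd (q := 3) Nat.prime_three hl hl3 x t
  have hfl := flip hl h4 hd hf (fun a => ¬ 7 ∣ a) (fun a' => 3 ∣ a' ∧ ¬ 7 ∣ a')
    (fun x t => not_congr (i7 x t)) (fun x t => and_congr (i3 x t) (not_congr (i7 x t)))
    (S := A * l - T) (T := T) (by omega) (by omega) (by omega)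
  have e0 : WDr 7 3 A l (A * l - T) T =
    WF (fun a => ¬ 7 ∣ a) (fun a' => 3 ∣ a' ∧ ¬ 7 ∣ a') (wd A l) (A * l - T) T := rfl
  rw [e0, hfl]
  unfold ld21r
  by_cases h2 : 2 ∣ A
  · have hn : N877.P21.Cl7e (A * l) := ⟨nE hl h4 hd hf h2, hA.2.2.mul_right l, m31 hA.2.1 h3⟩
    have e1 : WF (fun a => ¬ 7 ∣ a) (fun a' => 3 ∣ a' ∧ ¬ 7 ∣ a') (Rf (RR A) l) (A * l - T) T =
        N877.P21.WWAe (A * l) (A * l - T) T := by
      unfold WF N877.P21.WWAe
      exact Finset.sum_congr rfl fun a _ => Finset.sum_congr rfl fun a' _ =>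
        Rf_ev hl h4 hd hf h2 _ _ _ _
    rw [e1, N833.P21.t_C27E _ hn _ (Or.inl rfl) T hT0 hTn hT3 hT7, if_pos (h2.mul_right l)]
    ring
  · have hO := nO hl h4 hd hf h2
    have hn : N877.P21.Cl7 (A * l) := ⟨hO.1, hO.2, hA.2.2.mul_right l, m31 hA.2.1 h3⟩
    have e1 : WF (fun a => ¬ 7 ∣ a) (fun a' => 3 ∣ a' ∧ ¬ 7 ∣ a') (Rf (RR A) l) (A * l - T) T =
        N877.P21.WWA (A * l) (A * l - T) T := by
      unfold WF N877.P21.WWA
      exact Finset.sum_congr rfl fun a _ => Finset.sum_congr rfl fun a' _ =>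
        Rf_odd hl hd hf h2 _ _ _ _
    rw [e1, N833.P21.t_C27A _ hn T hT0 hTn hT3 hT7, if_neg (by omega)]
    ring

theorem t_C2D15 : S_C2D15 := by
  intro A l hA hl hcl hd T hT0 hTn hT5 hS3
  obtain ⟨_, h60⟩ := hcl
  have h4 : l % 4 = 3 := by omega
  have h3 : l % 3 = 2 := by omega
  have h5 : l % 5 = 2 ∨ l % 5 = 3 := by omega
  have hf := hA.1
  have hl3 : (3 : ℕ) ≠ l := by rintro rfl; omega
  have hl5 : (5 : ℕ) ≠ l := by rintro rfl; omega
  have hfl := flip hl h4 hd hf (3 ∣ ·) (5 ∣ ·) (fun x t => inv_dvd Nat.prime_three hl hl3 x t)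
    (fun x t => inv_dvd (by norm_num) hl hl5 x t) (S := A * l - T) (T := T) (by omega) (by omega)
    (by omega)
  have e0 : WD 3 5 A l (A * l - T) T = WF (3 ∣ ·) (5 ∣ ·) (wd A l) (A * l - T) T := rfl
  rw [e0, hfl]
  unfold ld15
  by_cases h2 : 2 ∣ A
  · have hn : N969.P15.Cls0e (A * l) := ⟨nE hl h4 hd hf h2, m32 hA.2.1 h3, m5 hA.2.2 h5⟩
    have e1 : WF (3 ∣ ·) (5 ∣ ·) (Rf (RR A) l) (A * l - T) T =
        N969.P15.WWe (A * l) (A * l - T) T := by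
      unfold WF N969.P15.WWe
      exact Finset.sum_congr rfl fun a _ => Finset.sum_congr rfl fun a' _ =>
        Rf_ev hl h4 hd hf h2 _ _ _ _
    rw [e1, N295.P15.E.t_C2E _ hn _ (Or.inl rfl) T hT0 hTn hT5 hS3, if_pos (h2.mul_right l)]
    ring
  · have hO := nO hl h4 hd hf h2
    have hn : N969.P15.Cls0 (A * l) := ⟨hO.1, by
      have := m32 hA.2.1 h3
      have := m5 hA.2.2 h5
      have := hO.2
      omega⟩
    have e1 : WF (3 ∣ ·) (5 ∣ ·) (Rf (RR A) l) (A * l - T) T =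
        N969.P15.WW (A * l) (A * l - T) T := by
      unfold WF N969.P15.WW
      exact Finset.sum_congr rfl fun a _ => Finset.sum_congr rfl fun a' _ =>
        Rf_odd hl hd hf h2 _ _ _ _
    rw [e1, N295.P15.t_C2A _ hn T hT0 hTn hT5 hS3, if_neg (by omega)]
    ring

theorem t_C2D15r : S_C2D15r := by
  intro A l hA hl hcl hd T hT0 hTn hT5 hT3
  obtain ⟨_, h60⟩ := hcl
  have h4 : l % 4 = 3 := by omega
  have h3 : l % 3 = 2 := by omega
  have h5 : l % 5 = 2 ∨ l % 5 = 3 := by omega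
  have hf := hA.1
  have hl3 : (3 : ℕ) ≠ l := by rintro rfl; omega
  have hl5 : (5 : ℕ) ≠ l := by rintro rfl; omega
  have i3 := fun x t => inv_dvd (q := 3) Nat.prime_three hl hl3 x t
  have i5 := fun x t => inv_dvd (q := 5) (by norm_num) hl hl5 x t
  have hfl := flip hl h4 hd hf (fun a => ¬ 3 ∣ a) (fun a' => 5 ∣ a' ∧ ¬ 3 ∣ a')
    (fun x t => not_congr (i3 x t)) (fun x t => and_congr (i5 x t) (not_congr (i3 x t)))
    (S := A * l - T) (T := T) (by omega) (by omega) (by omega)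
  have e0 : WDr 3 5 A l (A * l - T) T =
    WF (fun a => ¬ 3 ∣ a) (fun a' => 5 ∣ a' ∧ ¬ 3 ∣ a') (wd A l) (A * l - T) T := rfl
  rw [e0, hfl]
  unfold ld15r
  by_cases h2 : 2 ∣ A
  · have hn : N973.P15.Cl3e (A * l) := ⟨nE hl h4 hd hf h2, hA.2.1.mul_right l, m5 hA.2.2 h5⟩
    have e1 : WF (fun a => ¬ 3 ∣ a) (fun a' => 5 ∣ a' ∧ ¬ 3 ∣ a') (Rf (RR A) l) (A * l - T) T =
        N973.P15.WWAe (A * l) (A * l - T) T := by
      unfold WF N973.P15.WWAe
      exact Finset.sum_congr rfl fun a _ => Finset.sum_congr rfl fun a' _ =>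
        Rf_ev hl h4 hd hf h2 _ _ _ _
    rw [e1, N295.TP.t_C23E _ hn _ (Or.inl rfl) T hT0 hTn hT5 hT3, if_pos (h2.mul_right l)]
    ring
  · have hO := nO hl h4 hd hf h2
    have hn : N973.P15.Cl3 (A * l) := ⟨hO.1, hO.2, hA.2.1.mul_right l, m5 hA.2.2 h5⟩
    have e1 : WF (fun a => ¬ 3 ∣ a) (fun a' => 5 ∣ a' ∧ ¬ 3 ∣ a') (Rf (RR A) l) (A * l - T) T =
        N973.P15.WWA (A * l) (A * l - T) T := by
      unfold WF N973.P15.WWA
      exact Finset.sum_congr rfl fun a _ => Finset.sum_congr rfl fun a' _ =>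
        Rf_odd hl hd hf h2 _ _ _ _
    rw [e1, N295.TP.t_C23A _ hn T hT0 hTn hT5 hT3, if_neg (by omega)]
    ring

end Pool.Agent.N975.RQ.Du
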