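import Pool.Agent.N975.S17.Hom

/-!
# The cocycles of invariant weights on the forms of a nonsquare discriminant, any level

No form of nonsquare discriminant vanishes at a cusp, so that there are no boundary terms.
-/

set_option autoImplicit false

namespace Pool.Agent.N975.RQ

open Pool.Agent.N975.Sym (ev act act_inv eqv ev_act ev10)
open Pool.Agent.N975.S17 (sign_cases fin_eqv sum_eqv finsum_family finite_family ev_neg_neg ev01)

noncomputable section

/-- an invariant weight on the forms of discriminant `D`, level `N` -/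
structure Wt (N D : ℤ) (k : ℤ × ℤ × ℤ → ℤ) : Prop where
  ns : ¬ IsSquare D
  disc : ∀ q, k q ≠ 0 → q.2.1 ^ 2 - 4 * q.1 * q.2.2 = D
  inv : ∀ {a b c d : ℤ}, a * d - b * (N * c) = 1 → ∀ q, k (act a b (N * c) d q) = k q

/-- the parity of a weight -/
def Par (k : ℤ × ℤ × ℤ → ℤ) (ε : ℤ) : Prop := ∀ A B C, k (-A, B, -C) = ε * k (A, B, C)

variable {N D : ℤ} {k : ℤ × ℤ × ℤ → ℤ}

/-- the difference of the signs at two points -/
def U (k : ℤ × ℤ × ℤ → ℤ) (x m y n : ℤ) (q : ℤ × ℤ × ℤ) : ℤ :=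
  k q * (Int.sign (ev q x m) - Int.sign (ev q y n))

/-- the sum of the differences of the signs between infinity and `x / m` -/
def X (k : ℤ × ℤ × ℤ → ℤ) (x m : ℤ) : ℤ := ∑ᶠ q, U k 1 0 x m q

theorem key {q : ℤ × ℤ × ℤ} (h : q.2.1 ^ 2 - 4 * q.1 * q.2.2 = D) (x m : ℤ) :
    4 * (q.1 * ev q x m) = (2 * q.1 * x + q.2.1 * m) ^ 2 - D * m ^ 2 := by
  unfold ev
  linear_combination -(m ^ 2) * h

/-- a form of nonsquare discriminant does not vanish at a cusp -/
theorem A_ne (hD : ¬ IsSquare D) {q : ℤ × ℤ × ℤ} (h : q.2.1 ^ 2 - 4 * q.1 * q.2.2 = D) :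
    q.1 ≠ 0 := by
  intro h0
  apply hD
  rw [h0] at h
  exact ⟨q.2.1, by linear_combination -h⟩

theorem ev_ne (hD : ¬ IsSquare D) {q : ℤ × ℤ × ℤ} (h : q.2.1 ^ 2 - 4 * q.1 * q.2.2 = D) {x m : ℤ}
    (hm : m ≠ 0) : ev q x m ≠ 0 := by
  intro h0
  apply hD
  have h1 := key h x m
  rw [h0, mul_zero, mul_zero] at h1
  have h2 : D * m ^ 2 = (2 * q.1 * x + q.2.1 * m) ^ 2 := by linarith
  have h3 : IsSquare (D * m ^ 2) := ⟨2 * q.1 * x + q.2.1 * m, by rw [h2]; ring⟩
  have h4 : m ^ 2 ∣ (2 * q.1 * x + q.2.1 * m) ^ 2 := ⟨D, by rw [← h2]; ring⟩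
  rw [Int.pow_dvd_pow_iff two_ne_zero] at h4
  obtain ⟨t, ht⟩ := h4
  rw [ht] at h2
  refine ⟨t, ?_⟩
  have h5 : m ^ 2 * D = m ^ 2 * (t * t) := by linear_combination h2
  exact mul_left_cancel₀ (pow_ne_zero 2 hm) h5

theorem ev_inf (q : ℤ × ℤ × ℤ) (x : ℤ) : ev q x 0 = q.1 * x ^ 2 := by
  unfold ev; ring

theorem U_ne (H : Wt N D k) {x m : ℤ} {q : ℤ × ℤ × ℤ} (hxm : x ≠ 0 ∨ m ≠ 0)
    (h : U k 1 0 x m q ≠ 0) : k q ≠ 0 ∧ q.1 * ev q x m < 0 := by
  unfold U at h
  have h0 : k q ≠ 0 := fun h0 => h (by rw [h0, zero_mul])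
  have hd := H.disc q h0
  refine ⟨h0, ?_⟩
  rw [ev10] at h
  have h1 : Int.sign (ev q x m) ≠ Int.sign q.1 := by
    intro h2
    apply h
    rw [h2, sub_self, mul_zero]
  have h2 := A_ne H.ns hd
  have h3 : ev q x m ≠ 0 := by
    by_cases hm : m = 0
    · subst hm
      rw [ev_inf]
      have hx : x ≠ 0 := by
        rcases hxm with h | h
        · exact h
        · exact absurd rfl h
      exact mul_ne_zero h2 (pow_ne_zero 2 hx)
    · exact ev_ne H.ns hd hm
  rcases lt_or_gt_of_ne h2 with h4 | h4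
  · rcases lt_or_gt_of_ne h3 with h5 | h5
    · exact absurd (by rw [Int.sign_eq_neg_one_of_neg h4, Int.sign_eq_neg_one_of_neg h5]) h1
    · exact mul_neg_of_neg_of_pos h4 h5
  · rcases lt_or_gt_of_ne h3 with h5 | h5
    · exact mul_neg_of_pos_of_neg h4 h5
    · exact absurd (by rw [Int.sign_eq_one_of_pos h4, Int.sign_eq_one_of_pos h5]) h1

theorem U_m_zero {x : ℤ} (hx : x ≠ 0) (q : ℤ × ℤ × ℤ) : U k 1 0 x 0 q = 0 := by
  unfold U
  rw [ev10, ev_inf, Int.sign_mul, Int.sign_eq_one_of_pos (a := x ^ 2) (by positivity), mul_one,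
    sub_self, mul_zero]

theorem U_fin (H : Wt N D k) {x m : ℤ} (hxm : x ≠ 0 ∨ m ≠ 0) :
    (Function.support (U k 1 0 x m)).Finite := by
  rcases eq_or_ne m 0 with rfl | hm
  · have : Function.support (U k 1 0 x 0) = ∅ := by
      rw [Set.eq_empty_iff_forall_notMem]
      intro q hq
      refine hq (U_m_zero ?_ q)
      rcases hxm with h | h
      · exact h
      · exact absurd rfl h
    rw [this]
    exact Set.finite_empty
  set K : ℤ := |D| * m ^ 2 with hK
  set L : ℤ := |D| * m ^ 2 + 2 * K * |x| with hL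
  set R : ℤ := L ^ 2 + |D| with hR
  have hD0 : D ≠ 0 := by
    rintro rfl
    exact H.ns ⟨0, rfl⟩
  have hD1 : 1 ≤ |D| := Int.one_le_abs hD0
  have hm2 : 0 < m ^ 2 := by positivity
  refine ((Set.finite_Icc (-K) K).prod ((Set.finite_Icc (-L) L).prod
    (Set.finite_Icc (-R) R))).subset ?_
  intro q hq
  obtain ⟨h0, h1⟩ := U_ne H hxm hq
  have hdisc := H.disc q h0
  have hk := key hdisc x m
  have hDle := le_abs_self D
  have hA0 : q.1 ≠ 0 := by
    intro h0
    rw [h0, zero_mul] at h1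
    exact lt_irrefl _ h1
  have hev : ev q x m ≠ 0 := by
    intro h5; rw [h5, mul_zero] at h1; exact lt_irrefl _ h1
  have hsq : (2 * q.1 * x + q.2.1 * m) ^ 2 < |D| * m ^ 2 := by nlinarith
  have hA : |q.1| ≤ K := by
    have h5 : 1 ≤ |ev q x m| := Int.one_le_abs hev
    have h6 : |q.1| * |ev q x m| = -(q.1 * ev q x m) := by
      rw [← abs_mul, abs_of_neg h1]
    have h7 : |q.1| ≤ |q.1| * |ev q x m| := le_mul_of_one_le_right (abs_nonneg _) h5
    have h8 := abs_nonneg q.1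
    nlinarith [sq_nonneg (2 * q.1 * x + q.2.1 * m)]
  have hlin : |2 * q.1 * x + q.2.1 * m| ≤ |D| * m ^ 2 := by
    have h5 : |2 * q.1 * x + q.2.1 * m| ^ 2 < |D| * m ^ 2 := by rw [sq_abs]; exact hsq
    rcases eq_or_lt_of_le (abs_nonneg (2 * q.1 * x + q.2.1 * m)) with h6 | h6
    · rw [← h6]
      positivity
    · nlinarith
  have hM1 : 1 ≤ |m| := Int.one_le_abs hm
  have hB : |q.2.1| ≤ L := by
    have h4 : |q.2.1 * m| ≤ |2 * q.1 * x + q.2.1 * m| + |2 * q.1 * x| := by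
      have h5 : q.2.1 * m = (2 * q.1 * x + q.2.1 * m) - 2 * q.1 * x := by ring
      calc |q.2.1 * m| = |(2 * q.1 * x + q.2.1 * m) - 2 * q.1 * x| := by rw [← h5]
        _ ≤ _ := abs_sub _ _
    have h6 : |2 * q.1 * x| ≤ 2 * K * |x| := by
      rw [abs_mul, abs_mul]
      have : |(2:ℤ)| = 2 := rfl
      rw [this]
      have := abs_nonneg x
      nlinarith
    have h7 : |q.2.1| ≤ |q.2.1 * m| := by
      rw [abs_mul]
      exact le_mul_of_one_le_right (abs_nonneg _) hM1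
    rw [hL]
    linarith
  have hC : |q.2.2| ≤ R := by
    have h4 : 4 * (q.1 * q.2.2) = q.2.1 ^ 2 - D := by linarith
    have h5 : 4 * (|q.1| * |q.2.2|) ≤ q.2.1 ^ 2 + |D| := by
      rw [← abs_mul]
      have h9 := neg_abs_le D
      rcases abs_cases (q.1 * q.2.2) with ⟨h6, _⟩ | ⟨h6, _⟩ <;> rw [h6] <;>
        nlinarith [sq_nonneg q.2.1]
    have h6 : q.2.1 ^ 2 ≤ L ^ 2 := by
      rw [← sq_abs q.2.1]
      exact pow_le_pow_left₀ (abs_nonneg _) hB 2
    have h7 : 1 ≤ |q.1| := Int.one_le_abs hA0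
    have h8 : |q.2.2| ≤ |q.1| * |q.2.2| := le_mul_of_one_le_left (abs_nonneg _) h7
    have h9 := abs_nonneg q.2.2
    rw [hR]
    linarith
  refine ⟨?_, ?_, ?_⟩
  · exact abs_le.1 hA
  · exact abs_le.1 hB
  · exact abs_le.1 hC

theorem X_inf {x : ℤ} (hx : x ≠ 0) : X k x 0 = 0 := by
  unfold X
  rw [finsum_congr (U_m_zero hx), finsum_zero]

/-- the termwise identity -/
theorem U_id (H : Wt N D k) {a b c d : ℤ} (h : a * d - b * (N * c) = 1) (x m : ℤ)
    (q : ℤ × ℤ × ℤ) :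
    U k 1 0 (a * x + b * m) (N * c * x + d * m) q =
      U k 1 0 a (N * c) q + U k 1 0 x m (eqv a b (N * c) d h q) := by
  show U k 1 0 (a * x + b * m) (N * c * x + d * m) q =
      U k 1 0 a (N * c) q + U k 1 0 x m (act a b (N * c) d q)
  have hk := H.inv h q
  have e1 : ev (act a b (N * c) d q) x m = ev q (a * x + b * m) (N * c * x + d * m) := by
    rw [ev_act]
  have e2 : ev (act a b (N * c) d q) 1 0 = ev q a (N * c) := by
    rw [ev_act, mul_one, mul_one, mul_zero, mul_zero, add_zero, add_zero]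
  unfold U
  rw [e1, e2, hk]
  ring

theorem ne_of_det {a b c d : ℤ} (h : a * d - b * (N * c) = 1) {x m : ℤ} (hxm : x ≠ 0 ∨ m ≠ 0) :
    a * x + b * m ≠ 0 ∨ N * c * x + d * m ≠ 0 := by
  by_contra hcon
  rw [not_or, not_not, not_not] at hcon
  obtain ⟨h1, h2⟩ := hcon
  have hx : x = 0 := by linear_combination d * h1 - b * h2 - x * h
  have hm : m = 0 := by linear_combination a * h2 - (N * c) * h1 - m * h
  rcases hxm with h3 | h3
  · exact h3 hx
  · exact h3 hm

theorem ne_col {a b c d : ℤ} (h : a * d - b * (N * c) = 1) : a ≠ 0 ∨ N * c ≠ 0 := by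
  by_contra hcon
  rw [not_or, not_not, not_not] at hcon
  rw [hcon.1, hcon.2] at h
  norm_num at h

/-- **the cocycle relation**, without boundary terms -/
theorem X_coc (H : Wt N D k) {a b c d : ℤ} (h : a * d - b * (N * c) = 1) {x m : ℤ}
    (hxm : x ≠ 0 ∨ m ≠ 0) :
    X k (a * x + b * m) (N * c * x + d * m) = X k a (N * c) + X k x m := by
  have f1 := U_fin H (ne_col h)
  have f2 := fin_eqv (U_fin H hxm) (eqv a b (N * c) d h)
  unfold X
  rw [finsum_congr (U_id H h x m), finsum_add_distrib f1 f2, sum_eqv]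

theorem X_neg_neg (x m : ℤ) : X k (-x) (-m) = X k x m := by
  unfold X
  apply finsum_congr
  intro q
  unfold U
  rw [ev_neg_neg]

/-- the reflection -/
def refl : (ℤ × ℤ × ℤ) ≃ (ℤ × ℤ × ℤ) where
  toFun q := (-q.1, q.2.1, -q.2.2)
  invFun q := (-q.1, q.2.1, -q.2.2)
  left_inv q := by simp
  right_inv q := by simp

theorem ev_refl (q : ℤ × ℤ × ℤ) (x m : ℤ) : ev (refl q) x m = -ev q (-x) m := by
  obtain ⟨A, B, C⟩ := q
  have hr : refl (A, B, C) = (-A, B, -C) := rfl
  rw [hr]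
  unfold ev
  ring

theorem X_neg {ε : ℤ} (hε : ε = 1 ∨ ε = -1) (hp : Par k ε) (x m : ℤ) :
    X k (-x) m = -ε * X k x m := by
  have hε2 : ε * ε = 1 := by rcases hε with rfl | rfl <;> norm_num
  unfold X
  have h1 : ∀ q, U k 1 0 (-x) m q = -ε * U k 1 0 x m (refl q) := by
    intro q
    have hk : k (refl q) = ε * k q := hp q.1 q.2.1 q.2.2
    unfold U
    have e1 : ev (refl q) x m = -ev q (-x) m := ev_refl q x m
    have e2 : ev (refl q) 1 0 = -ev q 1 0 := by
      rw [ev_refl, ← ev_neg_neg q (-1) 0, neg_neg, neg_zero]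
    rw [e1, e2, hk, Int.sign_neg, Int.sign_neg]
    linear_combination (-(k q * (Int.sign (ev q 1 0) - Int.sign (ev q (-x) m)))) * hε2
  rw [finsum_congr h1]
  have h2 : ∑ᶠ q, -ε * U k 1 0 x m (refl q) = ∑ᶠ q, -ε * U k 1 0 x m q :=
    finsum_comp_equiv refl (f := fun q => -ε * U k 1 0 x m q)
  rw [h2]
  rcases hε with rfl | rfl
  · have h3 : ∀ q, -1 * U k 1 0 x m q = -U k 1 0 x m q := fun q => by ring
    rw [finsum_congr h3, finsum_neg_distrib]
    ring
  · have h3 : ∀ q, -(-1) * U k 1 0 x m q = U k 1 0 x m q := fun q => by ring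
    rw [finsum_congr h3]
    ring

theorem X_zero (hp : Par k 1) (m : ℤ) : X k 0 m = 0 := by
  have h := X_neg (Or.inl rfl) hp 0 m
  rw [neg_zero] at h
  omega

theorem X_add (H : Wt N D k) {x m : ℤ} (hxm : x ≠ 0 ∨ m ≠ 0) : X k (x + m) m = X k x m := by
  have h := X_coc H (a := 1) (b := 1) (c := 0) (d := 1) (by ring) hxm
  have e1 : 1 * x + 1 * m = x + m := by ring
  have e2 : N * 0 * x + 1 * m = m := by ring
  have e3 : N * 0 = 0 := by ring
  rw [e1, e2, e3, X_inf one_ne_zero, zero_add] at h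
  exact h

theorem X_add_mul (H : Wt N D k) {x m : ℤ} (hm : m ≠ 0) (j : ℤ) :
    X k (x + m * j) m = X k x m := by
  have h := X_coc H (a := 1) (b := j) (c := 0) (d := 1) (by ring) (x := x) (m := m) (Or.inr hm)
  have e1 : 1 * x + j * m = x + m * j := by ring
  have e2 : N * 0 * x + 1 * m = m := by ring
  have e3 : N * 0 = 0 := by ring
  rw [e1, e2, e3, X_inf one_ne_zero, zero_add] at h
  exact h

/-- only the residue of the numerator matters -/
theorem X_mod (H : Wt N D k) {x y m : ℤ} (hm : m ≠ 0) (h : m ∣ x - y) : X k x m = X k y m := by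
  obtain ⟨j, hj⟩ := h
  have : x = y + m * j := by linear_combination hj
  rw [this, X_add_mul H hm]

/-- a parabolic element: the cocycle vanishes at any element which fixes a cusp -/
theorem X_par (H : Wt N D k) {a b c d : ℤ} (h : a * d - b * (N * c) = 1) {x m : ℤ}
    (hxm : x ≠ 0 ∨ m ≠ 0) (h1 : a * x + b * m = x) (h2 : N * c * x + d * m = m) :
    X k a (N * c) = 0 := by
  have h3 := X_coc H h hxm
  rw [h1, h2] at h3
  linarith

/-! ### the count of the forms with positive leading coefficient -/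

theorem ev_neg (q : ℤ × ℤ × ℤ) (x M : ℤ) : ev (-q) x M = - ev q x M := by
  unfold ev
  simp only [Prod.fst_neg, Prod.snd_neg]
  ring

/-- the part with positive leading coefficient -/
def gp (k : ℤ × ℤ × ℤ → ℤ) (x m : ℤ) (q : ℤ × ℤ × ℤ) : ℤ :=
  if 0 < q.1 ∧ ev q x m < 0 then k q else 0

/-- the part with negative leading coefficient -/
def gm (k : ℤ × ℤ × ℤ → ℤ) (x m : ℤ) (q : ℤ × ℤ × ℤ) : ℤ :=
  if 0 < q.1 ∧ ev q x m < 0 then k (-q) else 0

theorem U_split (H : Wt N D k) {x m : ℤ} (hm : m ≠ 0) (q : ℤ × ℤ × ℤ) :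
    U k 1 0 x m q = 2 * gp k x m q - 2 * gm k x m (-q) := by
  unfold U gp gm
  rw [neg_neg, ev_neg, ev10]
  simp only [Prod.fst_neg]
  by_cases h0 : k q = 0
  · rw [h0]
    simp
  have hd := H.disc q h0
  have h2 := A_ne H.ns hd
  have h3 := ev_ne H.ns hd (x := x) hm
  rcases lt_or_gt_of_ne h2 with h4 | h4
  · have n1 : ¬ (0 < q.1 ∧ ev q x m < 0) := fun h => by linarith [h.1]
    rw [if_neg n1, Int.sign_eq_neg_one_of_neg h4]
    rcases lt_or_gt_of_ne h3 with h5 | h5
    · have n2 : ¬ (0 < -q.1 ∧ -ev q x m < 0) := fun h => by linarith [h.2]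
      rw [if_neg n2, Int.sign_eq_neg_one_of_neg h5]
      ring
    · have n2 : (0 < -q.1 ∧ -ev q x m < 0) := ⟨by linarith, by linarith⟩
      rw [if_pos n2, Int.sign_eq_one_of_pos h5]
      ring
  · have n1 : ¬ (0 < -q.1 ∧ -ev q x m < 0) := fun h => by linarith [h.1]
    rw [if_neg n1, Int.sign_eq_one_of_pos h4]
    rcases lt_or_gt_of_ne h3 with h5 | h5
    · have n2 : (0 < q.1 ∧ ev q x m < 0) := ⟨h4, h5⟩
      rw [if_pos n2, Int.sign_eq_neg_one_of_neg h5]
      ring
    · have n2 : ¬ (0 < q.1 ∧ ev q x m < 0) := fun h => by linarith [h.2]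
      rw [if_neg n2, Int.sign_eq_one_of_pos h5]
      ring

theorem g_disj {x m : ℤ} (q : ℤ × ℤ × ℤ) : gp k x m q = 0 ∨ gm k x m (-q) = 0 := by
  by_contra h
  rw [not_or] at h
  obtain ⟨h1, h2⟩ := h
  have h5 : 0 < q.1 ∧ ev q x m < 0 := by
    unfold gp at h1
    by_contra h6
    rw [if_neg h6] at h1
    exact h1 rfl
  have h4 : 0 < (-q).1 ∧ ev (-q) x m < 0 := by
    unfold gm at h2
    by_contra h6
    rw [if_neg h6] at h2
    exact h2 rfl
  have h7 := h4.1
  rw [Prod.fst_neg] at h7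
  linarith [h5.1]

theorem gp_fin (H : Wt N D k) (x : ℤ) {m : ℤ} (hm : m ≠ 0) :
    (Function.support (gp k x m)).Finite := by
  refine (U_fin H (Or.inr hm) (x := x)).subset ?_
  intro q hq
  have h1 : gp k x m q ≠ 0 := hq
  rcases g_disj (k := k) (x := x) (m := m) q with h2 | h2
  · exact absurd h2 h1
  · rw [Function.mem_support, U_split H hm, h2]
    intro h3
    apply h1
    linarith

theorem gm_fin' (H : Wt N D k) (x : ℤ) {m : ℤ} (hm : m ≠ 0) :
    (Function.support (fun q => gm k x m (-q))).Finite := by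
  refine (U_fin H (Or.inr hm) (x := x)).subset ?_
  intro q hq
  have h1 : gm k x m (-q) ≠ 0 := hq
  rcases g_disj (k := k) (x := x) (m := m) q with h2 | h2
  · rw [Function.mem_support, U_split H hm, h2]
    intro h3
    apply h1
    linarith
  · exact absurd h2 h1

theorem gm_fin (H : Wt N D k) (x : ℤ) {m : ℤ} (hm : m ≠ 0) :
    (Function.support (gm k x m)).Finite := by
  have h := (gm_fin' H x hm).preimage ((neg_injective (G := ℤ × ℤ × ℤ)).injOn)
  refine h.subset ?_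
  intro q hq
  show gm k x m (- -q) ≠ 0
  rw [neg_neg]
  exact hq

/-- the cocycle as twice a count over the forms with positive leading coefficient -/
theorem X_eq (H : Wt N D k) (x : ℤ) {m : ℤ} (hm : m ≠ 0) : X k x m = 2 * ∑ᶠ q : ℤ × ℤ × ℤ,
    if 0 < q.1 ∧ ev q x m < 0 then k q - k (-q) else 0 := by
  have h2 : ∑ᶠ q, gm k x m (-q) = ∑ᶠ q, gm k x m q :=
    finsum_comp_equiv (Equiv.neg (ℤ × ℤ × ℤ)) (f := gm k x m)
  have h3 : X k x m = 2 * (∑ᶠ q, gp k x m q) - 2 * (∑ᶠ q, gm k x m (-q)) := by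
    unfold X
    rw [finsum_congr (U_split H hm), finsum_sub_distrib, mul_finsum, mul_finsum]
    · exact (gp_fin H x hm).subset (Function.support_mul_subset_right _ _)
    · exact (gm_fin' H x hm).subset (Function.support_mul_subset_right _ _)
  have h4 : ∑ᶠ q : ℤ × ℤ × ℤ, (if 0 < q.1 ∧ ev q x m < 0 then k q - k (-q) else 0) =
      ∑ᶠ q, (gp k x m q - gm k x m q) := by
    apply finsum_congr
    intro q
    unfold gp gm
    split_ifs <;> ring
  rw [h3, h2, h4, finsum_sub_distrib (gp_fin H x hm) (gm_fin H x hm)]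
  ring

end

end Pool.Agent.N975.RQ
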