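import Pool.Agent.N975.PG.Gn
import Pool.Agent.N975.RQ.Core
import Pool.Agent.N975.ChE

/-!
# Genus characters on the forms of a nonsquare discriminant, and their weights
-/

set_option autoImplicit false

namespace Pool.Agent.N975.RQ

open Pool.Agent.N975.Sym (ev act ev_act)
open Pool.Agent.N969.P15 (c2)
open Pool.Agent.N975.PG (gp gp_act gp_neg gn_eq two_nmem jac_prod gn)

noncomputable section

/-- a genus character on the forms of discriminant `D`, with its value at `-1` -/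
structure Gc (D : ℤ) (ψ : ℤ × ℤ × ℤ → ℤ) (ε : ℤ) : Prop where
  inv : ∀ {a b c d : ℤ}, a * d - b * c = 1 → ∀ q : ℤ × ℤ × ℤ,
    q.2.1 ^ 2 - 4 * q.1 * q.2.2 = D → ψ (act a b c d q) = ψ q
  neg : ∀ A B C : ℤ, B ^ 2 - 4 * A * C = D → ψ (-A, -B, -C) = ε * ψ (A, B, C)
  rfl : ∀ A B C : ℤ, B ^ 2 - 4 * A * C = D → ψ (A, -B, C) = ψ (A, B, C)

variable {D : ℤ} {ψ ψ' : ℤ × ℤ × ℤ → ℤ} {ε ε' : ℤ}

theorem Gc.one : Gc D (fun _ => 1) 1 :=
  ⟨fun _ _ _ => by rfl, fun _ _ _ _ => by rfl, fun _ _ _ _ => by rfl⟩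

theorem Gc.mul (h : Gc D ψ ε) (h' : Gc D ψ' ε') : Gc D (fun q => ψ q * ψ' q) (ε * ε') where
  inv := by
    intro a b c d hd q hq
    show ψ _ * ψ' _ = ψ q * ψ' q
    rw [h.inv hd q hq, h'.inv hd q hq]
  neg := by
    intro A B C hq
    show ψ _ * ψ' _ = ε * ε' * (ψ _ * ψ' _)
    rw [h.neg A B C hq, h'.neg A B C hq]
    ring
  rfl := by
    intro A B C hq
    show ψ _ * ψ' _ = ψ _ * ψ' _
    rw [h.rfl A B C hq, h'.rfl A B C hq]

/-- a genus character of an odd squarefree number dividing the discriminant -/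
theorem gc_gn {A : ℕ} (hA : Squarefree A) (hodd : A % 2 = 1) (hD : (A : ℤ) ∣ D) :
    Gc D (gn A) (jacobiSym (-1) A) where
  inv := by
    intro a b c d hd q hq
    rw [gn_eq, gn_eq]
    refine Finset.prod_congr (by rfl) fun p hp => ?_
    have hpp := Nat.prime_of_mem_primeFactors hp
    have hpA : (p : ℤ) ∣ A := by exact_mod_cast Nat.dvd_of_mem_primeFactors hp
    exact gp_act hpp (two_nmem hodd hp) (by rw [hq]; exact hpA.trans hD) hd
  neg := by
    intro A' B C _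
    rw [gn_eq, gn_eq, ← jac_prod _ hA, ← Finset.prod_mul_distrib]
    exact Finset.prod_congr (by rfl) fun p _ => gp_neg p A' B C (-B)
  rfl := by
    intro A' B C _
    rfl

/-! ### the prime two -/

/-- the character at `2` -/
def g2 (n : ℕ) (q : ℤ × ℤ × ℤ) : ℤ := if (2 : ℤ) ∣ q.1 then c2 n q.2.2 else c2 n q.1

/-- compatibility of the character at `2` and the discriminant -/
def C2 (n : ℕ) (D : ℤ) : Prop :=
  (n % 16 = 4 ∧ D % 16 = 12) ∨ (n % 32 = 8 ∧ D % 32 = 24) ∨ (n % 32 = 24 ∧ D % 32 = 8)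

/-- the three characters -/
def h4 (u : ZMod 8) : ℤ := if u = 1 ∨ u = 5 then 1 else if u = 3 ∨ u = 7 then -1 else 0

def h8 (u : ZMod 8) : ℤ := if u = 1 ∨ u = 3 then 1 else if u = 5 ∨ u = 7 then -1 else 0

def h8' (u : ZMod 8) : ℤ := if u = 1 ∨ u = 7 then 1 else if u = 3 ∨ u = 5 then -1 else 0

theorem cast_cases (u : ℤ) : ((u : ZMod 8) = 0 ∧ u % 8 = 0) ∨ ((u : ZMod 8) = 1 ∧ u % 8 = 1) ∨
    ((u : ZMod 8) = 2 ∧ u % 8 = 2) ∨ ((u : ZMod 8) = 3 ∧ u % 8 = 3) ∨
    ((u : ZMod 8) = 4 ∧ u % 8 = 4) ∨ ((u : ZMod 8) = 5 ∧ u % 8 = 5) ∨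
    ((u : ZMod 8) = 6 ∧ u % 8 = 6) ∨ ((u : ZMod 8) = 7 ∧ u % 8 = 7) := by
  have h1 : (u : ZMod 8) = ((u % 8 : ℤ) : ZMod 8) := by
    rw [ZMod.intCast_eq_intCast_iff_dvd_sub]
    exact ⟨-(u / 8), by push_cast; omega⟩
  have h2 : u % 8 = 0 ∨ u % 8 = 1 ∨ u % 8 = 2 ∨ u % 8 = 3 ∨ u % 8 = 4 ∨ u % 8 = 5 ∨ u % 8 = 6 ∨
      u % 8 = 7 := by omega
  rcases h2 with h2 | h2 | h2 | h2 | h2 | h2 | h2 | h2 <;> rw [h2] at h1 <;> rw [h1, h2] <;> decide

theorem c2_h4 {n : ℕ} (hn : n % 16 = 4) (u : ℤ) : c2 n u = h4 u := by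
  unfold c2 h4
  rw [if_pos hn]
  rcases cast_cases u with h | h | h | h | h | h | h | h <;> rw [h.1] <;> obtain ⟨_, h⟩ := h
  · rw [if_pos (by omega)]; decide
  · rw [if_neg (by omega), if_pos (by omega)]; decide
  · rw [if_pos (by omega)]; decide
  · rw [if_neg (by omega), if_neg (by omega)]; decide
  · rw [if_pos (by omega)]; decide
  · rw [if_neg (by omega), if_pos (by omega)]; decide
  · rw [if_pos (by omega)]; decide
  · rw [if_neg (by omega), if_neg (by omega)]; decide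

theorem c2_h8 {n : ℕ} (hn : n % 32 = 8) (u : ℤ) : c2 n u = h8 u := by
  unfold c2 h8
  rw [if_neg (c := n % 16 = 4) (by omega), if_pos hn]
  rcases cast_cases u with h | h | h | h | h | h | h | h <;> rw [h.1] <;> obtain ⟨_, h⟩ := h
  · rw [if_pos (by omega)]; decide
  · rw [if_neg (by omega), if_pos (by omega)]; decide
  · rw [if_pos (by omega)]; decide
  · rw [if_neg (by omega), if_pos (by omega)]; decide
  · rw [if_pos (by omega)]; decide
  · rw [if_neg (by omega), if_neg (by omega)]; decide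
  · rw [if_pos (by omega)]; decide
  · rw [if_neg (by omega), if_neg (by omega)]; decide

theorem c2_h8' {n : ℕ} (hn : n % 32 = 24) (u : ℤ) : c2 n u = h8' u := by
  unfold c2 h8'
  rw [if_neg (c := n % 16 = 4) (by omega), if_neg (c := n % 32 = 8) (by omega)]
  rcases cast_cases u with h | h | h | h | h | h | h | h <;> rw [h.1] <;> obtain ⟨_, h⟩ := h
  · rw [if_pos (by omega)]; decide
  · rw [if_neg (by omega), if_pos (by omega)]; decide
  · rw [if_pos (by omega)]; decide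
  · rw [if_neg (by omega), if_neg (by omega)]; decide
  · rw [if_pos (by omega)]; decide
  · rw [if_neg (by omega), if_neg (by omega)]; decide
  · rw [if_pos (by omega)]; decide
  · rw [if_neg (by omega), if_pos (by omega)]; decide

/-- parity in `ZMod 8` -/
theorem even_iff (u : ℤ) : (2 : ℤ) ∣ u ↔ (4 : ZMod 8) * (u : ZMod 8) = 0 := by
  rcases cast_cases u with h | h | h | h | h | h | h | h <;> rw [h.1] <;> obtain ⟨_, h⟩ := h
  · exact iff_of_true (by omega) (by decide)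
  · exact iff_of_false (by omega) (by decide)
  · exact iff_of_true (by omega) (by decide)
  · exact iff_of_false (by omega) (by decide)
  · exact iff_of_true (by omega) (by decide)
  · exact iff_of_false (by omega) (by decide)
  · exact iff_of_true (by omega) (by decide)
  · exact iff_of_false (by omega) (by decide)

theorem dec4 : ∀ a b c x y : ZMod 8, (b * b - a * c = 3 ∨ b * b - a * c = 7) →
    4 * (a * x * x + 2 * b * x * y + c * y * y) ≠ 0 →
    h4 (a * x * x + 2 * b * x * y + c * y * y) = if 4 * a = 0 then h4 c else h4 a := by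
  decide +kernel

theorem dec8 : ∀ a b c x y : ZMod 8, b * b - a * c = 6 →
    4 * (a * x * x + 2 * b * x * y + c * y * y) ≠ 0 →
    h8 (a * x * x + 2 * b * x * y + c * y * y) = if 4 * a = 0 then h8 c else h8 a := by
  decide +kernel

theorem dec8' : ∀ a b c x y : ZMod 8, b * b - a * c = 2 →
    4 * (a * x * x + 2 * b * x * y + c * y * y) ≠ 0 →
    h8' (a * x * x + 2 * b * x * y + c * y * y) = if 4 * a = 0 then h8' c else h8' a := by
  decide +kernel

theorem zcast {u r : ℤ} (h : u % 8 = r) : (u : ZMod 8) = (r : ZMod 8) := by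
  rw [ZMod.intCast_eq_intCast_iff_dvd_sub]
  exact ⟨-(u / 8), by push_cast; omega⟩

/-- the value of the character at `2` at the odd values of a form -/
theorem g2_val {n : ℕ} (h : C2 n D) {q : ℤ × ℤ × ℤ} (hq : q.2.1 ^ 2 - 4 * q.1 * q.2.2 = D)
    (x y : ℤ) (ho : ¬ (2 : ℤ) ∣ ev q x y) : c2 n (ev q x y) = g2 n q := by
  obtain ⟨A, B, C⟩ := q
  simp only at hq
  have hB : B % 2 = 0 := by
    have h1 : (B ^ 2) % 2 = 0 := by
      have h2 : D % 2 = 0 := by
        rcases h with h | h | h <;> omega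
      have h3 : B ^ 2 = D + 2 * (2 * A * C) := by linear_combination hq
      omega
    by_contra h4
    have h5 : B % 2 = 1 := by omega
    have h6 : B ^ 2 % 2 = 1 := by
      rw [pow_two, Int.mul_emod, h5]
      norm_num
    omega
  obtain ⟨b, rfl⟩ : ∃ b, B = 2 * b := ⟨B / 2, by omega⟩
  have hD : D = 4 * (b * b - A * C) := by linear_combination -hq
  have he : ((ev (A, 2 * b, C) x y : ℤ) : ZMod 8) =
      (A : ZMod 8) * x * x + 2 * b * x * y + C * y * y := by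
    unfold ev
    push_cast
    ring
  have ho' : (4 : ZMod 8) * ((A : ZMod 8) * x * x + 2 * b * x * y + C * y * y) ≠ 0 := by
    rw [← he]
    exact fun h => ho ((even_iff _).2 h)
  have hc : ((b * b - A * C : ℤ) : ZMod 8) = (b : ZMod 8) * b - A * C := by push_cast; ring
  unfold g2
  simp only
  have hif : ∀ (f : ZMod 8 → ℤ), (if (2 : ℤ) ∣ A then f C else f A) =
      if (4 : ZMod 8) * A = 0 then f C else f A := by
    intro f
    by_cases hA : (2 : ℤ) ∣ A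
    · rw [if_pos hA, if_pos ((even_iff _).1 hA)]
    · rw [if_neg hA, if_neg (fun h => hA ((even_iff _).2 h))]
  rcases h with ⟨h1, h2⟩ | ⟨h1, h2⟩ | ⟨h1, h2⟩
  · rw [c2_h4 h1, c2_h4 h1, c2_h4 h1, he, hif]
    refine dec4 _ _ _ _ _ ?_ ho'
    have h3 : (b * b - A * C) % 8 = 3 ∨ (b * b - A * C) % 8 = 7 := by omega
    rcases h3 with h3 | h3
    · left
      rw [← hc, zcast h3]
      rfl
    · right
      rw [← hc, zcast h3]
      rfl
  · rw [c2_h8 h1, c2_h8 h1, c2_h8 h1, he, hif]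
    refine dec8 _ _ _ _ _ ?_ ho'
    have h3 : (b * b - A * C) % 8 = 6 := by omega
    rw [← hc, zcast h3]
    rfl
  · rw [c2_h8' h1, c2_h8' h1, c2_h8' h1, he, hif]
    refine dec8' _ _ _ _ _ ?_ ho'
    have h3 : (b * b - A * C) % 8 = 2 := by omega
    rw [← hc, zcast h3]
    rfl

/-- one of the outer coefficients is odd -/
theorem odd_coef {n : ℕ} (h : C2 n D) {q : ℤ × ℤ × ℤ} (hq : q.2.1 ^ 2 - 4 * q.1 * q.2.2 = D) :
    ¬ (2 : ℤ) ∣ q.1 ∨ ¬ (2 : ℤ) ∣ q.2.2 := by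
  by_contra hcon
  rw [not_or, not_not, not_not] at hcon
  obtain ⟨⟨a, ha⟩, ⟨c, hc⟩⟩ := hcon
  rw [ha, hc] at hq
  have h1 : q.2.1 ^ 2 = D + 16 * (a * c) := by linear_combination hq
  have h2 : q.2.1 ^ 2 % 16 = 0 ∨ q.2.1 ^ 2 % 16 = 1 ∨ q.2.1 ^ 2 % 16 = 4 ∨ q.2.1 ^ 2 % 16 = 9 := by
    have h3 : q.2.1 % 16 = 0 ∨ q.2.1 % 16 = 1 ∨ q.2.1 % 16 = 2 ∨ q.2.1 % 16 = 3 ∨
      q.2.1 % 16 = 4 ∨ q.2.1 % 16 = 5 ∨ q.2.1 % 16 = 6 ∨ q.2.1 % 16 = 7 ∨ q.2.1 % 16 = 8 ∨
      q.2.1 % 16 = 9 ∨ q.2.1 % 16 = 10 ∨ q.2.1 % 16 = 11 ∨ q.2.1 % 16 = 12 ∨ q.2.1 % 16 = 13 ∨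
      q.2.1 % 16 = 14 ∨ q.2.1 % 16 = 15 := by omega
    rw [pow_two, Int.mul_emod]
    rcases h3 with h3 | h3 | h3 | h3 | h3 | h3 | h3 | h3 | h3 | h3 | h3 | h3 | h3 | h3 | h3 | h3 <;>
      rw [h3] <;> norm_num
  rcases h with h | h | h <;> omega

/-- the character at `2` is a genus character -/
theorem gc_g2 {n : ℕ} (h : C2 n D) : Gc D (g2 n) (c2 n (-1)) where
  inv := by
    intro a b c d hd q hq
    have hact : (act a b c d q).2.1 ^ 2 - 4 * (act a b c d q).1 * (act a b c d q).2.2 = D := by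
      rw [← hq]
      unfold act
      simp only
      linear_combination (q.2.1 ^ 2 - 4 * q.1 * q.2.2) * (a * d - b * c + 1) * hd
    have e1 : ev (act a b c d q) 1 0 = (act a b c d q).1 := by
      unfold ev; ring
    have e2 : ev (act a b c d q) 0 1 = (act a b c d q).2.2 := by
      unfold ev; ring
    have h1 := odd_coef h hact
    by_cases h2 : (2 : ℤ) ∣ (act a b c d q).1
    · have h3 : ¬ (2 : ℤ) ∣ (act a b c d q).2.2 := by
        rcases h1 with h1 | h1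
        · exact absurd h2 h1
        · exact h1
      have h4 : g2 n (act a b c d q) = c2 n (act a b c d q).2.2 := by
        unfold g2
        rw [if_pos h2]
      rw [h4, ← e2, ev_act]
      rw [← e2, ev_act] at h3
      exact g2_val h hq _ _ h3
    · have h4 : g2 n (act a b c d q) = c2 n (act a b c d q).1 := by
        unfold g2
        rw [if_neg h2]
      rw [h4, ← e1, ev_act]
      rw [← e1, ev_act] at h2
      exact g2_val h hq _ _ h2
  neg := by
    intro A B C _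
    have hneg : ∀ u : ℤ, c2 n (-u) = c2 n (-1) * c2 n u := by
      intro u
      rw [← Pool.Agent.N975.ChE.c2_mul, neg_one_mul]
    unfold g2
    simp only [dvd_neg]
    split_ifs
    · exact hneg C
    · exact hneg A
  rfl := by
    intro A B C _
    rfl

/-! ### the weights -/

/-- the weight of an orientation and of a genus character -/
def kw (N D : ℤ) (ρ : ℤ → ℤ) (ψ : ℤ × ℤ × ℤ → ℤ) (q : ℤ × ℤ × ℤ) : ℤ :=
  if q.2.1 ^ 2 - 4 * q.1 * q.2.2 = D ∧ N ∣ q.1 then ρ q.2.1 * ψ q else 0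

variable {N : ℤ} {ρ : ℤ → ℤ}

theorem disc_act {a b c d : ℤ} (h : a * d - b * c = 1) (q : ℤ × ℤ × ℤ) :
    (act a b c d q).2.1 ^ 2 - 4 * (act a b c d q).1 * (act a b c d q).2.2 =
      q.2.1 ^ 2 - 4 * q.1 * q.2.2 := by
  unfold act
  simp only
  linear_combination (q.2.1 ^ 2 - 4 * q.1 * q.2.2) * (a * d - b * c + 1) * h

theorem dvd_act {a b c d : ℤ} (q : ℤ × ℤ × ℤ) (hN : N ∣ q.1) :
    N ∣ (act a b (N * c) d q).1 := by
  obtain ⟨r, hr⟩ := hN
  refine ⟨r * a ^ 2 + q.2.1 * a * c + q.2.2 * c * (N * c), ?_⟩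
  unfold act
  simp only
  rw [hr]
  ring

theorem mid_act {a b c d : ℤ} (h : a * d - b * (N * c) = 1) (q : ℤ × ℤ × ℤ) (hN : N ∣ q.1) :
    2 * N ∣ (act a b (N * c) d q).2.1 - q.2.1 := by
  obtain ⟨r, hr⟩ := hN
  refine ⟨r * a * b + q.2.1 * b * c + q.2.2 * c * d, ?_⟩
  unfold act
  simp only
  rw [hr]
  linear_combination q.2.1 * h

/-- **the weights of genus characters** -/
theorem wt_kw (hns : ¬ IsSquare D) (hρ : ∀ b b' : ℤ, 2 * N ∣ b' - b → ρ b' = ρ b)
    (hψ : Gc D ψ ε) : Wt N D (kw N D ρ ψ) where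
  ns := hns
  disc := by
    intro q hq
    by_contra h
    exact hq (if_neg fun h' => h h'.1)
  inv := by
    intro a b c d h q
    by_cases hq : q.2.1 ^ 2 - 4 * q.1 * q.2.2 = D ∧ N ∣ q.1
    · have h1 : (act a b (N * c) d q).2.1 ^ 2 - 4 * (act a b (N * c) d q).1 *
          (act a b (N * c) d q).2.2 = D ∧ N ∣ (act a b (N * c) d q).1 :=
        ⟨by rw [disc_act h]; exact hq.1, dvd_act q hq.2⟩
      unfold kw
      rw [if_pos h1, if_pos hq, hψ.inv h q hq.1, hρ _ _ (mid_act h q hq.2)]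
    · have h1 : ¬ ((act a b (N * c) d q).2.1 ^ 2 - 4 * (act a b (N * c) d q).1 *
          (act a b (N * c) d q).2.2 = D ∧ N ∣ (act a b (N * c) d q).1) := by
        rintro ⟨h1, h2⟩
        apply hq
        refine ⟨by rw [← disc_act h]; exact h1, ?_⟩
        have h3 : act d (-b) (N * (-c)) a (act a b (N * c) d q) = q := by
          have := Pool.Agent.N975.Sym.act_inv h q
          rw [show N * (-c) = -(N * c) by ring]
          exact this
        have h4 := dvd_act (N := N) (a := d) (b := -b) (c := -c) (d := a) _ h2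
        rwa [h3] at h4
      unfold kw
      rw [if_neg h1, if_neg hq]

theorem par_kw (hψ : Gc D ψ ε) : Par (kw N D ρ ψ) ε := by
  intro A B C
  unfold kw
  simp only
  by_cases hq : B ^ 2 - 4 * A * C = D ∧ N ∣ A
  · have h1 : B ^ 2 - 4 * -A * -C = D ∧ N ∣ -A :=
      ⟨by rw [← hq.1]; ring, (dvd_neg).2 hq.2⟩
    rw [if_pos h1, if_pos hq]
    have h2 := hψ.neg A (-B) C (by rw [← hq.1]; ring)
    rw [neg_neg, hψ.rfl A B C hq.1] at h2
    rw [h2]
    ring
  · have h1 : ¬ (B ^ 2 - 4 * -A * -C = D ∧ N ∣ -A) := by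
      rintro ⟨h1, h2⟩
      exact hq ⟨by rw [← h1]; ring, (dvd_neg).1 h2⟩
    rw [if_neg h1, if_neg hq, mul_zero]

/-- the crossing number as a sum over the forms with positive leading coefficient -/
theorem X_kw (hns : ¬ IsSquare D) (hρ : ∀ b b' : ℤ, 2 * N ∣ b' - b → ρ b' = ρ b)
    (hψ : Gc D ψ ε) (x : ℤ) {m : ℤ} (hm : m ≠ 0) : X (kw N D ρ ψ) x m =
      2 * ∑ᶠ q : ℤ × ℤ × ℤ, if (q.2.1 ^ 2 - 4 * q.1 * q.2.2 = D ∧ N ∣ q.1) ∧ 0 < q.1 ∧
        ev q x m < 0 then (ρ q.2.1 - ε * ρ (-q.2.1)) * ψ q else 0 := by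
  rw [X_eq (wt_kw hns hρ hψ) x hm]
  congr 1
  apply finsum_congr
  rintro ⟨A, B, C⟩
  have hneg : -((A, B, C) : ℤ × ℤ × ℤ) = (-A, -B, -C) := rfl
  rw [hneg]
  by_cases h1 : 0 < A ∧ ev (A, B, C) x m < 0
  · rw [if_pos h1]
    unfold kw
    simp only
    by_cases hq : B ^ 2 - 4 * A * C = D ∧ N ∣ A
    · have h2 : (-B) ^ 2 - 4 * -A * -C = D ∧ N ∣ -A :=
        ⟨by rw [← hq.1]; ring, (dvd_neg).2 hq.2⟩
      rw [if_pos hq, if_pos h2, if_pos ⟨hq, h1⟩, hψ.neg A B C hq.1]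
      ring
    · have h2 : ¬ ((-B) ^ 2 - 4 * -A * -C = D ∧ N ∣ -A) := by
        rintro ⟨h1, h2⟩
        exact hq ⟨by rw [← h1]; ring, (dvd_neg).1 h2⟩
      rw [if_neg hq, if_neg h2, if_neg (fun h => hq h.1), sub_zero]
  · rw [if_neg h1, if_neg (fun h => h1 h.2)]

end

end Pool.Agent.N975.RQ
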