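import Pool.Agent.N402.Dim.Man
import Pool.Agent.N975.RQ.Core

/-!
# The crossing numbers of an odd weight are an odd symbol
-/

set_option autoImplicit false

namespace Pool.Agent.N975.RQ

open Pool.Agent.N975.Sym (ev)
open Pool.Agent.N402.Dim (SymbC)

noncomputable section

variable {N : ℕ} {D : ℤ} {k : ℤ × ℤ × ℤ → ℤ}

theorem ev_smul (q : ℤ × ℤ × ℤ) (g x m : ℤ) : ev q (g * x) (g * m) = g ^ 2 * ev q x m := by
  unfold ev
  ring

theorem X_smul {g : ℤ} (hg : g ≠ 0) (x m : ℤ) : X k (g * x) (g * m) = X k x m := by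
  unfold X
  apply finsum_congr
  intro q
  unfold U
  rw [ev_smul, Int.sign_mul, Int.sign_eq_one_of_pos (a := g ^ 2) (by positivity), one_mul]

/-- the crossing number between infinity and a rational number -/
def Xr (k : ℤ × ℤ × ℤ → ℤ) (r : ℚ) : ℤ := X k r.num r.den

theorem Xr_div (x : ℤ) {m : ℤ} (hm : m ≠ 0) : Xr k ((x : ℚ) / m) = X k x m := by
  unfold Xr
  set r : ℚ := (x : ℚ) / m with hr
  have hd : (r.den : ℤ) ≠ 0 := by exact_mod_cast r.den_ne_zero
  have hdq : (r.den : ℚ) ≠ 0 := by exact_mod_cast r.den_ne_zero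
  have hmq : (m : ℚ) ≠ 0 := by exact_mod_cast hm
  have h1 : (x : ℚ) / m = r.num / r.den := by rw [← hr, Rat.num_div_den]
  rw [div_eq_div_iff hmq hdq] at h1
  have h2 : x * (r.den : ℤ) = r.num * m := by exact_mod_cast h1
  rw [← X_smul (k := k) hd x m, ← X_smul (k := k) hm r.num r.den]
  have e1 : m * r.num = (r.den : ℤ) * x := by linear_combination -h2
  have e2 : m * (r.den : ℤ) = (r.den : ℤ) * m := by ring
  rw [e1, e2]

theorem Xr_div' (x : ℤ) {m : ℤ} (hm : m ≠ 0) {r : ℚ} (h : r = (x : ℚ) / m) :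
    Xr k r = X k x m := by
  rw [h, Xr_div x hm]

theorem d_ne (hN : 1 < N) {A B C E : ℤ} (h : A * E - B * ((N : ℤ) * C) = 1) : E ≠ 0 := by
  rintro rfl
  have h1 : (N : ℤ) ∣ 1 := ⟨-(B * C), by linear_combination -h⟩
  have h2 : N ∣ 1 := by exact_mod_cast h1
  have h3 := Nat.le_of_dvd one_pos h2
  omega

/-- **the crossing numbers are an odd symbol** -/
theorem symbC_X (hN : 1 < N) (H : Wt N D k) (P : Par k 1) :
    SymbC N (fun r => (Xr k r : ℂ)) where
  per x := by
    have hd : (x.den : ℤ) ≠ 0 := by exact_mod_cast x.den_ne_zero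
    have hdq : (x.den : ℚ) ≠ 0 := by exact_mod_cast x.den_ne_zero
    have h1 : x + 1 = ((x.num + x.den : ℤ) : ℚ) / ((x.den : ℤ) : ℚ) := by
      push_cast
      rw [add_div, div_self hdq, Rat.num_div_den]
    rw [Xr_div' _ hd h1, X_add H (Or.inr hd)]
    rfl
  neg x := by
    have hd : (x.den : ℤ) ≠ 0 := by exact_mod_cast x.den_ne_zero
    have h1 : -x = ((-x.num : ℤ) : ℚ) / ((x.den : ℤ) : ℚ) := by
      push_cast
      rw [neg_div, Rat.num_div_den]
    rw [Xr_div' _ hd h1, X_neg (Or.inl rfl) P]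
    unfold Xr
    push_cast
    ring
  aff := by
    intro A B C E h r h0
    have hd : (r.den : ℤ) ≠ 0 := by exact_mod_cast r.den_ne_zero
    have hdq : (r.den : ℚ) ≠ 0 := by exact_mod_cast r.den_ne_zero
    have hE := d_ne hN h
    have hr : r * r.den = r.num := Rat.mul_den_eq_num r
    have h2 : (N : ℤ) * C * r.num + E * r.den ≠ 0 := by
      intro h3
      apply h0
      have h4 : ((N : ℚ) * C * r.num + E * r.den) = 0 := by exact_mod_cast h3
      have h5 : ((N : ℚ) * C * r + E) * r.den = 0 := by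
        linear_combination h4 + (N : ℚ) * C * hr
      exact (mul_eq_zero.1 h5).resolve_right hdq
    have h2q : (N : ℚ) * C * r.num + E * r.den ≠ 0 := by exact_mod_cast h2
    have e1 : ((A : ℚ) * r + B) / ((N : ℚ) * C * r + E) =
        ((A * r.num + B * r.den : ℤ) : ℚ) / (((N : ℤ) * C * r.num + E * r.den : ℤ) : ℚ) := by
      push_cast
      rw [div_eq_div_iff h0 h2q]
      linear_combination (A * ((N : ℚ) * C * r + E) - (A * r + B) * ((N : ℚ) * C)) * hr
    rw [Xr_div' _ h2 e1, Xr_div B hE, X_coc H h (x := r.num) (m := r.den) (Or.inr hd)]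
    have h3 := X_coc H h (x := 0) (m := 1) (Or.inr one_ne_zero)
    rw [mul_zero, zero_add, mul_zero, zero_add, mul_one, mul_one, X_zero P, add_zero] at h3
    rw [h3]
    unfold Xr
    push_cast
    ring
  aff_inf := by
    intro A B C E h hC
    have hE := d_ne hN h
    have hNC : (N : ℤ) * C ≠ 0 := mul_ne_zero (by exact_mod_cast (by omega : N ≠ 0)) hC
    have e1 : (A : ℚ) / ((N : ℚ) * C) = (A : ℚ) / (((N : ℤ) * C : ℤ) : ℚ) := by push_cast; rfl
    rw [Xr_div' _ hNC e1, Xr_div B hE]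
    have h3 := X_coc H h (x := 0) (m := 1) (Or.inr one_ne_zero)
    rw [mul_zero, zero_add, mul_zero, zero_add, mul_one, mul_one, X_zero P, add_zero] at h3
    rw [h3]

/-- a difference of symbols -/
theorem symbC_lin {s t : ℚ → ℂ} (hs : SymbC N s) (ht : SymbC N t) (a b : ℂ) :
    SymbC N (fun r => a * s r - b * t r) where
  per x := by rw [hs.per, ht.per]
  neg x := by rw [hs.neg, ht.neg]; ring
  aff := by
    intro A B C E h r h0
    rw [hs.aff h r h0, ht.aff h r h0]
    ring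
  aff_inf := by
    intro A B C E h hC
    rw [hs.aff_inf h hC, ht.aff_inf h hC]

/-- the odd integral symbols of level `N` -/
structure SyZ (N : ℕ) (s : ℚ → ℤ) : Prop where
  per : ∀ x, s (x + 1) = s x
  neg : ∀ x, s (-x) = -s x
  aff : ∀ {A B C D : ℤ}, A * D - B * ((N : ℤ) * C) = 1 → ∀ r : ℚ, (N : ℚ) * C * r + D ≠ 0 →
    s ((A * r + B) / ((N : ℚ) * C * r + D)) = s r + s ((B : ℚ) / D)
  aff_inf : ∀ {A B C D : ℤ}, A * D - B * ((N : ℤ) * C) = 1 → C ≠ 0 →
    s ((A : ℚ) / ((N : ℚ) * C)) = s ((B : ℚ) / D)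

theorem SyZ.toC {s : ℚ → ℤ} (H : SyZ N s) : SymbC N (fun r => (s r : ℂ)) where
  per x := by rw [H.per]
  neg x := by rw [H.neg]; push_cast; ring
  aff := by
    intro A B C E h r h0
    rw [H.aff h r h0]
    push_cast
    ring
  aff_inf := by
    intro A B C E h hC
    rw [H.aff_inf h hC]

/-- uniqueness of the symbols of level `N`, normalized at `r0` -/
def Uniq (N : ℕ) (r0 : ℚ) : Prop :=
  ∀ s : ℚ → ℂ, SymbC N s → s r0 = 0 → ∀ r, s r = 0

/-- **comparison of the crossing numbers with a symbol** -/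
theorem cmpC (hN : 1 < N) {r0 : ℚ} (hu : Uniq N r0) {s : ℚ → ℂ} (hs : SymbC N s)
    (H : Wt N D k) (P : Par k 1) (r : ℚ) : (Xr k r0 : ℂ) * s r = s r0 * (Xr k r : ℂ) :=
  sub_eq_zero.1 (hu _ (symbC_lin hs (symbC_X hN H P) (Xr k r0 : ℂ) (s r0)) (by ring) r)

/-- the integral form of the comparison -/
theorem cmpZ (hN : 1 < N) {r0 : ℚ} (hu : Uniq N r0) {s : ℚ → ℤ} (hs : SyZ N s)
    (H : Wt N D k) (P : Par k 1) (r : ℚ) : Xr k r0 * s r = s r0 * Xr k r := by
  have h := cmpC hN hu hs.toC H P r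
  exact_mod_cast h

end

end Pool.Agent.N975.RQ
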