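import Pool.Agent.N975.RQ.SW
import Pool.Agent.N969.RQ.Defs2
import Pool.Agent.N855.RQ.Int

/-!
# **C1J**: the character sums of the crossing numbers as divisor sums
-/

set_option autoImplicit false

open Finset

namespace Pool.Agent.N975.RQ

open Pool.Agent.N975.Sym (ev act ev_act)
open Pool.Agent.N969.P15 (c2 un)
open Pool.Agent.N969.P17G (gen starP)
open Pool.Agent.N969.RQ (Fd Un ud sgd ps J W)
open Pool.Agent.N855.RQ (FF FS mem_FS J_eq)

noncomputable section

/-- the local factor of the divisor sum, `Y = - q (u, l)` -/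
def loc (D d : ℕ) (a Y : ℕ) : ℤ := (if 2 ∣ d then (if 2 ∣ a then c2 (3 * D) (-(Y : ℤ))
    else c2 (3 * D) a) else 1) *
    ∏ p ∈ d.primeFactors.erase 2, if p ∣ a then jacobiSym (-(Y : ℤ)) p else jacobiSym a p

theorem W_eq (N D d l m : ℕ) : W N D d l m =
    ∑ a ∈ m.divisors.filter (N ∣ ·), jacobiSym a l * loc D d a (m / a) := rfl

theorem ps_loc {D d : ℕ} (h : Fd D) (hd : d ∣ D) {l : ℕ} (hl : l.Prime) (hl2 : l ≠ 2)
    (hlD : ¬ l ∣ D) {q : ℤ × ℤ × ℤ} (hq : q.2.1 ^ 2 - 4 * q.1 * q.2.2 = D) {a Y : ℕ}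
    (ha : (a : ℤ) = q.1) (u : ℤ) (hY : ev q u l = -(Y : ℤ)) : ps D d q = loc D d a Y := by
  rw [ps_eq]
  unfold loc
  have hlo : l % 2 = 1 := by
    rcases hl.eq_two_or_odd with h | h
    · exact absurd h hl2
    · exact h
  congr 1
  · unfold f2 g2
    by_cases h2 : 2 ∣ d
    · rw [if_pos h2, if_pos h2]
      have hC := c2_compat h (h2.trans hd)
      by_cases ha2 : 2 ∣ a
      · have hq1 : (2 : ℤ) ∣ q.1 := by rw [← ha]; exact_mod_cast ha2
        rw [if_pos hq1, if_pos ha2, ← hY]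
        have hc : ¬ (2 : ℤ) ∣ q.2.2 := by
          rcases odd_coef hC hq with h3 | h3
          · exact absurd hq1 h3
          · exact h3
        have hb : (2 : ℤ) ∣ q.2.1 := by
          have h3 : (2 : ℤ) ∣ q.2.1 ^ 2 := by
            have h4 : (2 : ℤ) ∣ (D : ℤ) := by exact_mod_cast h2.trans hd
            have e : q.2.1 ^ 2 = D + 2 * (2 * q.1 * q.2.2) := by linear_combination hq
            rw [e]
            exact h4.add (Dvd.intro _ rfl)
          exact Int.prime_two.dvd_of_dvd_pow h3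
        have ho : ¬ (2 : ℤ) ∣ ev q u l := by
          unfold ev
          intro h3
          obtain ⟨a', ha'⟩ := hq1
          obtain ⟨b', hb'⟩ := hb
          have h4 : (2 : ℤ) ∣ q.2.2 * (l : ℤ) ^ 2 := by
            have e : q.2.2 * (l : ℤ) ^ 2 = (q.1 * u ^ 2 + q.2.1 * u * l + q.2.2 * (l : ℤ) ^ 2) -
              2 * (a' * u ^ 2 + b' * u * l) := by rw [ha', hb']; ring
            rw [e]
            exact h3.sub (Dvd.intro _ rfl)
          rcases Int.prime_two.dvd_mul.1 h4 with h5 | h5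
          · exact hc h5
          · have := Int.prime_two.dvd_of_dvd_pow h5
            omega
        have h3 := g2_val hC hq u l ho
        unfold g2 at h3
        rw [if_pos hq1] at h3
        exact h3.symm
      · have hq1 : ¬ (2 : ℤ) ∣ q.1 := by rw [← ha]; exact_mod_cast ha2
        rw [if_neg hq1, if_neg ha2, ha]
    · rw [if_neg h2, if_neg h2]
  · refine Finset.prod_congr (by rfl) fun p hp => ?_
    obtain ⟨hp1, hp2, hp3⟩ := mem_erase hp
    have hpp := Nat.prime_iff_prime_int.1 hp1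
    have hpD : (p : ℤ) ∣ D := Int.natCast_dvd_natCast.2 (hp3.trans hd)
    have hdv : (p : ℤ) ∣ q.2.1 ^ 2 - 4 * q.1 * q.2.2 := by rw [hq]; exact hpD
    by_cases ha2 : p ∣ a
    · have hq1 : (p : ℤ) ∣ q.1 := by rw [← ha]; exact_mod_cast ha2
      rw [if_pos ha2, ← hY]
      have hb2 : (p : ℤ) ∣ q.2.1 ^ 2 := by
        have e : q.2.1 ^ 2 = D + q.1 * (4 * q.2.2) := by linear_combination hq
        rw [e]
        exact hpD.add (hq1.mul_right _)
      have hb : (p : ℤ) ∣ q.2.1 := hpp.dvd_of_dvd_pow hb2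
      have hc : ¬ (p : ℤ) ∣ q.2.2 := fun hc => prim_form h hq hp1 (hpD.mul_left 2) hq1 hc hb
      have hpl : ¬ (p : ℤ) ∣ (l : ℤ) := by
        intro h3
        have h4 : p ∣ l := by exact_mod_cast h3
        have h5 : p = l := (Nat.prime_dvd_prime_iff_eq hp1 hl).1 h4
        apply hlD
        rw [← h5]
        exact_mod_cast hpD
      have ho : ¬ (p : ℤ) ∣ ev q u l := by
        unfold ev
        intro h3
        obtain ⟨a', ha'⟩ := hq1
        obtain ⟨b', hb'⟩ := hb
        have h4 : (p : ℤ) ∣ q.2.2 * (l : ℤ) ^ 2 := by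
          have e : q.2.2 * (l : ℤ) ^ 2 = (q.1 * u ^ 2 + q.2.1 * u * l + q.2.2 * (l : ℤ) ^ 2) -
            p * (a' * u ^ 2 + b' * u * l) := by rw [ha', hb']; ring
          rw [e]
          exact h3.sub (Dvd.intro _ rfl)
        rcases hpp.dvd_mul.1 h4 with h5 | h5
        · exact hc h5
        · exact hpl (hpp.dvd_of_dvd_pow h5)
      rw [PG.gp_val hp1 hp2 hdv u l ho]
    · have hq1 : ¬ (p : ℤ) ∣ q.1 := by rw [← ha]; exact_mod_cast ha2
      unfold PG.gp
      rw [if_neg hq1, if_neg ha2, ha]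

/-- a form of discriminant `D` has leading coefficient prime to `l` -/
theorem l_ndvd {D l : ℕ} (hl : l.Prime) (hj : jacobiSym D l = -1) {q : ℤ × ℤ × ℤ}
    (hq : q.2.1 ^ 2 - 4 * q.1 * q.2.2 = D) : ¬ (l : ℤ) ∣ q.1 := by
  rintro ⟨a', ha'⟩
  have e : (D : ℤ) % l = (q.2.1 ^ 2) % l := by
    apply Int.emod_eq_emod_iff_emod_sub_eq_zero.2
    apply Int.emod_eq_zero_of_dvd
    exact ⟨-(4 * a' * q.2.2), by rw [← hq, ha']; ring⟩
  rw [jacobiSym.mod_left' e, jacobiSym.pow_left] at hj
  have := sq_nonneg (jacobiSym q.2.1 l)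
  omega

theorem t_C1J : Pool.Agent.N969.RQ.S_C1J := by
  intro N w D d l li hN h hd hl hl2 hlN hj hw hli
  have hlD : ¬ l ∣ D := by
    intro h1
    rw [PG.jac_zero hl (Int.natCast_dvd_natCast.2 h1)] at hj
    norm_num at hj
  have hlo : l % 2 = 1 := by
    rcases hl.eq_two_or_odd with h | h
    · exact absurd h hl2
    · exact h
  have hl0 : (0 : ℤ) < l := by exact_mod_cast hl.pos
  have hpl := Nat.prime_iff_prime_int.1 hl
  have hD0 := fd_pos h
  have hl2' : ¬ (l : ℤ) ∣ 2 := by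
    intro h1
    have h2 : l ∣ 2 := by exact_mod_cast h1
    exact hl2 ((Nat.prime_dvd_prime_iff_eq hl Nat.prime_two).1 h2)
  -- the left hand side as a sum over pairs
  have hL : ∑ u ∈ un l, jacobiSym u l * J N w D d u l =
      ∑ p ∈ (un l).sigma (fun u => FS N D u l hl0),
        jacobiSym (p.1 : ℤ) l * (w p.2.2.1 * ps D d p.2) := by
    rw [Finset.sum_sigma]
    refine Finset.sum_congr (by rfl) fun u _ => ?_
    rw [J_eq N w D d u l hl0, Finset.mul_sum]
  -- the right hand side as a sum over pairs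
  set T : Finset ℤ := (Ioo (-((D * l : ℕ) : ℤ)) (D * l : ℕ)).filter (fun t : ℤ =>
    t ^ 2 < (D * l ^ 2 : ℕ) ∧ ((4 * N : ℕ) : ℤ) ∣ (D * l ^ 2 : ℕ) - t ^ 2) with hT
  have hR : Pool.Agent.N969.RQ.ST N D l (fun t m => w (t * li) * jacobiSym (2 * t) l * W N D d l (m / 4)) =
      ∑ p ∈ (T.sigma (fun t => (((D * l ^ 2 : ℕ) - t ^ 2 : ℤ).toNat / 4).divisors.filter
        (N ∣ ·))).filter (fun p => ¬ (l : ℤ) ∣ p.1 ∧ ¬ l ∣ p.2),
        w (p.1 * li) * jacobiSym (2 * p.1) l * (jacobiSym p.2 l *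
          loc D d p.2 ((((D * l ^ 2 : ℕ) - p.1 ^ 2 : ℤ).toNat / 4) / p.2)) := by
    refine Eq.symm ((Finset.sum_filter_of_ne ?_).trans ?_)
    · rintro ⟨t, a⟩ _ hne
      simp only at hne ⊢
      constructor
      · intro h1
        apply hne
        rw [PG.jac_zero hl (h1.mul_left 2)]
        ring
      · intro h1
        apply hne
        rw [PG.jac_zero hl (Int.natCast_dvd_natCast.2 h1)]
        ring
    · rw [Finset.sum_sigma]
      unfold Pool.Agent.N969.RQ.ST
      rw [← hT]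
      refine Finset.sum_congr (by rfl) fun t _ => ?_
      show _ = w (t * li) * jacobiSym (2 * t) l *
        W N D d l ((((D * l ^ 2 : ℕ) : ℤ) - t ^ 2).toNat / 4)
      rw [W_eq, Finset.mul_sum]
  rw [hL, hR]
  refine Finset.sum_bij (fun p _ => ⟨2 * p.2.1 * p.1 + p.2.2.1 * l, p.2.1.toNat⟩) ?_ ?_ ?_ ?_
  · -- well defined
    rintro ⟨u, A, B, C⟩ hp
    rw [Finset.mem_sigma, mem_FS] at hp
    obtain ⟨hu, h1, h2, h3, h4⟩ := hp
    simp only at hu h1 h2 h3 h4 ⊢
    have hu1 := (Finset.mem_filter.1 hu)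
    have hu2 : ¬ (l : ℤ) ∣ (u : ℤ) := by
      intro h5
      have h6 : l ∣ u := by exact_mod_cast h5
      have h7 := hu1.2
      rw [Nat.coprime_comm] at h7
      have h8 := Nat.dvd_gcd (dvd_refl l) h6
      rw [h7] at h8
      exact hl.one_lt.ne' (Nat.dvd_one.1 h8)
    set t : ℤ := 2 * A * u + B * l with ht
    set Y : ℤ := -(A * (u : ℤ) ^ 2 + B * u * l + C * (l : ℤ) ^ 2) with hY
    have hY0 : 0 < Y := by rw [hY]; omega
    have key : (D : ℤ) * (l : ℤ) ^ 2 - t ^ 2 = 4 * (A * Y) := by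
      rw [ht, hY]
      linear_combination (-(l : ℤ) ^ 2) * h1
    have hAY : 0 < A * Y := mul_pos h3 hY0
    have hlt : t ^ 2 < D * (l : ℤ) ^ 2 := by linarith
    have hla := l_ndvd (q := (A, B, C)) hl hj h1
    simp only at hla
    have htl : ¬ (l : ℤ) ∣ t := by
      intro h5
      have h6 : (l : ℤ) ∣ 2 * A * u := by
        have e : 2 * A * (u : ℤ) = t - B * l := by rw [ht]; ring
        rw [e]
        exact h5.sub (Dvd.intro_left _ rfl)
      rcases hpl.dvd_mul.1 h6 with h7 | h7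
      · rcases hpl.dvd_mul.1 h7 with h8 | h8
        · exact hl2' h8
        · exact hla h8
      · exact hu2 h7
    have hcast : (((D * l ^ 2 : ℕ) : ℤ) - t ^ 2).toNat / 4 = (A * Y).toNat := by
      have e : ((D * l ^ 2 : ℕ) : ℤ) - t ^ 2 = 4 * (A * Y) := by push_cast; exact key
      rw [e]
      omega
    rw [Finset.mem_filter, Finset.mem_sigma]
    refine ⟨⟨?_, ?_⟩, htl, ?_⟩
    · rw [hT, Finset.mem_filter, Finset.mem_Ioo]
      have h5 : |t| < D * l := by
        have h6 : t ^ 2 < ((D : ℤ) * l) ^ 2 := by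
          have h7 : (1 : ℤ) ≤ D := by exact_mod_cast hD0
          nlinarith [sq_nonneg (l : ℤ)]
        exact abs_lt_of_sq_lt_sq h6 (by positivity)
      rw [abs_lt] at h5
      refine ⟨by push_cast; exact h5, by push_cast; exact hlt, ?_⟩
      obtain ⟨A', hA'⟩ := h2
      refine ⟨A' * Y, ?_⟩
      push_cast
      rw [key, hA']
      ring
    · show A.toNat ∈ Finset.filter _ _
      rw [Finset.mem_filter, hcast, Nat.mem_divisors]
      refine ⟨⟨?_, ?_⟩, ?_⟩
      · have e : (A * Y).toNat = A.toNat * Y.toNat := Int.toNat_mul h3.le hY0.le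
        rw [e]
        exact dvd_mul_right _ _
      · omega
      · have e : ((A.toNat : ℕ) : ℤ) = A := Int.toNat_of_nonneg h3.le
        have : (N : ℤ) ∣ ((A.toNat : ℕ) : ℤ) := by rw [e]; exact h2
        exact_mod_cast this
    · intro h5
      apply hla
      have e : ((A.toNat : ℕ) : ℤ) = A := Int.toNat_of_nonneg h3.le
      rw [← e]
      exact_mod_cast h5
  · -- injective
    rintro ⟨u, A, B, C⟩ hp ⟨u', A', B', C'⟩ hp' heq
    rw [Finset.mem_sigma, mem_FS] at hp hp'
    obtain ⟨hu, h1, h2, h3, h4⟩ := hp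
    obtain ⟨hu', h1', h2', h3', h4'⟩ := hp'
    simp only at hu h1 h2 h3 h4 hu' h1' h2' h3' h4' heq
    obtain ⟨e1, e2⟩ := Sigma.mk.inj_iff.1 heq
    have e2' := eq_of_heq e2
    have hA : A = A' := by omega
    subst hA
    have hla := l_ndvd (q := (A, B, C)) hl hj h1
    simp only at hla
    have h5 : (l : ℤ) ∣ 2 * A * ((u : ℤ) - u') := ⟨B' - B, by linear_combination e1⟩
    have h6 : (l : ℤ) ∣ (u : ℤ) - u' := by
      rcases hpl.dvd_mul.1 h5 with h7 | h7
      · rcases hpl.dvd_mul.1 h7 with h8 | h8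
        · exact absurd h8 hl2'
        · exact absurd h8 hla
      · exact h7
    have hu1 := Finset.mem_range.1 (Finset.mem_filter.1 hu).1
    have hu1' := Finset.mem_range.1 (Finset.mem_filter.1 hu').1
    have h7 : u = u' := by
      obtain ⟨k, hk⟩ := h6
      have hk0 : k = 0 := by
        by_contra hk0
        rcases lt_or_gt_of_ne hk0 with h8 | h8
        · have : (l : ℤ) * k ≤ -l := by nlinarith
          omega
        · have : (l : ℤ) ≤ l * k := by nlinarith
          omega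
      rw [hk0, mul_zero] at hk
      omega
    subst h7
    have h8 : B = B' := by
      have h9 : (B - B') * (l : ℤ) = 0 := by linear_combination e1
      have := (mul_eq_zero.1 h9).resolve_right hl0.ne'
      omega
    subst h8
    have h9 : C = C' := by
      have h10 : 4 * A * (C - C') = 0 := by linear_combination h1' - h1
      have h11 := (mul_eq_zero.1 h10).resolve_left (by omega)
      omega
    subst h9
    rfl
  · -- surjective
    rintro ⟨t, a⟩ hp
    rw [Finset.mem_filter, Finset.mem_sigma, hT, Finset.mem_filter, Finset.mem_Ioo] at hp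
    obtain ⟨⟨⟨_, h1, h2⟩, h3⟩, h4, h5⟩ := hp
    simp only at h1 h2 h3 h4 h5
    rw [Finset.mem_filter, Nat.mem_divisors] at h3
    obtain ⟨⟨h6, h7⟩, h8⟩ := h3
    set m : ℕ := (((D * l ^ 2 : ℕ) : ℤ) - t ^ 2).toNat with hm
    have hmz : (m : ℤ) = (D * l ^ 2 : ℕ) - t ^ 2 := by rw [hm]; omega
    have h4m : 4 ∣ m := by
      have : ((4 * N : ℕ) : ℤ) ∣ (m : ℤ) := by rw [hmz]; exact h2
      have h9 : 4 * N ∣ m := by exact_mod_cast this
      exact (Dvd.intro _ rfl).trans h9
    obtain ⟨Y, hY⟩ := h6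
    have hmY : m = 4 * (a * Y) := by omega
    have ha0 : 0 < a := by
      rcases Nat.eq_zero_or_pos a with h9 | h9
      · rw [h9, zero_mul] at hY
        exact absurd hY h7
      · exact h9
    have hY0 : 0 < Y := by
      rcases Nat.eq_zero_or_pos Y with h9 | h9
      · rw [h9, mul_zero] at hY
        exact absurd hY h7
      · exact h9
    -- the numerator
    have hcop : IsCoprime (2 * (a : ℤ)) (l : ℤ) := by
      rw [isCoprime_comm, hpl.coprime_iff_not_dvd]
      intro h9
      rcases hpl.dvd_mul.1 h9 with h10 | h10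
      · exact hl2' h10
      · exact h5 (by exact_mod_cast h10)
    obtain ⟨x, y, hxy⟩ := hcop
    set uz : ℤ := (x * t) % l with huz
    have hu0 := Int.emod_nonneg (x * t) hl0.ne'
    have hu1 := Int.emod_lt_of_pos (x * t) hl0
    have hu2 := Int.emod_add_mul_ediv (x * t) l
    have hdv : (l : ℤ) ∣ t - 2 * a * uz := by
      refine ⟨y * t + 2 * a * (x * t / l), ?_⟩
      rw [huz]
      linear_combination (-t) * hxy - (2 * (a : ℤ)) * hu2
    obtain ⟨b, hb⟩ := hdv
    have hunl : ¬ (l : ℤ) ∣ uz := by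
      intro h9
      apply h4
      have e : t = l * b + 2 * a * uz := by linear_combination hb
      rw [e]
      exact (Dvd.intro _ rfl).add (h9.mul_left _)
    -- the last coefficient
    have hD' : (D : ℤ) * (l : ℤ) ^ 2 - t ^ 2 = 4 * (a * Y) := by
      have : (m : ℤ) = 4 * (a * Y) := by rw [hmY]; push_cast; ring
      rw [← this, hmz]
      push_cast
      ring
    have h9 : (4 * (a : ℤ)) ∣ (b ^ 2 - D) * (l : ℤ) ^ 2 := by
      refine ⟨-Y - t * uz + a * uz ^ 2, ?_⟩
      have e : (l : ℤ) * b = t - 2 * a * uz := hb.symm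
      have e2 : (b ^ 2 - D) * (l : ℤ) ^ 2 = (l * b) ^ 2 - D * (l : ℤ) ^ 2 := by ring
      rw [e2, e]
      linear_combination -hD'
    have h10 : (4 * (a : ℤ)) ∣ b ^ 2 - D := by
      refine IsCoprime.dvd_of_dvd_mul_right ?_ h9
      refine IsCoprime.pow_right ?_
      rw [isCoprime_comm, hpl.coprime_iff_not_dvd]
      intro h11
      rcases hpl.dvd_mul.1 h11 with h12 | h12
      · have h13 : l ∣ 4 := by exact_mod_cast h12
        have h14 : l ∣ 2 := (Nat.Prime.dvd_of_dvd_pow hl (by norm_num; exact h13 : l ∣ 2 ^ 2))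
        exact hl2' (by exact_mod_cast h14)
      · exact h5 (by exact_mod_cast h12)
    obtain ⟨c, hc⟩ := h10
    refine ⟨⟨uz.toNat, ((a : ℤ), b, c)⟩, ?_, ?_⟩
    · rw [Finset.mem_sigma, mem_FS]
      have hut : ((uz.toNat : ℕ) : ℤ) = uz := Int.toNat_of_nonneg hu0
      refine ⟨?_, ?_, ?_, ?_, ?_⟩
      · show uz.toNat ∈ un l
        unfold un
        rw [Finset.mem_filter, Finset.mem_range]
        refine ⟨by omega, ?_⟩
        rw [Nat.coprime_comm, hl.coprime_iff_not_dvd]
        intro h11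
        apply hunl
        rw [← hut]
        exact_mod_cast h11
      · show b ^ 2 - 4 * (a : ℤ) * c = D
        linear_combination hc
      · show (N : ℤ) ∣ (a : ℤ)
        exact_mod_cast h8
      · show (0 : ℤ) < (a : ℤ)
        exact_mod_cast ha0
      · show (a : ℤ) * ((uz.toNat : ℕ) : ℤ) ^ 2 + b * ((uz.toNat : ℕ) : ℤ) * l + c * (l : ℤ) ^ 2 < 0
        rw [hut]
        have e : (a : ℤ) * (a * uz ^ 2 + b * uz * l + c * (l : ℤ) ^ 2) = (a : ℤ) * (-Y) := by
          have h11 : 4 * ((a : ℤ) * (a * uz ^ 2 + b * uz * l + c * (l : ℤ) ^ 2)) =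
              4 * ((a : ℤ) * (-Y)) := by
            linear_combination (-(l : ℤ) ^ 2) * hc - hD' -
              (t + 2 * a * uz + l * b) * hb
          omega
        have e2 := mul_left_cancel₀ (by exact_mod_cast ha0.ne') e
        rw [e2]
        have : (0 : ℤ) < Y := by exact_mod_cast hY0
        omega
    · simp only
      have hut : ((uz.toNat : ℕ) : ℤ) = uz := Int.toNat_of_nonneg hu0
      rw [hut, Int.toNat_natCast]
      have e : 2 * (a : ℤ) * uz + b * l = t := by linear_combination -hb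
      rw [e]
  · -- the terms agree
    rintro ⟨u, A, B, C⟩ hp
    rw [Finset.mem_sigma, mem_FS] at hp
    obtain ⟨hu, h1, h2, h3, h4⟩ := hp
    simp only at hu h1 h2 h3 h4 ⊢
    have hla := l_ndvd (q := (A, B, C)) hl hj h1
    simp only at hla
    set t : ℤ := 2 * A * u + B * l with ht
    set Y : ℤ := -(A * (u : ℤ) ^ 2 + B * u * l + C * (l : ℤ) ^ 2) with hY
    have hY0 : 0 < Y := by rw [hY]; omega
    have key : (D : ℤ) * (l : ℤ) ^ 2 - t ^ 2 = 4 * (A * Y) := by
      rw [ht, hY]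
      linear_combination (-(l : ℤ) ^ 2) * h1
    have hAt : ((A.toNat : ℕ) : ℤ) = A := Int.toNat_of_nonneg h3.le
    have hYt : ((Y.toNat : ℕ) : ℤ) = Y := Int.toNat_of_nonneg hY0.le
    have hcast : (((D * l ^ 2 : ℕ) : ℤ) - t ^ 2).toNat / 4 / A.toNat = Y.toNat := by
      have e : ((D * l ^ 2 : ℕ) : ℤ) - t ^ 2 = 4 * (A * Y) := by push_cast; exact key
      have e2 : (4 * (A * Y)).toNat / 4 = A.toNat * Y.toNat := by
        rw [← Int.toNat_mul h3.le hY0.le]
        omega
      rw [e, e2, Nat.mul_div_cancel_left _ (by omega)]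
    rw [hcast]
    have hps : ps D d (A, B, C) = loc D d A.toNat Y.toNat := by
      refine ps_loc h hd.1 hl hl2 hlD (q := (A, B, C)) h1 hAt u ?_
      rw [hYt, hY]
      unfold ev
      ring
    rw [← hps, hAt]
    have hww : w (t * li) = w B := by
      refine hw _ _ ?_
      obtain ⟨A', hA'⟩ := h2
      obtain ⟨k, hk⟩ := hli
      refine ⟨2 * A' * u * li + B * k, ?_⟩
      rw [ht, hA']
      linear_combination B * hk
    have hjt : jacobiSym (2 * t) l * jacobiSym A l = jacobiSym u l := by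
      rw [← jacobiSym.mul_left]
      have e : (2 * t * A) % l = (u * (2 * A) ^ 2) % l := by
        apply Int.emod_eq_emod_iff_emod_sub_eq_zero.2
        apply Int.emod_eq_zero_of_dvd
        exact ⟨2 * A * B, by rw [ht]; ring⟩
      rw [jacobiSym.mod_left' e, jacobiSym.mul_left, jacobiSym.sq_one', mul_one]
      rw [← Int.isCoprime_iff_gcd_eq_one, isCoprime_comm, hpl.coprime_iff_not_dvd]
      intro h5
      rcases hpl.dvd_mul.1 h5 with h6 | h6
      · exact hl2' h6
      · exact hla h6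
    rw [hww, ← hjt]
    ring

end

end Pool.Agent.N975.RQ
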