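import Pool.Agent.N969.RQ.Defs3
import Pool.Agent.N816.P17.Flip
import Pool.Agent.N295.P15.C2EA

/-!
# RQ (helper975): the flip at the auxiliary prime, for the dual divisor sums
-/

set_option autoImplicit false

namespace Pool.Agent.N975.RQ.Du

open Finset
open Pool.Agent.N969.P15 (ep2 psp psp2 c2)
open Pool.Agent.N969.P17G (sgp psl)
open Pool.Agent.N816.P17.Flip (toggle js_sq js_zero jn jc je jsq jz dvd_mul_iff psl_T psp_T psl_S psp_S)

section flip

variable {l : ℕ} (R : ℕ → ℕ → ℕ → ℕ → ℤ) (Q Q' : ℕ → Prop) [DecidablePred Q] [DecidablePred Q']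

/-- divisor sums with filters -/
def WF (F : ℕ → ℕ → ℕ → ℕ → ℤ) (S T : ℕ) : ℤ :=
  ∑ a ∈ S.divisors.filter Q, ∑ a' ∈ T.divisors.filter Q', F a a' (S / a) (T / a')

/-- with the left symbol at `l` -/
def Lf (l : ℕ) (a a' Y X : ℕ) : ℤ := psl l a a' Y X * R a a' Y X

/-- with the right symbol at `l` -/
def Rf (l : ℕ) (a a' Y X : ℕ) : ℤ := psp l a a' Y X * R a a' Y X

/-- `l` does not divide `T` -/
theorem nd (hl : l.Prime) {S T : ℕ} (hT : ¬ l ∣ T) (hST : l ∣ S + T) (hS0 : S ≠ 0) :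
    WF Q Q' (Lf R l) S T = jacobiSym (-(T : ℤ)) l * WF Q Q' (Rf R l) S T := by
  have hT0 : T ≠ 0 := by rintro rfl; exact hT (dvd_zero l)
  unfold WF
  rw [Finset.mul_sum]
  refine Finset.sum_congr rfl fun a ha => ?_
  rw [Finset.mul_sum]
  refine Finset.sum_congr rfl fun a' ha' => ?_
  unfold Lf Rf
  rw [← mul_assoc]
  congr 1
  obtain ⟨Y, hY⟩ := Nat.dvd_of_mem_divisors (Finset.mem_of_mem_filter a ha)
  obtain ⟨X, hX⟩ := Nat.dvd_of_mem_divisors (Finset.mem_of_mem_filter a' ha')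
  have a0 : a ≠ 0 := by rintro rfl; rw [zero_mul] at hY; exact hS0 hY
  have b0 : a' ≠ 0 := by rintro rfl; rw [zero_mul] at hX; exact hT0 hX
  rw [hY, hX, Nat.mul_div_cancel_left _ (Nat.pos_of_ne_zero a0),
    Nat.mul_div_cancel_left _ (Nat.pos_of_ne_zero b0)]
  have hS : ¬ l ∣ S := fun h => hT ((Nat.dvd_add_right h).1 hST)
  have h1 : ¬ l ∣ a := fun h => hS (hY ▸ h.mul_right Y)
  have h3 : ¬ l ∣ X := fun h => hT (hX ▸ h.mul_left a')
  unfold psl psp
  rw [if_neg (fun h => h1 h.1), if_neg (fun h => h1 h.1), jn, jn, jc, jc, jc]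
  have e3 := jsq hl h3
  have e4 := je hl
  linear_combination (-(jacobiSym a l * jacobiSym a' l)) * e3 -
    (jacobiSym a l * jacobiSym a' l * jacobiSym X l * jacobiSym X l) * e4

variable {e : ℤ} (he : e * e = 1)
  (RT : ∀ t a a' Y X : ℕ, R a (a' * l ^ t) Y X = e ^ t * R a a' Y (X * l ^ t))
  (RS : ∀ s a a' Y X : ℕ, R (a * l ^ s) a' Y X = e ^ s * R a a' (Y * l ^ s) X)
  (hQ : ∀ x t : ℕ, Q (x * l ^ t) ↔ Q x) (hQ' : ∀ x t : ℕ, Q' (x * l ^ t) ↔ Q' x)

include he RT hQ' in
/-- toggling the `l`-part of `a'` -/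
theorem fT (hp' : l.Prime) {S T t T0 : ℕ} (hS0 : S ≠ 0) (ht : 0 < t)
    (hT : T = T0 * l ^ t) (hT0 : ¬ l ∣ T0) :
    WF Q Q' (Lf R l) S T = jacobiSym (-(T0 : ℤ)) l * e ^ t * WF Q Q' (Rf R l) S T := by
  have e4 := je hp'
  have e5 : e ^ t * e ^ t = 1 := by rw [← mul_pow, he, one_pow]
  have hpt : 0 < l ^ t := pow_pos hp'.pos t
  have hpd : l ∣ l ^ t := dvd_pow_self l ht.ne'
  have hT00 : T0 ≠ 0 := by rintro rfl; exact hT0 (dvd_zero l)
  unfold WF
  rw [Finset.mul_sum]
  refine Finset.sum_congr rfl fun a ha => ?_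
  obtain ⟨Y, hY⟩ := Nat.dvd_of_mem_divisors (Finset.mem_of_mem_filter a ha)
  have a0 : a ≠ 0 := by rintro rfl; rw [zero_mul] at hY; exact hS0 hY
  rw [hY, Nat.mul_div_cancel_left _ (Nat.pos_of_ne_zero a0)]
  refine toggle hp' ht hT hT0 Q' (fun x => hQ' x t) _ _ _ ?_ ?_ ?_
  · rintro a' ⟨X, hX⟩
    have b0 : a' ≠ 0 := by rintro rfl; rw [zero_mul] at hX; exact hT00 hX
    have n1 : ¬ l ∣ a' := fun h => hT0 (hX ▸ h.mul_right X)
    have e1 := jsq hp' n1
    have d1 : T / (a' * l ^ t) = X := by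
      rw [hT, hX, show a' * X * l ^ t = a' * l ^ t * X by ring]
      exact Nat.mul_div_cancel_left _ (Nat.mul_pos (Nat.pos_of_ne_zero b0) hpt)
    have d2 : T / a' = X * l ^ t := by
      rw [hT, hX, mul_assoc]
      exact Nat.mul_div_cancel_left _ (Nat.pos_of_ne_zero b0)
    simp only [d1, d2]
    unfold Lf Rf
    rw [RT]
    have key : psl l a (a' * l ^ t) Y X = jacobiSym (-(T0 : ℤ)) l * psp l a a' Y (X * l ^ t) := by
      unfold psl psp
      by_cases h1 : l ∣ a
      · rw [if_pos ⟨h1, hpd.mul_left a'⟩, if_pos ⟨h1, hpd.mul_left X⟩, jn, jn, hX, jc, jc, jc]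
        linear_combination (-(jacobiSym (-1) l * jacobiSym X l * jacobiSym Y l)) * e1
      · rw [if_neg (fun h => h1 h.1), if_neg (fun h => h1 h.1), jn (a * _),
          jz hp' (hpd.mul_left (a * a') |> fun h => by rwa [mul_assoc] at h),
          jz hp' (hpd.mul_left (a * X) |> fun h => by rwa [mul_assoc] at h)]
        ring
    rw [key]; ring
  · rintro a' ⟨X, hX⟩
    have b0 : a' ≠ 0 := by rintro rfl; rw [zero_mul] at hX; exact hT00 hX
    have n1 : ¬ l ∣ a' := fun h => hT0 (hX ▸ h.mul_right X)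
    have n2 : ¬ l ∣ X := fun h => hT0 (hX ▸ h.mul_left a')
    have e2 := jsq hp' n2
    have d1 : T / (a' * l ^ t) = X := by
      rw [hT, hX, show a' * X * l ^ t = a' * l ^ t * X by ring]
      exact Nat.mul_div_cancel_left _ (Nat.mul_pos (Nat.pos_of_ne_zero b0) hpt)
    have d2 : T / a' = X * l ^ t := by
      rw [hT, hX, mul_assoc]
      exact Nat.mul_div_cancel_left _ (Nat.pos_of_ne_zero b0)
    simp only [d1, d2]
    unfold Lf Rf
    rw [RT]
    have key : psl l a a' Y (X * l ^ t) = jacobiSym (-(T0 : ℤ)) l * psp l a (a' * l ^ t) Y X := by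
      unfold psl psp
      rw [if_neg (fun h => n1 h.2), if_neg (fun h => n2 h.2), jn, jn, hX, jc, jc, jc]
      linear_combination (-(jacobiSym (-1) l * jacobiSym (-1) l * jacobiSym a l *
        jacobiSym a' l)) * e2 - (jacobiSym a l * jacobiSym a' l) * e4
    rw [key]
    linear_combination (-(jacobiSym (-(T0 : ℤ)) l * psp l a (a' * l ^ t) Y X *
      R a a' Y (X * l ^ t))) * e5
  · rintro a' ⟨X, hX⟩ h1 h2
    have b0 : a' ≠ 0 := by
      rintro rfl
      rw [zero_mul] at hX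
      rw [hX] at hT
      rcases Nat.mul_eq_zero.1 hT.symm with h | h
      · exact hT00 h
      · exact hpt.ne' h
    have d2 : T / a' = X := by rw [hX]; exact Nat.mul_div_cancel_left _ (Nat.pos_of_ne_zero b0)
    have n2 : l ∣ X := by
      by_contra h3
      apply h2
      have h4 : l ^ t ∣ a' * X := by rw [← hX, hT]; exact dvd_mul_left _ _
      exact Nat.Coprime.dvd_of_dvd_mul_right
        (Nat.Coprime.pow_left t ((Nat.Prime.coprime_iff_not_dvd hp').2 h3)) h4
    simp only [d2]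
    unfold Lf Rf
    have k1 : psp l a a' Y X = 0 := by
      unfold psp
      split_ifs
      · exact jz hp' (h1.mul_right Y)
      · rw [jn, jz hp' (n2.mul_left a), mul_zero]
    have k2 : psl l a a' Y X = 0 := by
      unfold psl
      split_ifs
      · rw [jn, jz hp' (n2.mul_right Y), mul_zero]
      · exact jz hp' (h1.mul_left a)
    rw [k1, k2, zero_mul]
    exact ⟨rfl, rfl⟩

include he RS hQ in
/-- toggling the `l`-part of `a` -/
theorem fS (hp' : l.Prime) {S T s S0 : ℕ} (hT0 : T ≠ 0) (hT : l ∣ T) (hs : 0 < s)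
    (hS : S = S0 * l ^ s) (hS0 : ¬ l ∣ S0) :
    WF Q Q' (Lf R l) S T = jacobiSym (S0 : ℤ) l * e ^ s * WF Q Q' (Rf R l) S T := by
  have e4 := je hp'
  have e5 : e ^ s * e ^ s = 1 := by rw [← mul_pow, he, one_pow]
  have hps : 0 < l ^ s := pow_pos hp'.pos s
  have hpd : l ∣ l ^ s := dvd_pow_self l hs.ne'
  have hS00 : S0 ≠ 0 := by rintro rfl; exact hS0 (dvd_zero l)
  unfold WF
  refine toggle hp' hs hS hS0 Q (fun x => hQ x s) _ _ _ ?_ ?_ ?_
  · rintro a ⟨Y, hY⟩
    have b0 : a ≠ 0 := by rintro rfl; rw [zero_mul] at hY; exact hS00 hY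
    have n1 : ¬ l ∣ a := fun h => hS0 (hY ▸ h.mul_right Y)
    have e1 := jsq hp' n1
    have d1 : S / (a * l ^ s) = Y := by
      rw [hS, hY, show a * Y * l ^ s = a * l ^ s * Y by ring]
      exact Nat.mul_div_cancel_left _ (Nat.mul_pos (Nat.pos_of_ne_zero b0) hps)
    have d2 : S / a = Y * l ^ s := by
      rw [hS, hY, mul_assoc]
      exact Nat.mul_div_cancel_left _ (Nat.pos_of_ne_zero b0)
    simp only [d1, d2]
    rw [Finset.mul_sum]
    refine Finset.sum_congr rfl fun a' ha' => ?_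
    obtain ⟨X, hX⟩ := Nat.dvd_of_mem_divisors (Finset.mem_of_mem_filter a' ha')
    have c0 : a' ≠ 0 := by rintro rfl; rw [zero_mul] at hX; exact hT0 hX
    rw [hX, Nat.mul_div_cancel_left _ (Nat.pos_of_ne_zero c0)]
    unfold Lf Rf
    rw [RS]
    have key : psl l (a * l ^ s) a' Y X = jacobiSym (S0 : ℤ) l * psp l a a' (Y * l ^ s) X := by
      unfold psl psp
      by_cases h1 : l ∣ a'
      · rw [if_pos ⟨hpd.mul_left a, h1⟩, if_neg (fun h => n1 h.1), jn, jn, hY, jc, jc, jc]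
        linear_combination (-(jacobiSym (-1) l * jacobiSym X l * jacobiSym Y l)) * e1
      · have h2 : l ∣ X := by
          rw [hX] at hT
          exact (hp'.dvd_mul.1 hT).resolve_left h1
        rw [if_neg (fun h => h1 h.2), if_neg (fun h => n1 h.1), jn,
          jz hp' ((hpd.mul_left a).mul_right a'), jz hp' (h2.mul_left a)]
        ring
    rw [key]; ring
  · rintro a ⟨Y, hY⟩
    have b0 : a ≠ 0 := by rintro rfl; rw [zero_mul] at hY; exact hS00 hY
    have n1 : ¬ l ∣ a := fun h => hS0 (hY ▸ h.mul_right Y)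
    have n2 : ¬ l ∣ Y := fun h => hS0 (hY ▸ h.mul_left a)
    have e2 := jsq hp' n2
    have d1 : S / (a * l ^ s) = Y := by
      rw [hS, hY, show a * Y * l ^ s = a * l ^ s * Y by ring]
      exact Nat.mul_div_cancel_left _ (Nat.mul_pos (Nat.pos_of_ne_zero b0) hps)
    have d2 : S / a = Y * l ^ s := by
      rw [hS, hY, mul_assoc]
      exact Nat.mul_div_cancel_left _ (Nat.pos_of_ne_zero b0)
    simp only [d1, d2]
    rw [Finset.mul_sum]
    refine Finset.sum_congr rfl fun a' ha' => ?_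
    obtain ⟨X, hX⟩ := Nat.dvd_of_mem_divisors (Finset.mem_of_mem_filter a' ha')
    have c0 : a' ≠ 0 := by rintro rfl; rw [zero_mul] at hX; exact hT0 hX
    rw [hX, Nat.mul_div_cancel_left _ (Nat.pos_of_ne_zero c0)]
    unfold Lf Rf
    rw [RS]
    have key : psl l a a' (Y * l ^ s) X = jacobiSym (S0 : ℤ) l * psp l (a * l ^ s) a' Y X := by
      unfold psl psp
      by_cases h1 : l ∣ X
      · rw [if_neg (fun h => n1 h.1), if_pos ⟨hpd.mul_left a, h1⟩, hY, jc, jc, jc]
        linear_combination (-(jacobiSym a l * jacobiSym a' l)) * e2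
      · have h2 : l ∣ a' := by
          rw [hX] at hT
          exact (hp'.dvd_mul.1 hT).resolve_right h1
        rw [if_neg (fun h => n1 h.1), if_neg (fun h => h1 h.2), jn,
          jz hp' (h2.mul_left a), jz hp' ((hpd.mul_left a).mul_right X)]
        ring
    rw [key]
    linear_combination (-(jacobiSym (S0 : ℤ) l * psp l (a * l ^ s) a' Y X *
      R a a' (Y * l ^ s) X)) * e5
  · rintro a ⟨Y, hY⟩ h1 h2
    have b0 : a ≠ 0 := by
      rintro rfl
      rw [zero_mul] at hY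
      rw [hY] at hS
      rcases Nat.mul_eq_zero.1 hS.symm with h | h
      · exact hS00 h
      · exact hps.ne' h
    have d2 : S / a = Y := by rw [hY]; exact Nat.mul_div_cancel_left _ (Nat.pos_of_ne_zero b0)
    have n2 : l ∣ Y := by
      by_contra h3
      apply h2
      have h4 : l ^ s ∣ a * Y := by rw [← hY, hS]; exact dvd_mul_left _ _
      exact Nat.Coprime.dvd_of_dvd_mul_right
        (Nat.Coprime.pow_left s ((Nat.Prime.coprime_iff_not_dvd hp').2 h3)) h4
    simp only [d2]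
    refine ⟨Finset.sum_eq_zero fun a' _ => ?_, Finset.sum_eq_zero fun a' _ => ?_⟩
    · unfold Rf
      have k1 : psp l a a' Y (T / a') = 0 := by
        unfold psp
        split_ifs
        · exact jz hp' (n2.mul_left a')
        · rw [jn, jz hp' (h1.mul_right _), mul_zero]
      rw [k1, zero_mul]
    · unfold Lf
      have k2 : psl l a a' Y (T / a') = 0 := by
        unfold psl
        split_ifs
        · rw [jn, jz hp' (n2.mul_left _), mul_zero]
        · exact jz hp' (h1.mul_right a')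
      rw [k2, zero_mul]

include he RT RS hQ hQ' in
/-- the flip at `l` for the determinant `n l` -/
theorem step (hl : l.Prime) {n S T : ℕ} (hn : ¬ l ∣ n) (hST : S + T = n * l) (hS0 : S ≠ 0)
    (hT0 : T ≠ 0) (hen : e = jacobiSym n l) :
    WF Q Q' (Lf R l) S T = jacobiSym (-1) l * sgp 1 (n * l) l T * WF Q Q' (Rf R l) S T := by
  have e4 := je hl
  by_cases hT : l ∣ T
  · have hS : l ∣ S := (Nat.dvd_add_left hT).1 (hST ▸ dvd_mul_left l n)
    obtain ⟨T1, hT1⟩ := hT
    obtain ⟨S1, hS1⟩ := hS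
    have dn : n * l / l = n := Nat.mul_div_cancel _ hl.pos
    have dT : (T : ℤ) / l = T1 := by
      rw [hT1, Nat.cast_mul]
      exact Int.mul_ediv_cancel_left _ (by exact_mod_cast hl.ne_zero)
    have hsum : S1 + T1 = n := by
      have h1 : l * (S1 + T1) = l * n := by
        rw [mul_add, ← hS1, ← hT1, hST]; ring
      exact Nat.eq_of_mul_eq_mul_left hl.pos h1
    have e5 := jsq hl hn
    have hTd : (l : ℤ) ∣ (T : ℤ) := Int.natCast_dvd_natCast.2 ⟨T1, hT1⟩
    unfold sgp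
    rw [if_pos hTd, dT, dn]
    simp only [Int.natCast_dvd_natCast]
    by_cases h2 : l ∣ T1
    · have hS1' : ¬ l ∣ S1 := fun h3 => hn (hsum ▸ dvd_add h3 h2)
      have e1 : jacobiSym (S1 : ℤ) l = jacobiSym n l := by
        refine jacobiSym.mod_left' ?_
        rw [← hsum]
        obtain ⟨T2, hT2⟩ := h2
        push_cast
        rw [hT2, Nat.cast_mul]
        simp
      rw [fS R Q Q' he RS hQ hl hT0 ⟨T1, hT1⟩ one_pos (by rw [hS1, pow_one, mul_comm]) hS1',
        hen, pow_one, if_pos h2, e1, Nat.cast_one]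
      linear_combination (WF Q Q' (Rf R l) S T) * e5 - (WF Q Q' (Rf R l) S T) * e4
    · rw [fT R Q Q' he RT hQ' hl hS0 one_pos (by rw [hT1, pow_one, mul_comm]) h2,
        hen, pow_one, if_neg h2, jn, ← Nat.cast_mul, jc]
      ring
  · have hTd : ¬ (l : ℤ) ∣ (T : ℤ) := fun h1 => hT (Int.natCast_dvd_natCast.1 h1)
    rw [nd R Q Q' hl hT (hST ▸ dvd_mul_left l n) hS0]
    unfold sgp
    rw [if_neg hTd, jn]

end flip

end Pool.Agent.N975.RQ.Du
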